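import Pool.Agent.Helper38.Form.Iface

/-!
# Minimality for types I and II
-/

namespace Pool.Agent.Helper38.Form

open Function

theorem IsAGroup.of_pres {ι D G : Type} {Gi : ι → Type} [Group D] [Finite D] [Group G]
    [∀ i, Group (Gi i)] (f : ∀ i, D →* Gi i) (h : ∀ i, IsAGroup (Gi i)) (ψ : D →* G)
    (hψ : Surjective ψ) (hker : ∀ d, (∀ i, f i d = 1) → ψ d = 1) : IsAGroup G := by
  let p : D →* ∀ i, Gi i := MonoidHom.pi f
  have h1 : IsAGroup (D ⧸ p.ker) := by
    refine IsAGroup.of_family (G := Gi) (fun i => (Pi.evalMonoidHom Gi i).comp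
      (QuotientGroup.kerLift p)) ?_ h
    intro x
    induction x using QuotientGroup.induction_on with
    | H z =>
      intro hz
      refine (QuotientGroup.eq_one_iff z).2 ?_
      rw [MonoidHom.mem_ker]
      funext i
      exact hz i
  refine h1.of_surjective (QuotientGroup.lift p.ker ψ ?_) ?_
  · intro d hd
    exact hker d (fun i => congrFun (MonoidHom.mem_ker.1 hd) i)
  · intro g
    obtain ⟨d, rfl⟩ := hψ g
    exact ⟨QuotientGroup.mk d, rfl⟩

theorem exists_min_subgroup {D : Type} [Group D] [Finite D] (P : Subgroup D → Prop)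
    (h : ∃ M, P M) : ∃ M, P M ∧ ∀ L, P L → L ≤ M → L = M := by
  obtain ⟨M, hM⟩ := (Set.toFinite {M | P M}).exists_minimal h
  exact ⟨M, hM.1, fun L hL hle => le_antisymm hle (hM.2 hL hle)⟩

theorem exists_max_subgroup {D : Type} [Group D] [Finite D] (P : Subgroup D → Prop)
    (h : ∃ M, P M) : ∃ M, P M ∧ ∀ L, P L → M ≤ L → L = M := by
  obtain ⟨M, hM⟩ := (Set.toFinite {M | P M}).exists_maximal h
  exact ⟨M, hM.1, fun L hL hle => le_antisymm (hM.2 hL hle) hle⟩

theorem bI (G₀ : Type) [Group G₀] [Finite G₀] (h : IsTypeI G₀) (G : Type) [Group G] [Finite G]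
    (hG : (form G₀).Mem G) (hna : ¬ IsAGroup G) : (form G).Mem G₀ := by
  obtain ⟨-, N, hN, ⟨n₁, hn₁, n₂, hn₂, hne⟩, hmin, hA⟩ := h
  obtain ⟨ι, _, D, _, _, π, ψ, hπ, hinj, hψ⟩ := hasPres_of_mem_form hG
  -- `P`: normal subgroups inside all preimages of `N`, not killed by `ψ`
  have hAD : ¬ (⨅ i, N.comap (π i)) ≤ ψ.ker := by
    intro hle
    refine hna (IsAGroup.of_pres (Gi := fun _ => G₀ ⧸ N)
      (fun i : ι => (QuotientGroup.mk' N).comp (π i)) (fun _ => hA) ψ hψ ?_)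
    intro d hd
    apply hle
    rw [Subgroup.mem_iInf]
    intro i
    exact (QuotientGroup.eq_one_iff (π i d)).1 (hd i)
  obtain ⟨M, ⟨hM1, hM2, hM3⟩, hMmin⟩ := exists_min_subgroup
    (fun M : Subgroup D => M.Normal ∧ M ≤ (⨅ i, N.comap (π i)) ∧ ¬ M ≤ ψ.ker)
    ⟨⨅ i, N.comap (π i), Subgroup.normal_iInf_normal (fun i => inferInstance), le_rfl, hAD⟩
  have hMN : ∀ i, ∀ m ∈ M, π i m ∈ N := fun i m hm =>
    (Subgroup.mem_iInf.1 (hM2 hm)) i
  obtain ⟨x, hx, hxψ⟩ := SetLike.not_le_iff_exists.1 hM3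
  have hx1 : x ≠ 1 := fun h => hxψ (h ▸ ψ.ker.one_mem)
  obtain ⟨i, hi⟩ : ∃ i, π i x ≠ 1 := by
    by_contra hcon
    push Not at hcon
    exact hx1 (hinj x hcon)
  have hmap : ∀ L : Subgroup D, L.Normal → L ≤ M → (∃ y ∈ L, π i y ≠ 1) →
      ∀ n ∈ N, ∃ l ∈ L, π i l = n := by
    intro L hL hLM ⟨y, hy, hy1⟩ n hn
    have hn' : (L.map (π i)).Normal := hL.map _ (hπ i)
    have hbot : L.map (π i) ≠ ⊥ := by
      intro hb
      have : π i y ∈ L.map (π i) := Subgroup.mem_map_of_mem _ hy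
      rw [hb] at this
      exact hy1 (Subgroup.mem_bot.1 this)
    exact hmin _ hn' hbot hn
  have hL : ∀ y ∈ M, π i y = 1 → ψ y = 1 := by
    by_contra hcon
    push Not at hcon
    obtain ⟨y, hy, hy1, hy2⟩ := hcon
    have := hMmin (M ⊓ (π i).ker) ⟨inferInstance, inf_le_left.trans hM2,
      fun hle => hy2 (hle ⟨hy, hy1⟩)⟩ inf_le_left
    rw [← this] at hx
    exact hi hx.2
  have hK : ∀ y ∈ M, ψ y = 1 → π i y = 1 := by
    by_contra hcon
    push Not at hcon
    obtain ⟨y, hy, hy1, hy2⟩ := hcon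
    obtain ⟨l, ⟨hl, hl'⟩, hlx⟩ := hmap (M ⊓ ψ.ker) inferInstance inf_le_left
      ⟨y, ⟨hy, hy1⟩, hy2⟩ (π i x) (hMN i x hx)
    apply hxψ
    have h2 : ψ (x * l⁻¹) = 1 := hL _ (M.mul_mem hx (M.inv_mem hl)) (by
      rw [map_mul, map_inv, hlx, mul_inv_cancel])
    rw [map_mul, map_inv, MonoidHom.mem_ker.1 hl', inv_one, mul_one] at h2
    exact h2
  refine (form G).mem_of_family' (ι := Unit) (Formation.mem_form G) (fun _ => ψ) (fun _ => hψ)
    (π i) (hπ i) ?_
  intro d hd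
  have hd : ψ d = 1 := hd ()
  have hc : ∀ n ∈ N, n * π i d = π i d * n := by
    intro n hn
    obtain ⟨l, hl, rfl⟩ := hmap M hM1 le_rfl ⟨x, hx, hi⟩ n hn
    have h1 : π i (d * l * d⁻¹ * l⁻¹) = 1 := by
      apply hK
      · exact M.mul_mem (hM1.conj_mem l hl d) (M.inv_mem hl)
      · simp [hd]
    rw [map_mul, map_inv, mul_inv_eq_one, map_mul, map_mul, map_inv, mul_inv_eq_iff_eq_mul] at h1
    exact h1.symm
  by_contra hne1
  have hcb : Subgroup.centralizer (N : Set G₀) ≠ ⊥ := by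
    intro hb
    have : π i d ∈ Subgroup.centralizer (N : Set G₀) := Subgroup.mem_centralizer_iff.2 hc
    rw [hb] at this
    exact hne1 (Subgroup.mem_bot.1 this)
  have := hmin _ inferInstance hcb hn₂
  exact hne (Subgroup.mem_centralizer_iff.1 this n₁ hn₁)

theorem bII (E : Type) [Group E] [Finite E] (K : Subgroup (MulAut E)) (h : IsTypeII E K)
    (G : Type) [Group G] [Finite G]
    (hG : (form (Hol E K)).Mem G) (hna : ¬ IsAGroup G) : (form G).Mem (Hol E K) := by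
  obtain ⟨p, hp, hnt, hcomm, hexp, hirr, hKA, hdvd⟩ := h
  obtain ⟨ι, _, D, _, _, π, ψ, hπ, hinj, hψ⟩ := hasPres_of_mem_form hG
  let ρ : ι → D →* K := fun i => SemidirectProduct.rightHom.comp (π i)
  have hρ : ∀ i, Surjective (ρ i) := fun i =>
    SemidirectProduct.rightHom_surjective.comp (hπ i)
  have hAD : ¬ (⨅ i, (ρ i).ker) ≤ ψ.ker := by
    intro hle
    refine hna (IsAGroup.of_pres (Gi := fun _ => K) (fun i : ι => ρ i) (fun _ => hKA) ψ hψ ?_)
    intro d hd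
    apply hle
    rw [Subgroup.mem_iInf]
    exact hd
  obtain ⟨M, ⟨hM1, hM2, hM3⟩, hMmin⟩ := exists_min_subgroup
    (fun M : Subgroup D => M.Normal ∧ M ≤ (⨅ i, (ρ i).ker) ∧ ¬ M ≤ ψ.ker)
    ⟨⨅ i, (ρ i).ker, Subgroup.normal_iInf_normal (fun i => inferInstance), le_rfl, hAD⟩
  have hMr : ∀ i, ∀ m ∈ M, (π i m).right = 1 := fun i m hm =>
    (Subgroup.mem_iInf.1 (hM2 hm)) i
  obtain ⟨x, hx, hxψ⟩ := SetLike.not_le_iff_exists.1 hM3
  have hx1 : x ≠ 1 := fun h => hxψ (h ▸ ψ.ker.one_mem)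
  obtain ⟨i, hi⟩ : ∃ i, π i x ≠ 1 := by
    by_contra hcon
    push Not at hcon
    exact hx1 (hinj x hcon)
  -- conjugation formula
  have hconj : ∀ d : D, ∀ m ∈ M, (π i (d * m * d⁻¹)).left = ((ρ i d : K) : MulAut E)
      (π i m).left := by
    intro d m hm
    have hr := hMr i m hm
    simp only [map_mul, map_inv, SemidirectProduct.mul_left, SemidirectProduct.mul_right,
      SemidirectProduct.inv_left, hr, mul_one]
    rw [hcomm (π i d).left, mul_assoc]
    simp [ρ]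
  have hmulM : ∀ a ∈ M, ∀ b ∈ M, (π i (a * b)).left = (π i a).left * (π i b).left := by
    intro a ha b hb
    rw [map_mul, SemidirectProduct.mul_left, hMr i a ha, map_one]
    rfl
  have hmap : ∀ L : Subgroup D, L.Normal → L ≤ M → (∃ y ∈ L, π i y ≠ 1) →
      ∀ e : E, ∃ l ∈ L, (π i l).left = e := by
    intro L hLn hLM ⟨y, hy, hy1⟩ e
    let S : Subgroup E :=
      { carrier := {e | ∃ l ∈ L, (π i l).left = e}
        mul_mem' := by
          rintro _ _ ⟨a, ha, rfl⟩ ⟨b, hb, rfl⟩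
          exact ⟨a * b, L.mul_mem ha hb, hmulM a (hLM ha) b (hLM hb)⟩
        one_mem' := ⟨1, L.one_mem, by simp⟩
        inv_mem' := by
          rintro _ ⟨a, ha, rfl⟩
          refine ⟨a⁻¹, L.inv_mem ha, ?_⟩
          rw [map_inv, SemidirectProduct.inv_left, hMr i a (hLM ha)]
          simp }
    have hS : S = ⊥ ∨ S = ⊤ := by
      apply hirr
      rintro k hk _ ⟨l, hl, rfl⟩
      obtain ⟨d, hd⟩ := hρ i ⟨k, hk⟩
      refine ⟨d * l * d⁻¹, hLn.conj_mem l hl d, ?_⟩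
      rw [hconj d l (hLM hl), hd]
    rcases hS with hS | hS
    · exfalso
      apply hy1
      have : (π i y).left ∈ S := ⟨y, hy, rfl⟩
      rw [hS] at this
      ext1
      · exact Subgroup.mem_bot.1 this
      · exact hMr i y (hLM hy)
    · have : e ∈ S := by rw [hS]; trivial
      exact this
  have hL : ∀ y ∈ M, π i y = 1 → ψ y = 1 := by
    by_contra hcon
    push Not at hcon
    obtain ⟨y, hy, hy1, hy2⟩ := hcon
    have := hMmin (M ⊓ (π i).ker) ⟨inferInstance, inf_le_left.trans hM2,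
      fun hle => hy2 (hle ⟨hy, hy1⟩)⟩ inf_le_left
    rw [← this] at hx
    exact hi hx.2
  have hK : ∀ y ∈ M, ψ y = 1 → π i y = 1 := by
    by_contra hcon
    push Not at hcon
    obtain ⟨y, hy, hy1, hy2⟩ := hcon
    obtain ⟨l, ⟨hl, hl'⟩, hlx⟩ := hmap (M ⊓ ψ.ker) inferInstance inf_le_left
      ⟨y, ⟨hy, hy1⟩, hy2⟩ (π i x).left
    apply hxψ
    have h2 : ψ (x * l⁻¹) = 1 := hL _ (M.mul_mem hx (M.inv_mem hl)) (by
      have : π i l = π i x := by
        ext1
        · exact hlx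
        · rw [hMr i l hl, hMr i x hx]
      rw [map_mul, map_inv, this, mul_inv_cancel])
    rw [map_mul, map_inv, MonoidHom.mem_ker.1 hl', inv_one, mul_one] at h2
    exact h2
  let q : M →* E :=
    { toFun := fun m => (π i m).left
      map_one' := by simp
      map_mul' := fun a b => hmulM a a.2 b b.2 }
  have hq : Surjective q := by
    intro e
    obtain ⟨l, hl, h⟩ := hmap M hM1 le_rfl ⟨x, hx, hi⟩ e
    exact ⟨⟨l, hl⟩, h⟩
  have hcompat : ∀ (d : D) (x : M), q (MulAut.conjNormal d x) = (ρ i d : MulAut E) (q x) :=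
    fun d x => hconj d x x.2
  refine hol_mem (form G) K (Formation.mem_form G) ψ hψ M q hq (ρ i) (hρ i) hcompat
    (MonoidHom.id _) (fun x => ⟨x, rfl⟩) ?_
  intro m d hm hd
  have h1 : q m = 1 := by
    change (π i m).left = 1
    rw [hK m m.2 hm]
    rfl
  have h2 : ρ i d = 1 := by
    ext e
    obtain ⟨y, rfl⟩ := hq e
    rw [← hcompat]
    have h3 : q (MulAut.conjNormal d y * y⁻¹) = 1 := by
      change (π i ((MulAut.conjNormal d y * y⁻¹ : M) : D)).left = 1
      rw [hK _ (MulAut.conjNormal d y * y⁻¹).2 (by simp [hd])]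
      rfl
    rw [map_mul, map_inv, mul_inv_eq_one] at h3
    rw [h3]
    rfl
  rw [h1, h2]
  rfl

end Pool.Agent.Helper38.Form
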