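import Pool.Agent.Helper38.Form.Defs

/-!
# Basic closure properties
-/

namespace Pool.Agent.Helper38.Form

open Function

/-- all `p`-subgroups of `G` contained in `M` are abelian -/
def AbIn (p : ℕ) {G : Type} [Group G] (M : Subgroup G) : Prop :=
  ∀ Q : Subgroup G, IsPGroup p Q → Q ≤ M → ∀ x ∈ Q, ∀ y ∈ Q, x * y = y * x

theorem isAGroup_iff {G : Type} [Group G] :
    IsAGroup G ↔ ∀ p : ℕ, p.Prime → AbIn p (⊤ : Subgroup G) := by
  constructor
  · intro h p hp Q hQ _ x hx y hy
    obtain ⟨P, hP⟩ := hQ.exists_le_sylow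
    exact h p hp P x (hP hx) y (hP hy)
  · intro h p hp P x hx y hy
    exact h p hp P P.isPGroup' le_top x hx y hy

theorem IsAGroup.ab {G : Type} [Group G] (h : IsAGroup G) {p : ℕ} (hp : p.Prime)
    {Q : Subgroup G} (hQ : IsPGroup p Q) {x y : G} (hx : x ∈ Q) (hy : y ∈ Q) : x * y = y * x :=
  isAGroup_iff.1 h p hp Q hQ le_top x hx y hy

theorem IsAGroup.of_family {ι X : Type} [Group X] {G : ι → Type} [∀ i, Group (G i)]
    (f : ∀ i, X →* G i) (hinj : ∀ x, (∀ i, f i x = 1) → x = 1) (h : ∀ i, IsAGroup (G i)) :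
    IsAGroup X := by
  rw [isAGroup_iff]
  intro p hp Q hQ _ x hx y hy
  have key : x * y * (y * x)⁻¹ = 1 := by
    apply hinj
    intro i
    have := (h i).ab hp (hQ.map (f i)) (Subgroup.mem_map_of_mem (f i) hx)
      (Subgroup.mem_map_of_mem (f i) hy)
    rw [map_mul, map_mul, map_inv, map_mul, this, mul_inv_cancel]
  exact mul_inv_eq_one.1 key

theorem IsAGroup.of_injective {X G : Type} [Group X] [Group G] (f : X →* G)
    (hf : Injective f) (h : IsAGroup G) : IsAGroup X :=
  IsAGroup.of_family (ι := Unit) (fun _ => f)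
    (fun x hx => hf (by rw [hx (), map_one])) (fun _ => h)

theorem IsAGroup.of_surjective {G H : Type} [Group G] [Finite G] [Group H] (f : G →* H)
    (hf : Surjective f) (h : IsAGroup G) : IsAGroup H := by
  intro p hp P x hx y hy
  have : Fact p.Prime := ⟨hp⟩
  obtain ⟨P', rfl⟩ := Sylow.mapSurjective_surjective hf p P
  have hx' : x ∈ P'.1.map f := hx
  have hy' : y ∈ P'.1.map f := hy
  obtain ⟨a, ha, rfl⟩ := hx'
  obtain ⟨b, hb, rfl⟩ := hy'
  rw [← map_mul, ← map_mul, h p hp P' a ha b hb]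

theorem IsAGroup.of_mulEquiv {G H : Type} [Group G] [Group H] (e : G ≃* H) (h : IsAGroup G) :
    IsAGroup H := IsAGroup.of_injective e.symm.toMonoidHom e.symm.injective h

theorem IsAGroup.of_two {X G₁ G₂ : Type} [Group X] [Group G₁] [Group G₂] (f : X →* G₁)
    (g : X →* G₂) (hinj : ∀ x, f x = 1 → g x = 1 → x = 1) (h₁ : IsAGroup G₁) (h₂ : IsAGroup G₂) :
    IsAGroup X := by
  rw [isAGroup_iff]
  intro p hp Q hQ _ x hx y hy
  have key : x * y * (y * x)⁻¹ = 1 := by
    apply hinj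
    · have := h₁.ab hp (hQ.map f) (Subgroup.mem_map_of_mem f hx) (Subgroup.mem_map_of_mem f hy)
      rw [map_mul, map_mul, map_inv, map_mul, this, mul_inv_cancel]
    · have := h₂.ab hp (hQ.map g) (Subgroup.mem_map_of_mem g hx) (Subgroup.mem_map_of_mem g hy)
      rw [map_mul, map_mul, map_inv, map_mul, this, mul_inv_cancel]
  exact mul_inv_eq_one.1 key

/-- The formation `𝔄`. -/
def aFormation : Formation where
  Mem := fun G _ _ => IsAGroup G
  nonempty := ⟨Unit, inferInstance, inferInstance, by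
    intro p hp P x _ y _; rfl⟩
  iso := fun e h => h.of_mulEquiv e
  quot := fun N _ h => h.of_surjective (QuotientGroup.mk' N) (QuotientGroup.mk'_surjective N)
  inf := by
    intro G _ _ N₁ N₂ _ _ h₁ h₂
    have le₁ : N₁ ⊓ N₂ ≤ (QuotientGroup.mk' N₁).ker := by
      rw [QuotientGroup.ker_mk']; exact inf_le_left
    have le₂ : N₁ ⊓ N₂ ≤ (QuotientGroup.mk' N₂).ker := by
      rw [QuotientGroup.ker_mk']; exact inf_le_right
    refine IsAGroup.of_two (QuotientGroup.lift (N₁ ⊓ N₂) (QuotientGroup.mk' N₁) le₁)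
      (QuotientGroup.lift (N₁ ⊓ N₂) (QuotientGroup.mk' N₂) le₂) ?_ h₁ h₂
    intro x
    induction x using QuotientGroup.induction_on with
    | H z =>
      intro hx₁ hx₂
      have h₁ : z ∈ N₁ := (QuotientGroup.eq_one_iff z).1 hx₁
      have h₂ : z ∈ N₂ := (QuotientGroup.eq_one_iff z).1 hx₂
      exact (QuotientGroup.eq_one_iff z).2 ⟨h₁, h₂⟩

theorem Formation.inA_iff (F : Formation) : F.InA ↔ F ≤ aFormation := Iff.rfl

namespace Formation

theorem mem_of_surjective (F : Formation) {G H : Type} [Group G] [Finite G] [Group H] [Finite H]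
    (f : G →* H) (hf : Surjective f) (h : F.Mem G) : F.Mem H :=
  F.iso (QuotientGroup.quotientKerEquivOfSurjective f hf) (F.quot f.ker h)

theorem mem_trivial (F : Formation) {H : Type} [Group H] [Finite H] [Subsingleton H] :
    F.Mem H := by
  obtain ⟨G, _, _, hG⟩ := F.nonempty
  exact F.mem_of_surjective (1 : G →* H) (fun x => ⟨1, Subsingleton.elim _ _⟩) hG

/-- The main tool: `X` maps onto the groups `G i ∈ F`, `b : X → Y` is onto, and the joint kernel of
the maps to the `G i` is in the kernel of `b`; then `Y ∈ F`. -/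
theorem mem_of_family (F : Formation) {ι : Type} [Finite ι] {X : Type} [Group X] [Finite X]
    {G : ι → Type} [∀ i, Group (G i)] [∀ i, Finite (G i)] (a : ∀ i, X →* G i)
    (ha : ∀ i, Surjective (a i)) (hG : ∀ i, F.Mem (G i)) {Y : Type} [Group Y] [Finite Y]
    (b : X →* Y) (hb : Surjective b) (hker : ∀ x, (∀ i, a i x = 1) → b x = 1) : F.Mem Y := by
  classical
  have := Fintype.ofFinite ι
  have key : ∀ s : Finset ι, ∃ (N : Subgroup X) (_ : N.Normal), F.Mem (X ⧸ N) ∧
      ∀ x ∈ N, ∀ i ∈ s, a i x = 1 := by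
    intro s
    induction s using Finset.induction_on with
    | empty =>
      have : Subsingleton (X ⧸ (⊤ : Subgroup X)) := QuotientGroup.subsingleton_quotient_top
      exact ⟨⊤, inferInstance, F.mem_trivial, by simp⟩
    | insert i s his ih =>
      obtain ⟨N, hN, hF, hs⟩ := ih
      refine ⟨(a i).ker ⊓ N, inferInstance, F.inf _ _ ?_ hF, ?_⟩
      · exact F.iso (QuotientGroup.quotientKerEquivOfSurjective (a i) (ha i)).symm (hG i)
      · intro x hx j hj
        rcases Finset.mem_insert.1 hj with rfl | hj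
        · exact hx.1
        · exact hs x hx.2 j hj
  obtain ⟨N, hN, hF, hs⟩ := key Finset.univ
  have hle : N ≤ b.ker := fun x hx => hker x (fun i => hs x hx i (Finset.mem_univ i))
  refine F.mem_of_surjective (QuotientGroup.lift N b hle) ?_ hF
  intro y
  obtain ⟨x, rfl⟩ := hb y
  exact ⟨QuotientGroup.mk x, rfl⟩

/-- One-target version. -/
theorem mem_of_family' (F : Formation) {ι : Type} [Finite ι] {X G : Type} [Group X] [Finite X]
    [Group G] [Finite G] (hG : F.Mem G) (a : ι → X →* G)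
    (ha : ∀ i, Surjective (a i)) {Y : Type} [Group Y] [Finite Y]
    (b : X →* Y) (hb : Surjective b) (hker : ∀ x, (∀ i, a i x = 1) → b x = 1) : F.Mem Y :=
  F.mem_of_family (G := fun _ => G) a ha (fun _ => hG) b hb hker

theorem le_antisymm' {F F' : Formation} (h : F ≤ F') (h' : F' ≤ F) : F = F' := by
  ext G _ _
  exact ⟨h G, h' G⟩

theorem form_le {F : Formation} {G : Type} [Group G] [Finite G] (h : F.Mem G) : form G ≤ F :=
  fun _ _ _ hH => hH F h

theorem mem_form (G : Type) [Group G] [Finite G] : (form G).Mem G := fun _ h => h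

end Formation

/-! ### Presentations: `form(G) = QR₀(G)` -/

/-- `H` is a quotient of a subdirect power of `G`. -/
def HasPres (G H : Type) [Group G] [Group H] : Prop :=
  ∃ (ι : Type) (_ : Finite ι) (D : Type) (_ : Group D) (_ : Finite D) (π : ι → D →* G)
    (ψ : D →* H), (∀ i, Surjective (π i)) ∧ (∀ d, (∀ i, π i d = 1) → d = 1) ∧ Surjective ψ

theorem HasPres.of_surjective {G H H' : Type} [Group G] [Group H] [Group H'] (h : HasPres G H)
    (f : H →* H') (hf : Surjective f) : HasPres G H' := by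
  obtain ⟨ι, hι, D, _, _, π, ψ, h1, h2, h3⟩ := h
  exact ⟨ι, hι, D, inferInstance, inferInstance, π, f.comp ψ, h1, h2, hf.comp h3⟩

/-- the formation of quotients of subdirect powers of `G` -/
def presFormation (G : Type) [Group G] [Finite G] : Formation where
  Mem := fun H _ _ => HasPres G H
  nonempty := ⟨G, inferInstance, inferInstance, Unit, inferInstance, G, inferInstance,
    inferInstance, fun _ => MonoidHom.id G, MonoidHom.id G, fun _ x => ⟨x, rfl⟩,
    fun d h => h (), fun x => ⟨x, rfl⟩⟩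
  iso := fun e h => h.of_surjective e.toMonoidHom e.surjective
  quot := fun N _ h => h.of_surjective (QuotientGroup.mk' N) (QuotientGroup.mk'_surjective N)
  inf := by
    intro X _ _ N₁ N₂ _ _ h₁ h₂
    have le₁ : N₁ ⊓ N₂ ≤ (QuotientGroup.mk' N₁).ker := by
      rw [QuotientGroup.ker_mk']; exact inf_le_left
    have le₂ : N₁ ⊓ N₂ ≤ (QuotientGroup.mk' N₂).ker := by
      rw [QuotientGroup.ker_mk']; exact inf_le_right
    let q₁ : X ⧸ (N₁ ⊓ N₂) →* X ⧸ N₁ := QuotientGroup.lift (N₁ ⊓ N₂) (QuotientGroup.mk' N₁) le₁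
    let q₂ : X ⧸ (N₁ ⊓ N₂) →* X ⧸ N₂ := QuotientGroup.lift (N₁ ⊓ N₂) (QuotientGroup.mk' N₂) le₂
    have hq₁ : Surjective q₁ := by
      intro y
      obtain ⟨x, rfl⟩ := QuotientGroup.mk_surjective y
      exact ⟨QuotientGroup.mk x, rfl⟩
    have hq₂ : Surjective q₂ := by
      intro y
      obtain ⟨x, rfl⟩ := QuotientGroup.mk_surjective y
      exact ⟨QuotientGroup.mk x, rfl⟩
    have hq : ∀ x, q₁ x = 1 → q₂ x = 1 → x = 1 := by
      intro x
      induction x using QuotientGroup.induction_on with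
      | H z =>
        intro hx₁ hx₂
        have h₁ : z ∈ N₁ := (QuotientGroup.eq_one_iff z).1 hx₁
        have h₂ : z ∈ N₂ := (QuotientGroup.eq_one_iff z).1 hx₂
        exact (QuotientGroup.eq_one_iff z).2 ⟨h₁, h₂⟩
    obtain ⟨ι₁, _, D₁, _, _, π₁, ψ₁, a₁, b₁, c₁⟩ := h₁
    obtain ⟨ι₂, _, D₂, _, _, π₂, ψ₂, a₂, b₂, c₂⟩ := h₂
    let D : Subgroup (D₁ × D₂ × (X ⧸ (N₁ ⊓ N₂))) :=
      { carrier := {d | ψ₁ d.1 = q₁ d.2.2 ∧ ψ₂ d.2.1 = q₂ d.2.2}
        mul_mem' := by
          rintro a b ⟨ha, ha'⟩ ⟨hb, hb'⟩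
          exact ⟨by simp [ha, hb], by simp [ha', hb']⟩
        one_mem' := by simp
        inv_mem' := by
          rintro a ⟨ha, ha'⟩
          exact ⟨by simp [ha], by simp [ha']⟩ }
    let p₁ : D →* D₁ := (MonoidHom.fst _ _).comp D.subtype
    let p₂ : D →* D₂ := ((MonoidHom.fst _ _).comp (MonoidHom.snd _ _)).comp D.subtype
    let p₃ : D →* X ⧸ (N₁ ⊓ N₂) := ((MonoidHom.snd _ _).comp (MonoidHom.snd _ _)).comp D.subtype
    have hp₁ : Surjective p₁ := by
      intro d
      obtain ⟨x, hx⟩ := hq₁ (ψ₁ d)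
      obtain ⟨e, he⟩ := c₂ (q₂ x)
      exact ⟨⟨(d, e, x), hx.symm, he⟩, rfl⟩
    have hp₂ : Surjective p₂ := by
      intro d
      obtain ⟨x, hx⟩ := hq₂ (ψ₂ d)
      obtain ⟨e, he⟩ := c₁ (q₁ x)
      exact ⟨⟨(e, d, x), he, hx.symm⟩, rfl⟩
    have hp₃ : Surjective p₃ := by
      intro x
      obtain ⟨d, hd⟩ := c₁ (q₁ x)
      obtain ⟨e, he⟩ := c₂ (q₂ x)
      exact ⟨⟨(d, e, x), hd, he⟩, rfl⟩
    refine ⟨ι₁ ⊕ ι₂, inferInstance, D, inferInstance, inferInstance,
      Sum.elim (fun i => (π₁ i).comp p₁) (fun i => (π₂ i).comp p₂), p₃, ?_, ?_, hp₃⟩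
    · rintro (i | i)
      · exact (a₁ i).comp hp₁
      · exact (a₂ i).comp hp₂
    · rintro ⟨⟨d, e, x⟩, hd, he⟩ h
      have hd1 : d = 1 := b₁ d (fun i => h (Sum.inl i))
      have he1 : e = 1 := b₂ e (fun i => h (Sum.inr i))
      subst hd1 he1
      have hx : x = 1 := hq x (by simpa using hd.symm) (by simpa using he.symm)
      subst hx
      rfl

theorem hasPres_of_mem_form {G H : Type} [Group G] [Finite G] [Group H] [Finite H]
    (h : (form G).Mem H) : HasPres G H :=
  h (presFormation G) ⟨Unit, inferInstance, G, inferInstance,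
    inferInstance, fun _ => MonoidHom.id G, MonoidHom.id G, fun _ x => ⟨x, rfl⟩,
    fun _ h => h (), fun x => ⟨x, rfl⟩⟩

end Pool.Agent.Helper38.Form
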