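import Pool.Agent.Helper38.Form.SubQuot

/-!
# Canonicalisation of type III: symmetries and the covering form
-/

namespace Pool.Agent.Helper38.Form

open Function

set_option linter.unusedSectionVars false

section

variable {H V W Z : Type} [Group H] [AddCommGroup V] [AddCommGroup W] [AddCommGroup Z]
  [DistribMulAction H V] [DistribMulAction H W] {β : V →+ W →+ Z}

theorem altForm_add_left (β : V →+ W →+ Z) (x x' y : V × W) :
    altForm β (x + x') y = altForm β x y + altForm β x' y := by
  simp only [altForm, Prod.fst_add, Prod.snd_add, map_add, AddMonoidHom.add_apply]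
  abel

theorem altForm_add_right (β : V →+ W →+ Z) (x y y' : V × W) :
    altForm β x (y + y') = altForm β x y + altForm β x y' := by
  simp only [altForm, Prod.fst_add, Prod.snd_add, map_add, AddMonoidHom.add_apply]
  abel

theorem altForm_swap (β : V →+ W →+ Z) (x y : V × W) : altForm β x y = - altForm β y x := by
  simp only [altForm]
  abel

theorem altForm_smul [DistribMulAction H Z] (hβ : ∀ (h : H) (v : V) (w : W), β (h • v) (h • w) = h • β v w) (h : H)
    (x y : V × W) : altForm β (h • x) (h • y) = h • altForm β x y := by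
  simp only [altForm, Prod.smul_fst, Prod.smul_snd, hβ, smul_sub]

theorem altForm_tau {τ : (V × W) ≃+ (V × W)} (hiso : Iso β τ) (x y : V × W) :
    altForm β (τ x) (τ y) =
      altForm β (τ (x.1, 0)) (τ (0, y.2)) - altForm β (τ (y.1, 0)) (τ (0, x.2)) := by
  obtain ⟨v, w⟩ := x
  obtain ⟨v', w'⟩ := y
  rw [split_pair τ v w, split_pair τ v' w', altForm_add_left, altForm_add_right,
    altForm_add_right]
  have h1 : altForm β (τ (v, 0)) (τ (v', 0)) = 0 := by
    rw [altForm, hiso.h1, hiso.h1, sub_zero]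
  have h2 : altForm β (τ (0, w)) (τ (0, w')) = 0 := by
    rw [altForm, hiso.h2, hiso.h2, sub_zero]
  rw [h1, h2, altForm_swap β (τ (0, w)) (τ (v', 0))]
  abel

theorem IsSymmetry.refl : IsSymmetry H (AddEquiv.refl (V × W)) :=
  ⟨Or.inl ⟨fun _ => rfl, fun _ => rfl⟩, fun h => ⟨h, fun _ => rfl⟩⟩

theorem IsSymmetry.trans {σ τ : (V × W) ≃+ (V × W)} (hσ : IsSymmetry H σ)
    (hτ : IsSymmetry H τ) : IsSymmetry H (σ.trans τ) := by
  have pv : ∀ x : V × W, x.2 = 0 → x = (x.1, 0) := fun x hx => Prod.ext rfl hx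
  have pw : ∀ x : V × W, x.1 = 0 → x = (0, x.2) := fun x hx => Prod.ext hx rfl
  refine ⟨?_, ?_⟩
  · rcases hσ.1 with ⟨a, b⟩ | ⟨a, b⟩ <;> rcases hτ.1 with ⟨c, d⟩ | ⟨c, d⟩
    · left
      refine ⟨fun v => ?_, fun w => ?_⟩
      · rw [AddEquiv.trans_apply, pv _ (a v), c]
      · rw [AddEquiv.trans_apply, pw _ (b w), d]
    · right
      refine ⟨fun v => ?_, fun w => ?_⟩
      · rw [AddEquiv.trans_apply, pv _ (a v), c]
      · rw [AddEquiv.trans_apply, pw _ (b w), d]
    · right
      refine ⟨fun v => ?_, fun w => ?_⟩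
      · rw [AddEquiv.trans_apply, pw _ (a v), d]
      · rw [AddEquiv.trans_apply, pv _ (b w), c]
    · left
      refine ⟨fun v => ?_, fun w => ?_⟩
      · rw [AddEquiv.trans_apply, pw _ (a v), d]
      · rw [AddEquiv.trans_apply, pv _ (b w), c]
  · intro h
    obtain ⟨h', hh'⟩ := hσ.2 h
    obtain ⟨h'', hh''⟩ := hτ.2 h'
    exact ⟨h'', fun x => by rw [AddEquiv.trans_apply, hh', hh'', AddEquiv.trans_apply]⟩

/-- the symmetry `x ↦ h • x` -/
def smulSymm (V W : Type) [AddCommGroup V] [AddCommGroup W] [DistribMulAction H V]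
    [DistribMulAction H W] (h : H) : (V × W) ≃+ (V × W) :=
  DistribMulAction.toAddEquiv (V × W) h

theorem smulSymm_apply (h : H) (x : V × W) : smulSymm V W h x = h • x := rfl

theorem smulSymm_isSymmetry (h : H) : IsSymmetry H (smulSymm V W h) := by
  refine ⟨Or.inl ⟨fun v => ?_, fun w => ?_⟩, fun g => ⟨h * g * h⁻¹, fun x => ?_⟩⟩
  · rw [smulSymm_apply, Prod.smul_snd, smul_zero]
  · rw [smulSymm_apply, Prod.smul_fst, smul_zero]
  · rw [smulSymm_apply, smulSymm_apply, smul_smul, smul_smul, inv_mul_cancel_right]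

/-- The data of the covering form. -/
structure Cover3 (H : Type) {V W Z : Type} [Group H] [AddCommGroup V] [AddCommGroup W]
    [AddCommGroup Z] [DistribMulAction H V] [DistribMulAction H W] (β : V →+ W →+ Z)
    (Zh : Type) [AddCommGroup Zh] where
  /-- the form -/
  βh : V →+ W →+ Zh
  /-- the action of the symmetries -/
  act : ∀ τ : (V × W) ≃+ (V × W), IsSymmetry H τ → (Zh →+ Zh)
  /-- the maps to `Z` -/
  ev : ∀ τ : (V × W) ≃+ (V × W), IsSymmetry H τ → (Zh →+ Z)
  act_spec : ∀ τ hτ x y, act τ hτ (altForm βh x y) = altForm βh (τ x) (τ y)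
  ev_spec : ∀ τ hτ x y, ev τ hτ (altForm βh x y) = altForm β (τ x) (τ y)
  inj : ∀ z, (∀ τ hτ, ev τ hτ z = 0) → z = 0
  gen : AddSubgroup.closure {z | ∃ v w, z = βh v w} = ⊤

/-- the set of symmetries -/
abbrev Sym (H V W : Type) [Group H] [AddCommGroup V] [AddCommGroup W]
    [DistribMulAction H V] [DistribMulAction H W] : Type :=
  {τ : (V × W) ≃+ (V × W) // IsSymmetry H τ}

/-- the value family -/
def fam (H : Type) [Group H] [DistribMulAction H V] [DistribMulAction H W] (β : V →+ W →+ Z)
    (x y : V × W) : Sym H V W → Z := fun τ => altForm β (τ.1 x) (τ.1 y)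

theorem fam_eq (x y : V × W) :
    fam H β x y = fam H β (x.1, 0) (0, y.2) - fam H β (y.1, 0) (0, x.2) := by
  funext τ
  exact altForm_tau (τ.2.iso β) x y

/-- the covering centre -/
def Zhat (H : Type) [Group H] [DistribMulAction H V] [DistribMulAction H W] (β : V →+ W →+ Z) :
    AddSubgroup (Sym H V W → Z) :=
  AddSubgroup.closure {f | ∃ v w, f = fam H β (v, 0) (0, w)}

theorem fam_mem (x y : V × W) : fam H β x y ∈ Zhat H β := by
  rw [fam_eq]
  exact sub_mem (AddSubgroup.subset_closure ⟨_, _, rfl⟩) (AddSubgroup.subset_closure ⟨_, _, rfl⟩)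

theorem fam_add_left (x x' y : V × W) : fam H β (x + x') y = fam H β x y + fam H β x' y := by
  funext τ
  change altForm β (τ.1 (x + x')) (τ.1 y) = _
  rw [map_add, altForm_add_left]
  rfl

theorem fam_add_right (x y y' : V × W) : fam H β x (y + y') = fam H β x y + fam H β x y' := by
  funext τ
  change altForm β (τ.1 x) (τ.1 (y + y')) = _
  rw [map_add, altForm_add_right]
  rfl

/-- precomposition with a symmetry -/
def pre (Z : Type) [AddCommGroup Z] (δ : Sym H V W) : (Sym H V W → Z) →+ (Sym H V W → Z) where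
  toFun f := fun τ => f ⟨δ.1.trans τ.1, δ.2.trans τ.2⟩
  map_zero' := rfl
  map_add' _ _ := rfl

theorem pre_fam (δ : Sym H V W) (x y : V × W) :
    pre Z δ (fam H β x y) = fam H β (δ.1 x) (δ.1 y) := rfl

theorem pre_mem (δ : Sym H V W) {f : Sym H V W → Z} (hf : f ∈ Zhat H β) :
    pre Z δ f ∈ Zhat H β := by
  have h : Zhat H β ≤ (Zhat H β).comap (pre Z δ) := by
    rw [Zhat, AddSubgroup.closure_le]
    rintro _ ⟨v, w, rfl⟩
    change pre Z δ _ ∈ Zhat H β
    rw [pre_fam]
    exact fam_mem _ _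
  exact h hf

/-- the covering form exists -/
noncomputable def cover3 (H : Type) [Group H] [DistribMulAction H V] [DistribMulAction H W]
    (β : V →+ W →+ Z) : Cover3 H β (Zhat H β) where
  βh := AddMonoidHom.mk' (fun v => AddMonoidHom.mk'
      (fun w => (⟨fam H β (v, 0) (0, w), fam_mem _ _⟩ : Zhat H β))
      (by
        intro w w'
        apply Subtype.ext
        change fam H β (v, 0) (0, w + w') = fam H β (v, 0) (0, w) + fam H β (v, 0) (0, w')
        rw [← fam_add_right]
        simp))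
      (by
        intro v v'
        ext1 w
        apply Subtype.ext
        change fam H β (v + v', 0) (0, w) = fam H β (v, 0) (0, w) + fam H β (v', 0) (0, w)
        rw [← fam_add_left]
        simp)
  act := fun τ hτ =>
    { toFun := fun z => ⟨pre Z ⟨τ, hτ⟩ z, pre_mem ⟨τ, hτ⟩ z.2⟩
      map_zero' := rfl
      map_add' := fun _ _ => rfl }
  ev := fun τ hτ =>
    { toFun := fun z => (z : Sym H V W → Z) ⟨τ, hτ⟩
      map_zero' := rfl
      map_add' := fun _ _ => rfl }
  act_spec := by
    intro τ hτ x y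
    apply Subtype.ext
    change pre Z ⟨τ, hτ⟩ (fam H β (x.1, 0) (0, y.2) - fam H β (y.1, 0) (0, x.2)) =
      fam H β ((τ x).1, 0) (0, (τ y).2) - fam H β ((τ y).1, 0) (0, (τ x).2)
    rw [← fam_eq, ← fam_eq]
    rfl
  ev_spec := by
    intro τ hτ x y
    change (fam H β (x.1, 0) (0, y.2) - fam H β (y.1, 0) (0, x.2)) ⟨τ, hτ⟩ = _
    rw [← fam_eq]
    rfl
  inj := by
    intro z hz
    apply Subtype.ext
    funext τ
    exact hz τ.1 τ.2
  gen := by
    rw [eq_top_iff]
    rintro ⟨f, hf⟩ -
    unfold Zhat at hf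
    induction hf using AddSubgroup.closure_induction with
    | mem f hf =>
      obtain ⟨v, w, rfl⟩ := hf
      exact AddSubgroup.subset_closure ⟨v, w, rfl⟩
    | zero => exact zero_mem _
    | add a b ha hb h1 h2 => exact add_mem h1 h2
    | neg a ha h1 => exact neg_mem h1

end

end Pool.Agent.Helper38.Form
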