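import Pool.Agent.Helper38.Form.Tools

/-!
# Interface: the non-canonical types III' and IV'
-/

namespace Pool.Agent.Helper38.Form

open Function

/-- Type III' (not yet canonical). -/
def IsTypeIII' (p : ℕ) {H V W Z : Type} [Group H] [AddCommGroup V] [AddCommGroup W]
    [AddCommGroup Z] [DistribMulAction H V] [DistribMulAction H W]
    (β : V →+ W →+ Z) : Prop :=
  p.Prime ∧ IsAGroup H ∧ ¬ p ∣ Nat.card H ∧
    (∀ v : V, p • v = 0) ∧ (∀ w : W, p • w = 0) ∧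
    IrredAction H V ∧ IrredAction H W ∧
    (∀ h : H, (∀ v : V, h • v = v) → (∀ w : W, h • w = w) → h = 1) ∧
    (∃ v w, β v w ≠ 0)

/-- Type IV' (not yet canonical). -/
def IsTypeIV' (p : ℕ) (E : Type) [Group E] (K : Subgroup (MulAut E)) : Prop :=
  p.Prime ∧ commutator E = ⊤ ∧ (∀ e : E, MulAut.conj e ∈ K) ∧ IsAGroup K ∧
    (∀ S : Subgroup E, (∀ k ∈ K, ∀ x ∈ S, k x ∈ S) → S ≤ Subgroup.center E ∨ S = ⊤) ∧
    Subgroup.center E ≠ ⊥ ∧ IsPGroup p (Subgroup.center E) ∧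
    (∀ k ∈ K, (∃ m : ℕ, k ^ p ^ m = 1) → ∀ z ∈ Subgroup.center E, k z = z)

/-- Statement C-III. -/
def StatementCIII : Prop :=
  ∀ (F : Formation) (p : ℕ) (H V W Z : Type) [Group H] [Finite H] [AddCommGroup V] [Finite V]
    [AddCommGroup W] [Finite W] [AddCommGroup Z] [Finite Z] [DistribMulAction H V]
    [DistribMulAction H W] [DistribMulAction H Z] (β : V →+ W →+ Z)
    (hβ : ∀ (h : H) (v : V) (w : W), β (h • v) (h • w) = h • β v w),
    IsTypeIII' p (H := H) β → F.Mem (Heis β ⋊[heisAct β hβ] H) →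
    ∃ (Z₁ : Type) (_ : AddCommGroup Z₁) (_ : Finite Z₁) (_ : DistribMulAction H Z₁)
      (β₁ : V →+ W →+ Z₁)
      (hβ₁ : ∀ (h : H) (v : V) (w : W), β₁ (h • v) (h • w) = h • β₁ v w),
      IsTypeIII p (H := H) β₁ ∧ F.Mem (Heis β₁ ⋊[heisAct β₁ hβ₁] H)

/-- Statement B-III. -/
def StatementBIII : Prop :=
  ∀ (p : ℕ) (H V W Z : Type) [Group H] [Finite H] [AddCommGroup V] [Finite V]
    [AddCommGroup W] [Finite W] [AddCommGroup Z] [Finite Z] [DistribMulAction H V]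
    [DistribMulAction H W] [DistribMulAction H Z] (β : V →+ W →+ Z)
    (hβ : ∀ (h : H) (v : V) (w : W), β (h • v) (h • w) = h • β v w),
    IsTypeIII p (H := H) β →
    ∀ (G : Type) [Group G] [Finite G], (form (Heis β ⋊[heisAct β hβ] H)).Mem G →
      ¬ IsAGroup G → (form G).Mem (Heis β ⋊[heisAct β hβ] H)

/-- Statement C-IV. -/
def StatementCIV : Prop :=
  ∀ (F : Formation) (p : ℕ) (E : Type) [Group E] [Finite E] (K : Subgroup (MulAut E)),
    IsTypeIV' p E K → F.Mem (Hol E K) →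
    ∃ (E₁ : Type) (_ : Group E₁) (_ : Finite E₁) (K₁ : Subgroup (MulAut E₁)),
      IsTypeIV E₁ K₁ ∧ F.Mem (Hol E₁ K₁)

/-- Statement B-IV. -/
def StatementBIV : Prop :=
  ∀ (E : Type) [Group E] [Finite E] (K : Subgroup (MulAut E)), IsTypeIV E K →
    ∀ (G : Type) [Group G] [Finite G], (form (Hol E K)).Mem G →
      ¬ IsAGroup G → (form G).Mem (Hol E K)

end Pool.Agent.Helper38.Form
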