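import Pool.Agent.Helper38.Form.CIIIa
import Pool.Agent.Helper38.Form.Iface

/-!
# Canonicalisation of type III
-/

namespace Pool.Agent.Helper38.Form

open Function

set_option linter.unusedSectionVars false

theorem exists_max_addSubgroup {D : Type} [AddGroup D] [Finite D] (P : AddSubgroup D → Prop)
    (h : ∃ M, P M) : ∃ M, P M ∧ ∀ L, P L → M ≤ L → L = M := by
  obtain ⟨M, hM⟩ := (Set.toFinite {M | P M}).exists_maximal h
  exact ⟨M, hM.1, fun L hL hle => le_antisymm (hM.2 hL hle) hle⟩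

/-- the action on an invariant subgroup -/
@[reducible] def subDMA {H Z : Type} [Group H] [AddCommGroup Z] [DistribMulAction H Z]
    (Z₀ : AddSubgroup Z) (h : ∀ g : H, ∀ z ∈ Z₀, g • z ∈ Z₀) : DistribMulAction H Z₀ where
  smul g z := ⟨g • (z : Z), h g z z.2⟩
  one_smul z := Subtype.ext (one_smul H (z : Z))
  mul_smul a b z := Subtype.ext (mul_smul a b (z : Z))
  smul_zero a := Subtype.ext (smul_zero a)
  smul_add a x y := Subtype.ext (smul_add a (x : Z) (y : Z))

/-- the action on a quotient by an invariant subgroup -/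
@[reducible] def quotDMA {H Z : Type} [Group H] [AddCommGroup Z] [DistribMulAction H Z]
    (Z₂ : AddSubgroup Z) (h : ∀ g : H, ∀ z ∈ Z₂, g • z ∈ Z₂) : DistribMulAction H (Z ⧸ Z₂) where
  smul g z := QuotientAddGroup.map Z₂ Z₂ (DistribSMul.toAddMonoidHom Z g)
    (fun z hz => h g z hz) z
  one_smul z := by
    induction z using QuotientAddGroup.induction_on with
    | H z =>
      change (((1 : H) • z : Z) : Z ⧸ Z₂) = z
      rw [one_smul]
  mul_smul a b z := by
    induction z using QuotientAddGroup.induction_on with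
    | H z =>
      change (((a * b) • z : Z) : Z ⧸ Z₂) = ((a • b • z : Z) : Z ⧸ Z₂)
      rw [mul_smul]
  smul_zero a := map_zero _
  smul_add a x y := map_add _ _ _

section

variable {H V W Z Zh : Type} [Group H] [AddCommGroup V] [AddCommGroup W] [AddCommGroup Z]
  [AddCommGroup Zh] [DistribMulAction H V] [DistribMulAction H W] {β : V →+ W →+ Z}

namespace Cover3

variable (c : Cover3 H β Zh)

include c

theorem uniq {A : Type} [AddCommGroup A] (f g : Zh →+ A)
    (h : ∀ x y, f (altForm c.βh x y) = g (altForm c.βh x y)) : f = g := by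
  apply AddMonoidHom.eq_of_eqOn_dense c.gen
  rintro _ ⟨v, w, rfl⟩
  rw [← altForm_vw]
  exact h _ _

/-- the action of `H` on the covering centre -/
@[reducible] def zAct : DistribMulAction H Zh where
  smul h z := c.act (smulSymm V W h) (smulSymm_isSymmetry h) z
  one_smul z := by
    have : c.act (smulSymm V W (1 : H)) (smulSymm_isSymmetry 1) = AddMonoidHom.id Zh :=
      c.uniq _ _ (fun x y => by
        rw [c.act_spec, smulSymm_apply, smulSymm_apply, one_smul, one_smul]; rfl)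
    exact DFunLike.congr_fun this z
  mul_smul a b z := by
    have : c.act (smulSymm V W (a * b)) (smulSymm_isSymmetry (a * b)) =
        (c.act (smulSymm V W a) (smulSymm_isSymmetry a)).comp
          (c.act (smulSymm V W b) (smulSymm_isSymmetry b)) :=
      c.uniq _ _ (fun x y => by
        rw [c.act_spec, AddMonoidHom.comp_apply, c.act_spec, c.act_spec]
        simp only [smulSymm_apply, mul_smul])
    exact DFunLike.congr_fun this z
  smul_zero a := map_zero _
  smul_add a x y := map_add _ _ _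

theorem act_surj (τ : (V × W) ≃+ (V × W)) (hτ : IsSymmetry H τ) :
    Surjective (c.act τ hτ) := by
  rw [← AddMonoidHom.range_eq_top, eq_top_iff, ← c.gen, AddSubgroup.closure_le]
  rintro _ ⟨v, w, rfl⟩
  obtain ⟨x, hx⟩ := τ.surjective (v, 0)
  obtain ⟨y, hy⟩ := τ.surjective (0, w)
  exact ⟨altForm c.βh x y, by rw [c.act_spec, hx, hy, altForm_vw]⟩

theorem ev_surj (hgen : AddSubgroup.closure {z : Z | ∃ v w, z = β v w} = ⊤)
    (τ : (V × W) ≃+ (V × W)) (hτ : IsSymmetry H τ) : Surjective (c.ev τ hτ) := by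
  rw [← AddMonoidHom.range_eq_top, eq_top_iff, ← hgen, AddSubgroup.closure_le]
  rintro _ ⟨v, w, rfl⟩
  obtain ⟨x, hx⟩ := τ.surjective (v, 0)
  obtain ⟨y, hy⟩ := τ.surjective (0, w)
  exact ⟨altForm c.βh x y, by rw [c.ev_spec, hx, hy, altForm_vw]⟩

end Cover3

end

theorem cIII_gen (F : Formation) (p : ℕ) (H V W Z : Type) [Group H] [Finite H] [AddCommGroup V]
    [Finite V] [AddCommGroup W] [Finite W] [AddCommGroup Z] [Finite Z] [DistribMulAction H V]
    [DistribMulAction H W] [DistribMulAction H Z] (β : V →+ W →+ Z)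
    (hβ : ∀ (h : H) (v : V) (w : W), β (h • v) (h • w) = h • β v w)
    (hp : IsTypeIII' p (H := H) β) (hF : F.Mem (Heis β ⋊[heisAct β hβ] H))
    (hgen : AddSubgroup.closure {z : Z | ∃ v w, z = β v w} = ⊤) :
    ∃ (Z₁ : Type) (_ : AddCommGroup Z₁) (_ : Finite Z₁) (_ : DistribMulAction H Z₁)
      (β₁ : V →+ W →+ Z₁)
      (hβ₁ : ∀ (h : H) (v : V) (w : W), β₁ (h • v) (h • w) = h • β₁ v w),
      IsTypeIII p (H := H) β₁ ∧ F.Mem (Heis β₁ ⋊[heisAct β₁ hβ₁] H) := by
  obtain ⟨hpp, hA, hcop, hpV, hpW, hiV, hiW, hfaith, v₀, w₀, hne⟩ := hp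
  have hfinT : Finite ((V × W) ≃+ (V × W)) := DFunLike.finite _
  let Zh := Zhat H β
  let c : Cover3 H β Zh := cover3 H β
  have hfin : Finite Zh := inferInstance
  let dma : DistribMulAction H Zh := c.zAct
  have dma_def : ∀ (h : H) (z : Zh), h • z = c.act (smulSymm V W h) (smulSymm_isSymmetry h) z :=
    fun _ _ => rfl
  have hβh : ∀ (h : H) (v : V) (w : W), c.βh (h • v) (h • w) = h • c.βh v w := by
    intro h v w
    have e0 := c.act_spec (smulSymm V W h) (smulSymm_isSymmetry h) (v, 0) (0, w)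
    rw [smulSymm_apply, smulSymm_apply] at e0
    have e1 : h • (v, (0 : W)) = (h • v, 0) := by
      rw [Prod.smul_mk, smul_zero]
    have e2 : h • ((0 : V), w) = (0, h • w) := by
      rw [Prod.smul_mk, smul_zero]
    rw [e1, e2, altForm_vw, altForm_vw] at e0
    exact e0.symm
  have hne' : (⊥ : AddSubgroup Zh) ≠ ⊤ := by
    intro hbt
    apply hne
    have h1 : c.βh v₀ w₀ ∈ (⊥ : AddSubgroup Zh) := by rw [hbt]; trivial
    have h2 : c.βh v₀ w₀ = 0 := h1
    have h3 := c.ev_spec (AddEquiv.refl _) IsSymmetry.refl (v₀, 0) (0, w₀)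
    rw [altForm_vw, h2, map_zero] at h3
    rw [← altForm_vw β]
    exact h3.symm
  obtain ⟨Z₂, ⟨hZne, hZinv⟩, hmax⟩ := exists_max_addSubgroup
    (fun S : AddSubgroup Zh => S ≠ ⊤ ∧
      ∀ (τ : (V × W) ≃+ (V × W)) (hτ : IsSymmetry H τ), ∀ z ∈ S, c.act τ hτ z ∈ S)
    ⟨⊥, hne', by
      intro τ hτ z hz
      have hz' : z = 0 := hz
      rw [hz', map_zero]
      exact zero_mem _⟩
  have hinvH : ∀ h : H, ∀ z ∈ Z₂, h • z ∈ Z₂ := fun h z hz =>
    hZinv (smulSymm V W h) (smulSymm_isSymmetry h) z hz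
  let dma2 : DistribMulAction H (Zh ⧸ Z₂) := quotDMA Z₂ hinvH
  have dma2_def : ∀ (h : H) (z : Zh), h • (z : Zh ⧸ Z₂) = ((h • z : Zh) : Zh ⧸ Z₂) :=
    fun _ _ => rfl
  let mk : Zh →+ Zh ⧸ Z₂ := QuotientAddGroup.mk' Z₂
  have hmk : Surjective mk := QuotientAddGroup.mk'_surjective Z₂
  let β₁ : V →+ W →+ (Zh ⧸ Z₂) :=
    AddMonoidHom.mk' (fun v => mk.comp (c.βh v)) (by
      intro v v'
      rw [map_add]
      ext1 w
      simp)
  have β₁_def : ∀ v w, β₁ v w = mk (c.βh v w) := fun _ _ => rfl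
  have β₁_alt : ∀ x y, altForm β₁ x y = mk (altForm c.βh x y) := by
    intro x y
    simp only [altForm, β₁_def, map_sub]
  have hβ₁ : ∀ (h : H) (v : V) (w : W), β₁ (h • v) (h • w) = h • β₁ v w := by
    intro h v w
    rw [β₁_def, β₁_def, hβh]
    exact (dma2_def h _).symm
  have hgen₁ : AddSubgroup.closure {z : Zh ⧸ Z₂ | ∃ v w, z = β₁ v w} = ⊤ := by
    rw [eq_top_iff]
    have h1 : (⊤ : AddSubgroup Zh) ≤
        (AddSubgroup.closure {z : Zh ⧸ Z₂ | ∃ v w, z = β₁ v w}).comap mk := by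
      rw [← c.gen, AddSubgroup.closure_le]
      rintro _ ⟨v, w, rfl⟩
      exact AddSubgroup.subset_closure ⟨v, w, rfl⟩
    intro z _
    obtain ⟨z, rfl⟩ := hmk z
    exact h1 trivial
  -- induced automorphisms
  have hind : ∀ (τ : (V × W) ≃+ (V × W)) (hτ : IsSymmetry H τ), ∃ e : (Zh ⧸ Z₂) ≃+ (Zh ⧸ Z₂),
      Induces β₁ τ e ∧ ∀ z : Zh, e (mk z) = mk (c.act τ hτ z) := by
    intro τ hτ
    let g : (Zh ⧸ Z₂) →+ (Zh ⧸ Z₂) := QuotientAddGroup.map Z₂ Z₂ (c.act τ hτ)
      (fun z hz => hZinv τ hτ z hz)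
    have hg : ∀ z : Zh, g (mk z) = mk (c.act τ hτ z) := fun _ => rfl
    have hgs : Surjective g := by
      intro z
      obtain ⟨z, rfl⟩ := hmk z
      obtain ⟨y, rfl⟩ := c.act_surj τ hτ z
      exact ⟨mk y, hg y⟩
    refine ⟨AddEquiv.ofBijective g ⟨Finite.injective_iff_surjective.2 hgs, hgs⟩, ?_, hg⟩
    intro x y
    rw [β₁_alt, β₁_alt, ← c.act_spec τ hτ]
    exact (hg _).symm
  refine ⟨Zh ⧸ Z₂, inferInstance, inferInstance, dma2, β₁, hβ₁, ?_, ?_⟩
  · refine ⟨hpp, hA, hcop, hpV, hpW, hiV, hiW, hfaith, ?_, hgen₁, ?_, ?_⟩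
    · by_contra hsub
      rw [not_nontrivial_iff_subsingleton] at hsub
      apply hZne
      rw [eq_top_iff]
      intro z _
      exact (QuotientAddGroup.eq_zero_iff z).1 (Subsingleton.elim _ _)
    · intro τ hτ
      obtain ⟨e, he, -⟩ := hind τ hτ
      exact ⟨e, he⟩
    · intro S hS
      by_cases hSt : S = ⊤
      · right; exact hSt
      · left
        have h1 : S.comap mk = Z₂ := by
          apply hmax
          · refine ⟨?_, ?_⟩
            · intro h
              apply hSt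
              rw [eq_top_iff]
              intro z _
              obtain ⟨z, rfl⟩ := hmk z
              have : z ∈ S.comap mk := by rw [h]; trivial
              exact this
            · intro τ hτ z hz
              obtain ⟨e, he, he'⟩ := hind τ hτ
              have h2 := hS τ hτ e he (mk z) hz
              rw [he'] at h2
              exact h2
          · intro z hz
            change mk z ∈ S
            have h3 : mk z = 0 := (QuotientAddGroup.eq_zero_iff z).2 hz
            rw [h3]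
            exact zero_mem _
        rw [eq_bot_iff]
        intro z hz
        obtain ⟨z, rfl⟩ := hmk z
        have h2 : z ∈ S.comap mk := hz
        rw [h1] at h2
        exact (QuotientAddGroup.eq_zero_iff z).2 h2
  · -- membership
    have hf : ∀ (τ : (V × W) ≃+ (V × W)), IsSymmetry H τ →
        ∃ f : H →* H, Surjective f ∧ Injective f ∧ ∀ h x, τ (h • x) = f h • τ x :=
      fun τ hτ => exists_f hfaith hτ.2
    choose f hfs hfi hf' using hf
    have hevH : ∀ (τ : (V × W) ≃+ (V × W)) (hτ : IsSymmetry H τ) (h : H) (z : Zh),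
        c.ev τ hτ (h • z) = f τ hτ h • c.ev τ hτ z := by
      intro τ hτ h z
      have h1 : (c.ev τ hτ).comp (c.act (smulSymm V W h) (smulSymm_isSymmetry h)) =
          (DistribSMul.toAddMonoidHom Z (f τ hτ h)).comp (c.ev τ hτ) := by
        apply c.uniq
        intro x y
        rw [AddMonoidHom.comp_apply, AddMonoidHom.comp_apply, c.act_spec, c.ev_spec, c.ev_spec,
          smulSymm_apply, smulSymm_apply, hf' τ hτ, hf' τ hτ, altForm_smul hβ]
        rfl
      exact DFunLike.congr_fun h1 z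
    have hevc : ∀ (τ : (V × W) ≃+ (V × W)) (hτ : IsSymmetry H τ) (v : V) (w : W),
        altForm β (τ (v, 0)) (τ (0, w)) = c.ev τ hτ (c.βh v w) := by
      intro τ hτ v w
      rw [← altForm_vw, c.ev_spec]
    let a : Sym H V W → (Heis c.βh ⋊[heisAct c.βh hβh] H) →* (Heis β ⋊[heisAct β hβ] H) :=
      fun τ => theta hβh hβ τ.1 (τ.2.iso β) (c.ev τ.1 τ.2) (hevc τ.1 τ.2) (f τ.1 τ.2)
        (hf' τ.1 τ.2) (hevH τ.1 τ.2)
    let b : (Heis c.βh ⋊[heisAct c.βh hβh] H) →* (Heis β₁ ⋊[heisAct β₁ hβ₁] H) :=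
      theta hβh hβ₁ (AddEquiv.refl _) (IsSymmetry.refl (H := H) |>.iso β₁) mk
        (fun v w => by rw [← β₁_def, ← altForm_vw]; rfl) (MonoidHom.id H) (fun h x => rfl)
        (fun h z => rfl)
    refine F.mem_of_family' (ι := Sym H V W) hF a ?_ b ?_ ?_
    · intro τ
      exact theta_surj _ _ _ _ _ _ _ _ _ (c.ev_surj hgen τ.1 τ.2) (hfs τ.1 τ.2)
    · exact theta_surj _ _ _ _ _ _ _ _ _ hmk (fun x => ⟨x, rfl⟩)
    · intro g hg
      have h1 : ∀ τ : Sym H V W, g.left.v = 0 ∧ g.left.w = 0 ∧ c.ev τ.1 τ.2 g.left.z = 0 ∧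
          g.right = 1 := fun τ =>
        theta_ker _ _ _ _ _ _ _ _ _ (hfi τ.1 τ.2) g (hg τ)
      have h2 := h1 ⟨AddEquiv.refl _, IsSymmetry.refl⟩
      have h3 : g.left.z = 0 := c.inj _ (fun τ hτ => (h1 ⟨τ, hτ⟩).2.2.1)
      have h4 : g = 1 := by
        apply SemidirectProduct.ext
        · apply Heis.ext
          · exact h2.1
          · exact h2.2.1
          · exact h3
        · exact h2.2.2.2
      rw [h4, map_one]

theorem cIII : StatementCIII := by
  intro F p H V W Z _ _ _ _ _ _ _ _ _ _ _ β hβ hp hF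
  -- pass to the span of the values
  let Z₀ : AddSubgroup Z := AddSubgroup.closure {z : Z | ∃ v w, z = β v w}
  have hval : ∀ v w, β v w ∈ Z₀ := fun v w => AddSubgroup.subset_closure ⟨v, w, rfl⟩
  have hinv : ∀ h : H, ∀ z ∈ Z₀, h • z ∈ Z₀ := by
    intro h
    have h1 : Z₀ ≤ Z₀.comap (DistribSMul.toAddMonoidHom Z h) := by
      rw [AddSubgroup.closure_le]
      rintro _ ⟨v, w, rfl⟩
      change h • β v w ∈ Z₀
      rw [← hβ]
      exact hval _ _
    intro z hz
    exact h1 hz
  let dma : DistribMulAction H Z₀ := subDMA Z₀ hinv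
  let β₀ : V →+ W →+ Z₀ :=
    AddMonoidHom.mk' (fun v => AddMonoidHom.mk' (fun w => (⟨β v w, hval v w⟩ : Z₀)) (by
      intro w w'
      apply Subtype.ext
      exact map_add (β v) w w')) (by
      intro v v'
      ext1 w
      apply Subtype.ext
      change β (v + v') w = β v w + β v' w
      rw [map_add, AddMonoidHom.add_apply])
  have hβ₀ : ∀ (h : H) (v : V) (w : W), β₀ (h • v) (h • w) = h • β₀ v w := fun h v w =>
    Subtype.ext (hβ h v w)
  have hF₀ : F.Mem (Heis β₀ ⋊[heisAct β₀ hβ₀] H) :=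
    sub_quot_mem β β₀ F hβ hβ₀ hF Z₀ (AddMonoidHom.id _) (fun x => ⟨x, rfl⟩) hval hinv
      (fun _ _ => rfl) (fun _ _ => rfl)
  refine cIII_gen F p H V W Z₀ β₀ hβ₀ ?_ hF₀ ?_
  · obtain ⟨hpp, hA, hcop, hpV, hpW, hiV, hiW, hfaith, v₀, w₀, hne⟩ := hp
    exact ⟨hpp, hA, hcop, hpV, hpW, hiV, hiW, hfaith, v₀, w₀,
      fun h => hne (congrArg Subtype.val h)⟩
  · rw [eq_top_iff]
    rintro ⟨z, hz⟩ -
    unfold Z₀ at hz
    induction hz using AddSubgroup.closure_induction with
    | mem z hz =>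
      obtain ⟨v, w, rfl⟩ := hz
      exact AddSubgroup.subset_closure ⟨v, w, rfl⟩
    | zero => exact zero_mem _
    | add a b ha hb h1 h2 => exact add_mem h1 h2
    | neg a ha h1 => exact neg_mem h1

end Pool.Agent.Helper38.Form
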