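import Pool.Agent.Helper38.Form.Red1

/-!
# The reduction, part 2: the perfect case
-/

namespace Pool.Agent.Helper38.Form

open Function Subgroup
open scoped commutatorElement

set_option linter.unusedSectionVars false

theorem commutator_coe_eq_top {G : Type} [Group G] {M : Subgroup G} (h : ⁅M, M⁆ = M) :
    _root_.commutator M = ⊤ := by
  apply map_injective M.subtype_injective
  rw [_root_.commutator_def, map_commutator, ← MonoidHom.range_eq_map, range_subtype, h]

namespace Setup

variable {G : Type} [Group G] [Finite G] {N : Subgroup G} [N.Normal] {p : ℕ}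

theorem N_le_M (S : Setup G N p) {M : Subgroup G} (hM : IsM p M) : N ≤ M := by
  refine S.mono M hM.1.1 ?_
  rintro rfl
  apply hM.1.2
  intro Q _ hQ x hx y hy
  rw [mem_bot.1 (hQ hx), mem_bot.1 (hQ hy)]

theorem center_mem_N (S : Setup G N p) {M : Subgroup G} (h : ⁅M, M⁆ = M) {z : G} (hz : z ∈ M)
    (hc : ∀ x ∈ M, x * z = z * x) (hp : PEl p z) : z ∈ N := by
  rw [← QuotientGroup.eq_one_iff]
  let T := M.map (QuotientGroup.mk' N)
  have hzT : QuotientGroup.mk' N z ∈ T := mem_map_of_mem _ hz
  have hT : _root_.commutator T = ⊤ := by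
    apply commutator_coe_eq_top
    rw [← map_commutator, h]
  have := tr1 (T := T) S.prime ?_ ⟨QuotientGroup.mk' N z, hzT⟩ ?_ ?_ ?_
  · exact congrArg Subtype.val this
  · intro Q hQ _ x hx y hy
    exact Subtype.ext (S.quotA.ab S.prime (hQ.map T.subtype) (mem_map_of_mem T.subtype hx)
      (mem_map_of_mem T.subtype hy))
  · rw [mem_center_iff]
    rintro ⟨_, x, hx, rfl⟩
    apply Subtype.ext
    change QuotientGroup.mk' N x * QuotientGroup.mk' N z =
      QuotientGroup.mk' N z * QuotientGroup.mk' N x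
    rw [← map_mul, hc x hx, map_mul]
  · obtain ⟨k, hk⟩ := hp
    refine ⟨k, Subtype.ext ?_⟩
    change (QuotientGroup.mk' N z) ^ p ^ k = 1
    rw [← map_pow, hk, map_one]
  · rw [hT]; exact mem_top _

theorem comm_M_small (S : Setup G N p) {M : Subgroup G} (hM : IsM p M) (h : ⁅M, M⁆ = M)
    {L : Subgroup G} (hL : L.Normal) (hLM : L ≤ M) (hne : L ≠ M) :
    ∀ x ∈ M, ∀ l ∈ L, x * l = l * x := by
  have hn := hM.1.1
  obtain ⟨-, hp⟩ := S.small hM hL hLM hne
  let R : Subgroup G := M ⊓ (centralizer ((L.map (QuotientGroup.mk' N) : Subgroup (G ⧸ N)) :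
    Set (G ⧸ N))).comap (QuotientGroup.mk' N)
  have hLn : (L.map (QuotientGroup.mk' N)).Normal := hL.map _ (QuotientGroup.mk'_surjective N)
  have hR : R = M := by
    refine hM.eq R inferInstance inf_le_left (fun x hx hxp => ⟨hx, ?_⟩)
    refine mem_comap.2 (mem_centralizer_iff.2 ?_)
    rintro _ ⟨l, hl, rfl⟩
    have h1 := S.comm_mem' hL hp hxp hl
    rw [← QuotientGroup.eq_one_iff] at h1
    have h2 : QuotientGroup.mk' N (x * l * x⁻¹ * l⁻¹) = 1 := h1
    rw [map_mul, map_mul, map_mul, map_inv, map_inv, mul_inv_eq_one, mul_inv_eq_iff_eq_mul] at h2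
    exact h2.symm
  have h1 : ⁅M, L⁆ ≤ N := by
    rw [commutator_le]
    intro x hx l hl
    rw [← hR] at hx
    have h2 := mem_centralizer_iff.1 (mem_comap.1 hx.2) _ (mem_map_of_mem (QuotientGroup.mk' N) hl)
    rw [← QuotientGroup.eq_one_iff]
    change QuotientGroup.mk' N ⁅x, l⁆ = 1
    rw [map_commutatorElement, commutatorElement_eq_one_iff_mul_comm]
    exact h2.symm
  have h2 : ⁅⁅M, L⁆, M⁆ = ⊥ := by
    rw [eq_bot_iff, commutator_le]
    intro n hn x hx
    rw [mem_bot, commutatorElement_eq_one_iff_mul_comm]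
    exact (S.M_le_centralizer hM x hx n (h1 hn)).symm
  have h3 : ⁅⁅M, M⁆, L⁆ = ⊥ := commutator_commutator_eq_bot_of_rotate h2 (by
    rw [commutator_comm L M]; exact h2)
  rw [h] at h3
  intro x hx l hl
  have h4 : ⁅x, l⁆ ∈ ⁅M, L⁆ := commutator_mem_commutator hx hl
  rw [h3, mem_bot, commutatorElement_eq_one_iff_mul_comm] at h4
  exact h4

theorem perfect_case (S : Setup G N p) {M : Subgroup G} [M.Normal] (hM : IsM p M)
    (h : ⁅M, M⁆ = M) : IsTypeIV' p M (MulAut.conjNormal : G →* MulAut M).range := by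
  have hNM := S.N_le_M hM
  -- centre elements are in N
  have hcen : ∀ z : M, z ∈ center M → (z : G) ∈ N := by
    let Z : Subgroup G := (center M).map M.subtype
    have hZn : Z.Normal := by
      refine ⟨?_⟩
      rintro _ ⟨z, hz, rfl⟩ g
      refine ⟨MulAut.conjNormal g z, mem_center_iff.2 ?_, rfl⟩
      intro x
      obtain ⟨y, rfl⟩ := (MulAut.conjNormal g : MulAut M).surjective x
      rw [← map_mul, mem_center_iff.1 hz, map_mul]
    have hZM : Z ≠ M := by
      intro hZ
      apply hM.1.2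
      intro Q _ hQM x hx y hy
      have hx' : x ∈ Z := by rw [hZ]; exact hQM hx
      obtain ⟨z, hz, rfl⟩ := hx'
      exact (congrArg Subtype.val (mem_center_iff.1 hz ⟨y, hQM hy⟩)).symm
    have hsm := S.small hM hZn (map_subtype_le _) hZM
    intro z hz
    exact S.center_mem_N h z.2 (fun x hx => congrArg Subtype.val (mem_center_iff.1 hz ⟨x, hx⟩))
      (hsm.2 z (mem_map_of_mem M.subtype hz))
  refine ⟨S.prime, commutator_coe_eq_top h, ?_, ?_, ?_, ?_, ?_, ?_⟩
  · intro e
    exact ⟨e, MulAut.conjNormal_val⟩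
  · have hle : N ≤ (MulAut.conjNormal : G →* MulAut M).rangeRestrict.ker := by
      intro n hn
      rw [MonoidHom.mem_ker]
      apply Subtype.ext
      ext x
      change n * x * n⁻¹ = x
      rw [← S.M_le_centralizer hM x x.2 n hn, mul_assoc, mul_inv_cancel, mul_one]
    refine S.quotA.of_surjective (QuotientGroup.lift N _ hle) ?_
    intro y
    obtain ⟨g, rfl⟩ := MonoidHom.rangeRestrict_surjective _ y
    exact ⟨QuotientGroup.mk g, rfl⟩
  · intro R hR
    have hRn : (R.map M.subtype).Normal := by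
      refine ⟨?_⟩
      rintro _ ⟨z, hz, rfl⟩ g
      exact ⟨MulAut.conjNormal g z, hR _ ⟨g, rfl⟩ z hz, rfl⟩
    by_cases hRM : R.map M.subtype = M
    · right
      apply map_injective M.subtype_injective
      rw [hRM, ← MonoidHom.range_eq_map, range_subtype]
    · left
      intro z hz
      rw [mem_center_iff]
      intro x
      exact Subtype.ext (S.comm_M_small hM h hRn (map_subtype_le _) hRM x x.2 z
        (mem_map_of_mem M.subtype hz))
  · intro hb
    obtain ⟨n, hn, hn1⟩ := S.N_ne
    have : (⟨n, hNM hn⟩ : M) ∈ center M := by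
      rw [mem_center_iff]
      intro x
      exact Subtype.ext (S.M_le_centralizer hM x x.2 n hn)
    rw [hb, mem_bot] at this
    exact hn1 (congrArg Subtype.val this)
  · rintro ⟨z, hz⟩
    obtain ⟨k, hk⟩ := S.pEl_N (hcen z hz)
    exact ⟨k, Subtype.ext (Subtype.ext hk)⟩
  · rintro _ ⟨g, rfl⟩ hk z hz
    obtain ⟨g', hg', hgg⟩ := exists_pEl_lift S.prime (MulAut.conjNormal : G →* MulAut M) hk
    rw [← hgg]
    apply Subtype.ext
    change g' * z * g'⁻¹ = z
    rw [S.pcen g' hg' z (hcen z hz), mul_assoc, mul_inv_cancel, mul_one]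

theorem perfect_mem (F : Formation) (hF : F.Mem G) (M : Subgroup G) [M.Normal] :
    F.Mem (Hol M (MulAut.conjNormal : G →* MulAut M).range) :=
  hol_mem F _ hF (MonoidHom.id G) surjective_id M (MonoidHom.id M) surjective_id
    (MulAut.conjNormal : G →* MulAut M).rangeRestrict (MonoidHom.rangeRestrict_surjective _)
    (fun _ _ => rfl) (MonoidHom.id _) surjective_id (by
      intro x d hx hd
      have hx' : x = 1 := Subtype.ext hx
      have hd' : d = 1 := hd
      subst hx' hd'
      ext1
      · rfl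
      · exact map_one _)

end Setup

end Pool.Agent.Helper38.Form
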