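import Pool.Agent.Helper38.Form.IVd
import Pool.Agent.Helper38.Form.Red2

/-!
# Canonicalisation of type IV: the covering group
-/

namespace Pool.Agent.Helper38.Form

open Function Subgroup
open scoped commutatorElement

set_option linter.unusedSectionVars false

/-- The data of the covering group `X` of `E`. -/
structure Cover {E : Type} [Group E] {K : Subgroup (MulAut E)}
    (hi : ∀ e : E, MulAut.conj e ∈ K) (X : Type) [Group X] where
  /-- the action of `Aut K` -/
  act : MulAut K →* MulAut X
  /-- the maps to `E` -/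
  q : MulAut K → X →* E
  /-- the map to `K` -/
  π : X →* K
  perf : _root_.commutator X = ⊤
  surj : ∀ α, Surjective (q α)
  inj : ∀ x, (∀ α, q α x = 1) → x = 1
  π_act : ∀ δ x, π (act δ x) = δ (π x)
  q_π : ∀ α x, innK hi (q α x) = α⁻¹ (π x)
  q_act : ∀ α δ x, q α (act δ x) = q (δ⁻¹ * α) x

section

variable {p : ℕ} {E : Type} [Group E] [Finite E] {K : Subgroup (MulAut E)}

theorem char_inn (hp : IsTypeIV' p E K) (hi : ∀ e : E, MulAut.conj e ∈ K) (α : MulAut K) (e : E) :
    ∃ e' : E, innK hi e' = α (innK hi e) := by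
  have hn := inn_normal hi
  have h1 : (innK hi).range ≤ (innK hi).range.comap α.toMonoidHom := by
    apply inn_le hp hi
    · exact Normal.comap hn _
    · intro hb
      apply inn_ne_bot hp hi
      rw [eq_bot_iff]
      intro x hx
      have h2 : α.symm x ∈ (innK hi).range.comap α.toMonoidHom := by
        change α (α.symm x) ∈ (innK hi).range
        rw [MulEquiv.apply_symm_apply]; exact hx
      rw [hb, mem_bot] at h2
      rw [mem_bot, ← MulEquiv.apply_symm_apply α x, h2, map_one]
  obtain ⟨e', he'⟩ := h1 (⟨e, rfl⟩ : innK hi e ∈ (innK hi).range)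
  exact ⟨e', he'⟩

/-- the group of coherent families -/
def Ehat (hi : ∀ e : E, MulAut.conj e ∈ K) : Subgroup (MulAut K → E) where
  carrier := {e | ∀ α : MulAut K, α (innK hi (e α)) = innK hi (e 1)}
  mul_mem' := fun {a b} ha hb α => by
    rw [Pi.mul_apply, Pi.mul_apply, map_mul, map_mul, ha α, hb α, map_mul]
  one_mem' := fun α => by simp
  inv_mem' := fun {a} ha α => by
    rw [Pi.inv_apply, Pi.inv_apply, map_inv, map_inv, ha α, map_inv]

/-- the action of `Aut K` on the product -/
def Tact : MulAut K →* MulAut (MulAut K → E) where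
  toFun := fun δ =>
    { toFun := fun e α => e (δ⁻¹ * α)
      invFun := fun e α => e (δ * α)
      left_inv := fun e => by ext α; simp
      right_inv := fun e => by ext α; simp
      map_mul' := fun a b => rfl }
  map_one' := by ext e α; simp
  map_mul' := fun a b => by ext e α; simp [mul_assoc]

theorem Tact_apply (δ : MulAut K) (e : MulAut K → E) (α : MulAut K) :
    Tact δ e α = e (δ⁻¹ * α) := rfl

theorem Tact_mem (hi : ∀ e : E, MulAut.conj e ∈ K) (δ : MulAut K) {e : MulAut K → E}
    (he : e ∈ Ehat hi) : Tact δ e ∈ Ehat hi := by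
  have key : ∀ α : MulAut K, α (innK hi (Tact δ e α)) = δ (innK hi (e 1)) := by
    intro α
    rw [Tact_apply, ← he (δ⁻¹ * α), MulAut.mul_apply, MulAut.apply_inv_self]
  intro α
  rw [key, ← key 1, MulAut.one_apply]

theorem Tact_one (hi : ∀ e : E, MulAut.conj e ∈ K) (δ : MulAut K) {e : MulAut K → E}
    (he : e ∈ Ehat hi) : innK hi (Tact δ e 1) = δ (innK hi (e 1)) := by
  rw [Tact_apply, ← he (δ⁻¹ * 1), MulAut.mul_apply, MulAut.apply_inv_self, MulAut.one_apply]

theorem Ehat_surj (hp : IsTypeIV' p E K) (hi : ∀ e : E, MulAut.conj e ∈ K) (α : MulAut K)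
    (e : E) : ∃ x ∈ Ehat hi, x α = e := by
  classical
  have h1 : ∀ β : MulAut K, ∃ e' : E, innK hi e' = (β⁻¹ * α) (innK hi e) := fun β =>
    char_inn hp hi _ e
  choose f hf using h1
  refine ⟨fun β => if β = α then e else f β, ?_, by simp⟩
  have key : ∀ β : MulAut K, β (innK hi (if β = α then e else f β)) = α (innK hi e) := by
    intro β
    split_ifs with h
    · rw [h]
    · rw [hf, MulAut.mul_apply, MulAut.apply_inv_self]
  intro β
  change β (innK hi (if β = α then e else f β)) = innK hi (if 1 = α then e else f 1)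
  rw [key, ← key 1, MulAut.one_apply]

theorem E0_map (hp : IsTypeIV' p E K) (hi : ∀ e : E, MulAut.conj e ∈ K) (α : MulAut K) :
    ⁅Ehat hi, Ehat hi⁆.map (Pi.evalMonoidHom (fun _ : MulAut K => E) α) = ⊤ := by
  have h1 : (Ehat hi).map (Pi.evalMonoidHom (fun _ : MulAut K => E) α) = ⊤ := by
    rw [eq_top_iff]
    intro e _
    obtain ⟨x, hx, rfl⟩ := Ehat_surj hp hi α e
    exact mem_map_of_mem (Pi.evalMonoidHom (fun _ : MulAut K => E) α) hx
  rw [map_commutator, h1, ← _root_.commutator_def, hp.2.1]

theorem E0_perfect (hp : IsTypeIV' p E K) (hi : ∀ e : E, MulAut.conj e ∈ K) :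
    ⁅⁅Ehat hi, Ehat hi⁆, ⁅Ehat hi, Ehat hi⁆⁆ = ⁅Ehat hi, Ehat hi⁆ := by
  apply le_antisymm
  · exact commutator_mono (commutator_le_self _) (commutator_le_self _)
  · -- modulo central elements
    have hdec : ∀ x ∈ Ehat hi, ∃ x' ∈ ⁅Ehat hi, Ehat hi⁆, ∀ y : MulAut K → E,
        ⁅x, y⁆ = ⁅x', y⁆ := by
      intro x hx
      have h1 : x 1 ∈ ⁅Ehat hi, Ehat hi⁆.map (Pi.evalMonoidHom (fun _ : MulAut K => E) 1) := by
        rw [E0_map hp hi]; exact mem_top _
      obtain ⟨x', hx', h2⟩ := h1
      have h2' : x' 1 = x 1 := h2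
      have hx'' : x' ∈ Ehat hi := commutator_le_self _ hx'
      refine ⟨x', hx', fun y => ?_⟩
      ext α
      have h3 : innK hi (x α) = innK hi (x' α) := by
        apply α.injective
        rw [hx α, hx'' α, h2']
      have h4 : MulAut.conj (x α) = MulAut.conj (x' α) := congrArg Subtype.val h3
      have h5 : x α * y α * (x α)⁻¹ = x' α * y α * (x' α)⁻¹ := by
        have := congrArg (fun φ : MulAut E => φ (y α)) h4
        simpa using this
      change x α * y α * (x α)⁻¹ * (y α)⁻¹ = x' α * y α * (x' α)⁻¹ * (y α)⁻¹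
      rw [h5]
    rw [commutator_le]
    intro x hx y hy
    obtain ⟨x', hx', h1⟩ := hdec x hx
    obtain ⟨y', hy', h2⟩ := hdec y hy
    have h3 : ⁅x, y⁆ = ⁅x', y'⁆ := by
      rw [h1, ← commutatorElement_inv, h2, commutatorElement_inv]
    rw [h3]
    exact commutator_mem_commutator hx' hy'

theorem Tact_mem_E0 (hi : ∀ e : E, MulAut.conj e ∈ K) (δ : MulAut K) {e : MulAut K → E}
    (he : e ∈ ⁅Ehat hi, Ehat hi⁆) : Tact δ e ∈ ⁅Ehat hi, Ehat hi⁆ := by
  have h1 : ⁅Ehat hi, Ehat hi⁆.map (Tact δ : MulAut (MulAut K → E)).toMonoidHom ≤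
      ⁅Ehat hi, Ehat hi⁆ := by
    rw [map_commutator]
    have h2 : (Ehat hi).map (Tact δ : MulAut (MulAut K → E)).toMonoidHom ≤ Ehat hi := by
      rintro _ ⟨x, hx, rfl⟩
      exact Tact_mem hi δ hx
    exact commutator_mono h2 h2
  exact h1 (mem_map_of_mem (Tact δ : MulAut (MulAut K → E)).toMonoidHom he)

/-- the covering group exists -/
theorem exists_cover (hp : IsTypeIV' p E K) (hi : ∀ e : E, MulAut.conj e ∈ K) :
    ∃ (X : Type) (_ : Group X) (_ : Finite X), Nonempty (Cover hi X) := by
  let X := (⁅Ehat hi, Ehat hi⁆ : Subgroup (MulAut K → E))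
  refine ⟨X, inferInstance, inferInstance, ⟨?_⟩⟩
  have hle : ⁅Ehat hi, Ehat hi⁆ ≤ Ehat hi := commutator_le_self _
  exact
    { act :=
        { toFun := fun δ =>
            { toFun := fun x => ⟨Tact δ x, Tact_mem_E0 hi δ x.2⟩
              invFun := fun x => ⟨Tact δ⁻¹ x, Tact_mem_E0 hi δ⁻¹ x.2⟩
              left_inv := fun x => Subtype.ext (by
                change Tact δ⁻¹ (Tact δ x) = (x : MulAut K → E)
                rw [← MulAut.mul_apply, ← map_mul, inv_mul_cancel, map_one, MulAut.one_apply])
              right_inv := fun x => Subtype.ext (by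
                change Tact δ (Tact δ⁻¹ x) = (x : MulAut K → E)
                rw [← MulAut.mul_apply, ← map_mul, mul_inv_cancel, map_one, MulAut.one_apply])
              map_mul' := fun x y => Subtype.ext (map_mul (Tact δ) _ _) }
          map_one' := by
            ext1 x
            apply Subtype.ext
            change Tact 1 (x : MulAut K → E) = x
            rw [map_one, MulAut.one_apply]
          map_mul' := fun a b => by
            ext1 x
            apply Subtype.ext
            change Tact (a * b) (x : MulAut K → E) = Tact a (Tact b x)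
            rw [map_mul, MulAut.mul_apply] }
      q := fun α => (Pi.evalMonoidHom (fun _ : MulAut K => E) α).comp X.subtype
      π := (innK hi).comp ((Pi.evalMonoidHom (fun _ : MulAut K => E) 1).comp X.subtype)
      perf := commutator_coe_eq_top (E0_perfect hp hi)
      surj := by
        intro α e
        have h1 : e ∈ ⁅Ehat hi, Ehat hi⁆.map (Pi.evalMonoidHom (fun _ : MulAut K => E) α) := by
          rw [E0_map hp hi]; exact mem_top _
        obtain ⟨x, hx, rfl⟩ := h1
        exact ⟨⟨x, hx⟩, rfl⟩
      inj := by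
        intro x hx
        apply Subtype.ext
        funext α
        exact hx α
      π_act := by
        intro δ x
        exact Tact_one hi δ (hle x.2)
      q_π := by
        intro α x
        have := hle x.2 α
        change innK hi ((x : MulAut K → E) α) = α⁻¹ (innK hi ((x : MulAut K → E) 1))
        rw [← this, MulAut.inv_apply_self]
      q_act := fun α δ x => rfl }

end

end Pool.Agent.Helper38.Form
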