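import Pool.Agent.Helper38.Form.CIVa
import Pool.Agent.Helper38.Form.Iface

/-!
# Canonicalisation of type IV
-/

namespace Pool.Agent.Helper38.Form

open Function Subgroup
open scoped commutatorElement

set_option linter.unusedSectionVars false

namespace Cover

variable {p : ℕ} {E : Type} [Group E] [Finite E] {K : Subgroup (MulAut E)}
  {hi : ∀ e : E, MulAut.conj e ∈ K} {X : Type} [Group X] [Finite X] (c : Cover hi X)

include c

theorem compat (α : MulAut K) (k : K) (x : X) :
    c.q α (c.act (MulAut.conj k) x) = ((α⁻¹ k : K) : MulAut E) (c.q α x) := by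
  have heq : (c.q α).comp (c.act (MulAut.conj k)).toMonoidHom =
      ((α⁻¹ k : K) : MulAut E).toMonoidHom.comp (c.q α) := by
    apply perf_eq c.perf
    intro y
    have h1 : innK hi (c.q α (c.act (MulAut.conj k) y)) =
        α⁻¹ k * innK hi (c.q α y) * (α⁻¹ k)⁻¹ := by
      rw [c.q_π, c.π_act, MulAut.conj_apply, map_mul, map_mul, map_inv, c.q_π]
    have h2 : MulAut.conj (c.q α (c.act (MulAut.conj k) y)) =
        ((α⁻¹ k : K) : MulAut E) * MulAut.conj (c.q α y) * ((α⁻¹ k : K) : MulAut E)⁻¹ :=
      congrArg Subtype.val h1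
    exact h2.trans (conj_apply_aut _ _).symm
  exact DFunLike.congr_fun heq x

theorem π_eq_one_iff (x : X) : c.π x = 1 ↔ x ∈ center X := by
  rw [mem_center_iff]
  constructor
  · intro h g
    rw [← mul_inv_eq_one]
    apply c.inj
    intro α
    have h1 : c.q α x ∈ center E := by
      rw [← innK_eq_one_iff hi, c.q_π, h, map_one]
    rw [map_mul, map_inv, map_mul, map_mul, mul_inv_eq_one]
    exact mem_center_iff.1 h1 _
  · intro h
    have h1 : c.q 1 x ∈ center E := by
      rw [mem_center_iff]
      intro e
      obtain ⟨y, rfl⟩ := c.surj 1 e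
      rw [← map_mul, h, map_mul]
    rw [← innK_eq_one_iff hi, c.q_π, inv_one, MulAut.one_apply] at h1
    exact h1

theorem conj_eq (x : X) : MulAut.conj x = c.act (MulAut.conj (c.π x)) := by
  ext y
  rw [← mul_inv_eq_one]
  apply c.inj
  intro α
  rw [map_mul, map_inv, c.compat, mul_inv_eq_one, ← c.q_π, MulAut.conj_apply, innK_coe,
    MulAut.conj_apply, map_mul, map_mul, map_inv]

theorem center_iff (x : X) : x ∈ center X ↔ c.q 1 x ∈ center E := by
  rw [← c.π_eq_one_iff, ← innK_eq_one_iff hi, c.q_π, inv_one, MulAut.one_apply]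

theorem center_iff' (α : MulAut K) (x : X) : x ∈ center X ↔ c.q α x ∈ center E := by
  rw [← c.π_eq_one_iff, ← innK_eq_one_iff hi, c.q_π]
  constructor
  · intro h; rw [h, map_one]
  · intro h
    have := congrArg α h
    rwa [MulAut.apply_inv_self, map_one] at this

theorem center_ne_bot (h : center E ≠ ⊥) : center X ≠ ⊥ := by
  intro hb
  apply h
  rw [eq_bot_iff]
  intro e he
  obtain ⟨x, rfl⟩ := c.surj 1 e
  rw [← c.center_iff, hb, mem_bot] at he
  rw [he, map_one]
  exact one_mem _

theorem center_pEl (h : IsPGroup p (center E)) {x : X} (hx : x ∈ center X) : PEl p x := by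
  obtain ⟨k, hk⟩ := pEl_family (G := fun _ : MulAut K => E) c.q (d := x) (p := p) (fun α =>
    pEl_of_mem h ((c.center_iff' α x).1 hx))
  exact ⟨k, c.inj _ hk⟩

theorem pel_fix (hp : IsTypeIV' p E K) {k : K} (hk : PEl p k) {x : X} (hx : x ∈ center X) :
    c.act (MulAut.conj k) x = x := by
  rw [← mul_inv_eq_one]
  apply c.inj
  intro α
  rw [map_mul, map_inv, mul_inv_eq_one, c.compat]
  exact kfix hp (α⁻¹ k).2 ((hk.map (α⁻¹ : MulAut K).toMonoidHom).coe) ((c.center_iff' α x).1 hx)

theorem act_center (δ : MulAut K) {x : X} (hx : x ∈ center X) : c.act δ x ∈ center X := by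
  rw [← c.π_eq_one_iff] at hx ⊢
  rw [c.π_act, hx, map_one]

/-- `k` acting as identity modulo the centre is trivial -/
theorem eq_one_of_act {k : K} (h : ∀ x, c.act (MulAut.conj k) x * x⁻¹ ∈ center X) : k = 1 := by
  have h1 : c.act (MulAut.conj k) = 1 := by
    apply perf_aut c.perf
    intro x
    have := (conj_eq_one_iff _).2 (h x)
    rwa [map_mul, map_inv, mul_inv_eq_one] at this
  apply Subtype.ext
  ext e
  obtain ⟨x, rfl⟩ := c.surj 1 e
  have h2 := c.compat 1 k x
  rw [h1, inv_one, MulAut.one_apply, MulAut.one_apply] at h2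
  exact h2.symm

/-- an invariant subgroup is central or everything -/
theorem small (hp : IsTypeIV' p E K) (S : Subgroup X)
    (hS : ∀ k : K, ∀ x ∈ S, c.act (MulAut.conj k) x ∈ S) : S ≤ center X ∨ S = ⊤ := by
  rcases hp.2.2.2.2.1 (S.map (c.q 1)) (by
    rintro k hk _ ⟨x, hx, rfl⟩
    refine ⟨c.act (MulAut.conj ⟨k, hk⟩) x, hS _ x hx, ?_⟩
    rw [c.compat, inv_one, MulAut.one_apply]) with h | h
  · left
    intro x hx
    rw [c.center_iff]
    exact h (mem_map_of_mem _ hx)
  · right
    have h1 : ∀ x : X, ∃ s ∈ S, ∃ z ∈ center X, x = s * z := by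
      intro x
      have h2 : c.q 1 x ∈ S.map (c.q 1) := by rw [h]; exact mem_top _
      obtain ⟨s, hs, hsx⟩ := h2
      refine ⟨s, hs, s⁻¹ * x, ?_, by group⟩
      rw [c.center_iff, map_mul, map_inv, hsx, inv_mul_cancel]
      exact one_mem _
    have h3 := surj_of_mod_center c.perf S.subtype (by
      intro e
      obtain ⟨s, hs, z, hz, h4⟩ := h1 e
      exact ⟨s, ⟨⟨s, hs⟩, rfl⟩, z, hz, h4⟩)
    rw [eq_top_iff]
    intro x _
    obtain ⟨s, rfl⟩ := h3 x
    exact s.2

end Cover

/-- the automorphism of `X/Z₂` induced by an automorphism of `X` -/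
def quotAut {X : Type} [Group X] (A : Type) [Group A] (act : A →* MulAut X) (Z₂ : Subgroup X)
    [Z₂.Normal] (h : ∀ a, ∀ x ∈ Z₂, act a x ∈ Z₂) : A →* MulAut (X ⧸ Z₂) where
  toFun a :=
    { toFun := QuotientGroup.map Z₂ Z₂ (act a).toMonoidHom (fun x hx => h a x hx)
      invFun := QuotientGroup.map Z₂ Z₂ (act a⁻¹).toMonoidHom (fun x hx => h a⁻¹ x hx)
      left_inv := by
        intro x
        induction x using QuotientGroup.induction_on with
        | H x =>
          change ((act a⁻¹ (act a x) : X) : X ⧸ Z₂) = x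
          rw [map_inv, MulAut.inv_apply_self]
      right_inv := by
        intro x
        induction x using QuotientGroup.induction_on with
        | H x =>
          change ((act a (act a⁻¹ x) : X) : X ⧸ Z₂) = x
          rw [map_inv, MulAut.apply_inv_self]
      map_mul' := map_mul _ }
  map_one' := by
    ext x
    induction x using QuotientGroup.induction_on with
    | H x =>
      change ((act 1 x : X) : X ⧸ Z₂) = x
      rw [map_one, MulAut.one_apply]
  map_mul' a b := by
    ext x
    induction x using QuotientGroup.induction_on with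
    | H x =>
      change ((act (a * b) x : X) : X ⧸ Z₂) = ((act a (act b x) : X) : X ⧸ Z₂)
      rw [map_mul, MulAut.mul_apply]

theorem quotAut_mk {X : Type} [Group X] (A : Type) [Group A] (act : A →* MulAut X)
    (Z₂ : Subgroup X) [Z₂.Normal] (h : ∀ a, ∀ x ∈ Z₂, act a x ∈ Z₂) (a : A) (x : X) :
    quotAut A act Z₂ h a (x : X ⧸ Z₂) = (act a x : X) := rfl

theorem cIV : StatementCIV := by
  intro F p E _ _ K hp hF
  have hi : ∀ e : E, MulAut.conj e ∈ K := hp.2.2.1
  obtain ⟨X, _, _, ⟨c⟩⟩ := exists_cover hp hi
  -- maximal invariant subgroup of the centre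
  obtain ⟨Z₂, ⟨hZle, hZne, hZinv⟩, hmax⟩ := exists_max_subgroup
    (fun S : Subgroup X => S ≤ center X ∧ S ≠ center X ∧ ∀ δ : MulAut K, ∀ x ∈ S, c.act δ x ∈ S)
    ⟨⊥, bot_le, (c.center_ne_bot hp.2.2.2.2.2.1).symm, by
      intro δ x hx
      rw [mem_bot] at hx ⊢
      rw [hx, map_one]⟩
  have hZn : Z₂.Normal := ⟨fun x hx g => by
    have := mem_center_iff.1 (hZle hx) g
    rwa [this, mul_inv_cancel_right]⟩
  let θ : MulAut K →* MulAut (X ⧸ Z₂) := quotAut (MulAut K) c.act Z₂ hZinv
  have hθ : ∀ (δ : MulAut K) (x : X), θ δ (x : X ⧸ Z₂) = (c.act δ x : X) := fun _ _ => rfl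
  let ι : K →* MulAut (X ⧸ Z₂) := θ.comp MulAut.conj
  have hιd : ∀ (k : K) (x : X), ι k (x : X ⧸ Z₂) = (c.act (MulAut.conj k) x : X) :=
    fun _ _ => rfl
  let K₁ : Subgroup (MulAut (X ⧸ Z₂)) := ι.range
  have hmul : ∀ a b : X, ((a : X ⧸ Z₂) = b ↔ a * b⁻¹ ∈ Z₂) := by
    intro a b
    rw [← QuotientGroup.eq_one_iff (N := Z₂), QuotientGroup.mk_mul, QuotientGroup.mk_inv,
      mul_inv_eq_one]
  have hι : Injective ι := by
    rw [injective_iff_map_eq_one]
    intro k hk
    apply c.eq_one_of_act
    intro x
    have h1 : ι k (x : X ⧸ Z₂) = x := by rw [hk]; rfl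
    rw [hιd, hmul] at h1
    exact hZle h1
  have hcen : ∀ x : X, (x : X ⧸ Z₂) ∈ center (X ⧸ Z₂) ↔ x ∈ center X := by
    intro x
    constructor
    · intro h
      rw [← conj_eq_one_iff]
      apply perf_aut c.perf
      intro e
      have h1 : MulAut.conj x e * e⁻¹ ∈ center X := by
        apply hZle
        rw [← hmul, MulAut.conj_apply, QuotientGroup.mk_mul, QuotientGroup.mk_mul,
          QuotientGroup.mk_inv, ← mem_center_iff.1 h e, mul_inv_cancel_right]
      have := (conj_eq_one_iff _).2 h1
      rwa [map_mul, map_inv, mul_inv_eq_one] at this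
    · intro h
      rw [mem_center_iff]
      intro g
      induction g using QuotientGroup.induction_on with
      | H g => rw [← QuotientGroup.mk_mul, mem_center_iff.1 h g, QuotientGroup.mk_mul]
  have hnorm : ∀ (δ : MulAut K) (k : K), θ δ * ι k * (θ δ)⁻¹ = ι (δ k) := by
    intro δ k
    change θ δ * θ (MulAut.conj k) * (θ δ)⁻¹ = θ (MulAut.conj (δ k))
    rw [conj_apply_aut, map_mul, map_mul, map_inv]
  have hIV : IsTypeIV (X ⧸ Z₂) K₁ := by
    refine ⟨p, hp.1, ?_, ?_, ?_, ?_, ?_, ?_, ?_, ?_, ?_⟩
    · rw [_root_.commutator_def,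
        ← Subgroup.map_top_of_surjective (QuotientGroup.mk' Z₂) (QuotientGroup.mk'_surjective Z₂),
        ← map_commutator, ← _root_.commutator_def, c.perf]
    · intro e
      induction e using QuotientGroup.induction_on with
      | H x =>
        refine ⟨c.π x, ?_⟩
        ext y
        induction y using QuotientGroup.induction_on with
        | H y =>
          rw [hιd, ← c.conj_eq]
          rfl
    · exact hp.2.2.2.1.of_surjective ι.rangeRestrict ι.rangeRestrict_surjective
    · intro S hS
      rcases c.small hp (S.comap (QuotientGroup.mk' Z₂)) (by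
        intro k x hx
        exact hS (ι k) ⟨k, rfl⟩ _ hx) with h | h
      · left
        intro x hx
        induction x using QuotientGroup.induction_on with
        | H x =>
          rw [hcen]
          exact h hx
      · right
        rw [eq_top_iff]
        intro x _
        induction x using QuotientGroup.induction_on with
        | H x =>
          have : x ∈ S.comap (QuotientGroup.mk' Z₂) := by rw [h]; exact mem_top x
          exact this
    · intro hb
      apply hZne
      apply le_antisymm hZle
      intro x hx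
      rw [← hcen, hb, mem_bot, QuotientGroup.eq_one_iff] at hx
      exact hx
    · apply isPGroup_of_pEl
      intro x hx
      induction x using QuotientGroup.induction_on with
      | H x =>
        rw [hcen] at hx
        exact (c.center_pEl hp.2.2.2.2.2.2.1 hx).map (QuotientGroup.mk' Z₂)
    · rintro _ ⟨k, rfl⟩ ⟨m, hm⟩ z hz
      induction z using QuotientGroup.induction_on with
      | H z =>
        rw [hcen] at hz
        have hk : PEl p k := ⟨m, hι (by rw [map_pow, hm, map_one])⟩
        rw [hιd, c.pel_fix hp hk hz]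
    · intro α
      let e : K ≃* K₁ := MonoidHom.ofInjective hι
      have he : ∀ k, ((e k : K₁) : MulAut (X ⧸ Z₂)) = ι k := fun k => rfl
      let δ : MulAut K := (e.trans α).trans e.symm
      refine ⟨θ δ, ?_⟩
      intro k
      obtain ⟨k', rfl⟩ := e.surjective k
      rw [he, hnorm, ← he]
      congr 1
      change e (e.symm (α (e k'))) = α (e k')
      rw [MulEquiv.apply_symm_apply]
    · intro S hS hinv
      by_cases hne : S = center (X ⧸ Z₂)
      · right; exact hne
      · left
        have h1 : S.comap (QuotientGroup.mk' Z₂) = Z₂ := by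
          apply hmax
          · refine ⟨?_, ?_, ?_⟩
            · intro x hx
              rw [← hcen]
              exact hS hx
            · intro h
              apply hne
              apply le_antisymm hS
              intro x hx
              induction x using QuotientGroup.induction_on with
              | H x =>
                rw [hcen, ← h] at hx
                exact hx
            · intro δ x hx
              exact hinv (θ δ) (by
                rintro _ ⟨k, rfl⟩
                rw [hnorm]
                exact ⟨_, rfl⟩) _ hx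
          · intro x hx
            change ((x : X) : X ⧸ Z₂) ∈ S
            rw [(QuotientGroup.eq_one_iff x).2 hx]
            exact one_mem _
        rw [eq_bot_iff]
        intro x hx
        induction x using QuotientGroup.induction_on with
        | H x =>
          have h2 : x ∈ S.comap (QuotientGroup.mk' Z₂) := hx
          rw [h1] at h2
          rw [mem_bot]
          exact (QuotientGroup.eq_one_iff x).2 h2
  refine ⟨X ⧸ Z₂, inferInstance, inferInstance, K₁, hIV, ?_⟩
  -- membership
  let Y := X ⋊[c.act.comp (MulAut.conj : K →* MulAut K)] K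
  let a : MulAut K → Y →* Hol E K := fun α =>
    SemidirectProduct.map (c.q α) (α⁻¹ : MulAut K).toMonoidHom (by
      intro k
      ext x
      exact c.compat α k x)
  let b : Y →* Hol (X ⧸ Z₂) K₁ :=
    SemidirectProduct.map (QuotientGroup.mk' Z₂) ι.rangeRestrict (by
      intro k
      ext x
      rfl)
  refine F.mem_of_family' (ι := MulAut K) (X := Y) hF a ?_ b ?_ ?_
  · rintro α ⟨e, k⟩
    obtain ⟨x, rfl⟩ := c.surj α e
    refine ⟨⟨x, α k⟩, ?_⟩
    ext1
    · rfl
    · change α⁻¹ (α k) = k
      rw [MulAut.inv_apply_self]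
  · rintro ⟨e, ⟨_, k, rfl⟩⟩
    obtain ⟨x, rfl⟩ := QuotientGroup.mk'_surjective Z₂ e
    exact ⟨⟨x, k⟩, rfl⟩
  · rintro ⟨x, k⟩ h
    have h1 : x = 1 := c.inj x (fun α => congrArg SemidirectProduct.left (h α))
    have h2 : k = 1 := by
      have h3 : (1 : MulAut K)⁻¹ k = 1 := congrArg SemidirectProduct.right (h 1)
      rwa [inv_one, MulAut.one_apply] at h3
    subst h1 h2
    exact map_one b

end Pool.Agent.Helper38.Form
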