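import Mathlib

/-!
# Formations of finite groups and the four families of groups

Definitions for the classification of minimal non-`A`-formations.
-/

namespace Pool.Agent.Helper38.Form

/-- The class `𝔄`: all Sylow subgroups of `G` are abelian. -/
def IsAGroup (G : Type) [Group G] : Prop :=
  ∀ p : ℕ, p.Prime → ∀ P : Sylow p G, ∀ x ∈ P, ∀ y ∈ P, x * y = y * x

/-- A formation: a non-empty class of finite groups, closed under isomorphism, quotients, and
containing `G/(N₁ ∩ N₂)` whenever it contains `G/N₁` and `G/N₂`. -/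
@[ext] structure Formation where
  /-- membership of a finite group in the formation -/
  Mem : (G : Type) → [Group G] → [Finite G] → Prop
  nonempty : ∃ (G : Type) (_ : Group G) (_ : Finite G), Mem G
  iso : ∀ {G H : Type} [Group G] [Finite G] [Group H] [Finite H], (G ≃* H) → Mem G → Mem H
  quot : ∀ {G : Type} [Group G] [Finite G] (N : Subgroup G) [N.Normal], Mem G → Mem (G ⧸ N)
  inf : ∀ {G : Type} [Group G] [Finite G] (N₁ N₂ : Subgroup G) [N₁.Normal] [N₂.Normal],
    Mem (G ⧸ N₁) → Mem (G ⧸ N₂) → Mem (G ⧸ (N₁ ⊓ N₂))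

/-- `F ≤ F'` : `F` is a subformation of `F'`. -/
instance : LE Formation :=
  ⟨fun F F' => ∀ (G : Type) [Group G] [Finite G], F.Mem G → F'.Mem G⟩

/-- `form(G)`: the smallest formation containing `G`. -/
def form (G : Type) [Group G] [Finite G] : Formation where
  Mem := fun H _ _ => ∀ F : Formation, F.Mem G → F.Mem H
  nonempty := ⟨G, inferInstance, inferInstance, fun _ h => h⟩
  iso := fun e h F hF => F.iso e (h F hF)
  quot := fun N _ h F hF => F.quot N (h F hF)
  inf := fun N₁ N₂ _ _ h₁ h₂ F hF => F.inf N₁ N₂ (h₁ F hF) (h₂ F hF)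

/-- `F ⊆ 𝔄`. -/
def Formation.InA (F : Formation) : Prop :=
  ∀ (G : Type) [Group G] [Finite G], F.Mem G → IsAGroup G

/-- `F` is a minimal non-`A`-formation: `F ⊄ 𝔄`, and every proper subformation of `F` is
contained in `𝔄`. -/
def IsMinimalNonA (F : Formation) : Prop :=
  ¬ F.InA ∧ ∀ F' : Formation, F' ≤ F → F' ≠ F → F'.InA

/-! ### Type I -/

/-- Type I: `G` has a smallest non-trivial normal subgroup `N`, `N` is non-abelian, `G/N ∈ 𝔄` and
`G ∉ 𝔄`. -/
def IsTypeI (G : Type) [Group G] : Prop :=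
  ¬ IsAGroup G ∧ ∃ (N : Subgroup G) (_ : N.Normal),
    (∃ x ∈ N, ∃ y ∈ N, x * y ≠ y * x) ∧
    (∀ L : Subgroup G, L.Normal → L ≠ ⊥ → N ≤ L) ∧
    IsAGroup (G ⧸ N)

instance {N G : Type} [Group N] [Group G] (φ : G →* MulAut N) [Finite N] [Finite G] :
    Finite (N ⋊[φ] G) := Finite.of_equiv _ SemidirectProduct.equivProd.symm

/-! ### Types II and IV : groups `E ⋊ K` with `K ≤ Aut(E)` -/

/-- The semidirect product `E ⋊ K` for a group `K` of automorphisms of `E`. -/
abbrev Hol (E : Type) [Group E] (K : Subgroup (MulAut E)) : Type :=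
  E ⋊[K.subtype] K

/-- Type II: `E` is an elementary abelian `p`-group, `K` is an irreducible group of automorphisms
of `E` with `K ∈ 𝔄` and `p` divides `|K|`. -/
def IsTypeII (E : Type) [Group E] (K : Subgroup (MulAut E)) : Prop :=
  ∃ p : ℕ, p.Prime ∧ Nontrivial E ∧ (∀ x y : E, x * y = y * x) ∧ (∀ x : E, x ^ p = 1) ∧
    (∀ S : Subgroup E, (∀ k ∈ K, ∀ x ∈ S, k x ∈ S) → S = ⊥ ∨ S = ⊤) ∧
    IsAGroup K ∧ p ∣ Nat.card K

/-- Type IV: `E` is a perfect group, `Inn(E) ≤ K ≤ Aut(E)`, `K ∈ 𝔄`; every proper `K`-invariant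
subgroup of `E` is contained in the centre `Z(E)` (that is, `Inn(E)` is a minimal normal subgroup
of `K`); `Z(E)` is a non-trivial `p`-group on which `K` induces a `p'`-group; every automorphism
of `K` is induced by an element of the normaliser `N` of `K` in `Aut(E)`; and no proper
non-trivial subgroup of `Z(E)` is `N`-invariant. -/
def IsTypeIV (E : Type) [Group E] (K : Subgroup (MulAut E)) : Prop :=
  ∃ p : ℕ, p.Prime ∧ commutator E = ⊤ ∧ (∀ e : E, MulAut.conj e ∈ K) ∧ IsAGroup K ∧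
    (∀ S : Subgroup E, (∀ k ∈ K, ∀ x ∈ S, k x ∈ S) → S ≤ Subgroup.center E ∨ S = ⊤) ∧
    Subgroup.center E ≠ ⊥ ∧ IsPGroup p (Subgroup.center E) ∧
    (∀ k ∈ K, (∃ m : ℕ, k ^ p ^ m = 1) → ∀ z ∈ Subgroup.center E, k z = z) ∧
    (∀ α : K ≃* K, ∃ τ : MulAut E, ∀ k : K, τ * (k : MulAut E) * τ⁻¹ = (α k : MulAut E)) ∧
    (∀ S : Subgroup E, S ≤ Subgroup.center E →
      (∀ τ : MulAut E, (∀ k ∈ K, τ * k * τ⁻¹ ∈ K) → ∀ z ∈ S, τ z ∈ S) →
      S = ⊥ ∨ S = Subgroup.center E)

/-! ### Type III : groups `Heis(β) ⋊ H` -/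

/-- The generalised Heisenberg group of a biadditive map `β : V × W → Z`: the set `V × W × Z` with
`(v,w,z)(v',w',z') = (v+v', w+w', z+z'+β(v,w'))`. -/
@[ext] structure Heis {V W Z : Type} [AddCommGroup V] [AddCommGroup W] [AddCommGroup Z]
    (β : V →+ W →+ Z) where
  v : V
  w : W
  z : Z

namespace Heis

variable {V W Z : Type} [AddCommGroup V] [AddCommGroup W] [AddCommGroup Z] {β : V →+ W →+ Z}

instance : Mul (Heis β) := ⟨fun a b => ⟨a.v + b.v, a.w + b.w, a.z + b.z + β a.v b.w⟩⟩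
instance : One (Heis β) := ⟨⟨0, 0, 0⟩⟩
instance : Inv (Heis β) := ⟨fun a => ⟨-a.v, -a.w, -a.z + β a.v a.w⟩⟩

@[simp] theorem mul_v (a b : Heis β) : (a * b).v = a.v + b.v := rfl
@[simp] theorem mul_w (a b : Heis β) : (a * b).w = a.w + b.w := rfl
@[simp] theorem mul_z (a b : Heis β) : (a * b).z = a.z + b.z + β a.v b.w := rfl
@[simp] theorem one_v : (1 : Heis β).v = 0 := rfl
@[simp] theorem one_w : (1 : Heis β).w = 0 := rfl
@[simp] theorem one_z : (1 : Heis β).z = 0 := rfl
@[simp] theorem inv_v (a : Heis β) : (a⁻¹).v = -a.v := rfl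
@[simp] theorem inv_w (a : Heis β) : (a⁻¹).w = -a.w := rfl
@[simp] theorem inv_z (a : Heis β) : (a⁻¹).z = -a.z + β a.v a.w := rfl

instance : Group (Heis β) :=
  Group.ofLeftAxioms
    (by
      intro a b c
      ext
      · simp [add_assoc]
      · simp [add_assoc]
      · simp only [mul_z, mul_v, mul_w, map_add, AddMonoidHom.add_apply]; abel)
    (by intro a; ext <;> simp)
    (by intro a; ext <;> simp)

/-- `Heis β` as a set is `V × W × Z`. -/
def equivProd (β : V →+ W →+ Z) : Heis β ≃ V × W × Z where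
  toFun a := (a.v, a.w, a.z)
  invFun a := ⟨a.1, a.2.1, a.2.2⟩
  left_inv _ := rfl
  right_inv _ := rfl

instance [Finite V] [Finite W] [Finite Z] : Finite (Heis β) :=
  Finite.of_equiv _ (equivProd β).symm

end Heis

section TypeIII

variable (H V W Z : Type) [Group H] [AddCommGroup V] [AddCommGroup W] [AddCommGroup Z]
  [DistribMulAction H V] [DistribMulAction H W] [DistribMulAction H Z]

/-- The action of `H` on `Heis β`, for an `H`-equivariant `β`. -/
def heisAct {H V W Z : Type} [Group H] [AddCommGroup V] [AddCommGroup W] [AddCommGroup Z]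
    [DistribMulAction H V] [DistribMulAction H W] [DistribMulAction H Z]
    (β : V →+ W →+ Z) (hβ : ∀ (h : H) (v : V) (w : W), β (h • v) (h • w) = h • β v w) :
    H →* MulAut (Heis β) where
  toFun h :=
    { toFun := fun a => ⟨h • a.v, h • a.w, h • a.z⟩
      invFun := fun a => ⟨h⁻¹ • a.v, h⁻¹ • a.w, h⁻¹ • a.z⟩
      left_inv := fun a => by ext <;> simp
      right_inv := fun a => by ext <;> simp
      map_mul' := fun a b => by ext <;> simp [smul_add, hβ] }
  map_one' := by ext a <;> simp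
  map_mul' g h := by ext a <;> simp [mul_smul]

/-- `V` is an irreducible `H`-module. -/
def IrredAction (H V : Type) [Group H] [AddCommGroup V] [DistribMulAction H V] : Prop :=
  Nontrivial V ∧ ∀ S : AddSubgroup V, (∀ h : H, ∀ v ∈ S, h • v ∈ S) → S = ⊥ ∨ S = ⊤

/-- A symmetry of the pair `{V, W}` of `H`-modules: an additive automorphism `τ` of `V × W` which
either preserves or interchanges the two summands, and which normalises the image of `H`. -/
def IsSymmetry (H : Type) {V W : Type} [Group H] [AddCommGroup V] [AddCommGroup W]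
    [DistribMulAction H V] [DistribMulAction H W] (τ : (V × W) ≃+ (V × W)) : Prop :=
  (((∀ v : V, (τ (v, 0)).2 = 0) ∧ (∀ w : W, (τ (0, w)).1 = 0)) ∨
    ((∀ v : V, (τ (v, 0)).1 = 0) ∧ (∀ w : W, (τ (0, w)).2 = 0))) ∧
  ∀ h : H, ∃ h' : H, ∀ x : V × W, τ (h • x) = h' • τ x

/-- The alternating form `((v,w),(v',w')) ↦ β(v,w') - β(v',w)` on `V × W`: this is the commutator
form of `Heis β`. -/
def altForm {V W Z : Type} [AddCommGroup V] [AddCommGroup W] [AddCommGroup Z]
    (β : V →+ W →+ Z) (x y : V × W) : Z := β x.1 y.2 - β y.1 x.2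

/-- `c` is the automorphism of `Z` induced by the symmetry `τ`. -/
def Induces {V W Z : Type} [AddCommGroup V] [AddCommGroup W] [AddCommGroup Z]
    (β : V →+ W →+ Z) (τ : (V × W) ≃+ (V × W)) (c : Z ≃+ Z) : Prop :=
  ∀ x y : V × W, altForm β (τ x) (τ y) = c (altForm β x y)

/-- Type III: `H ∈ 𝔄` is a `p'`-group, `V` and `W` are irreducible `𝔽_p H`-modules, `H` acts
faithfully on `V ⊕ W`, `β : V × W → Z` is biadditive with values generating `Z ≠ 0`, every symmetry
`τ` of `{V, W}` induces an automorphism of `Z`, and no proper non-trivial subgroup of `Z` is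
invariant under all these induced automorphisms. (Equivalently: `Z` is the quotient of `V ⊗ W` by
a maximal subgroup among those invariant under all symmetries.) -/
def IsTypeIII (p : ℕ) {H V W Z : Type} [Group H] [AddCommGroup V] [AddCommGroup W]
    [AddCommGroup Z] [DistribMulAction H V] [DistribMulAction H W]
    (β : V →+ W →+ Z) : Prop :=
  p.Prime ∧ IsAGroup H ∧ ¬ p ∣ Nat.card H ∧
    (∀ v : V, p • v = 0) ∧ (∀ w : W, p • w = 0) ∧
    IrredAction H V ∧ IrredAction H W ∧
    (∀ h : H, (∀ v : V, h • v = v) → (∀ w : W, h • w = w) → h = 1) ∧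
    Nontrivial Z ∧ AddSubgroup.closure {z : Z | ∃ v w, z = β v w} = ⊤ ∧
    (∀ τ : (V × W) ≃+ (V × W), IsSymmetry H τ → ∃ c : Z ≃+ Z, Induces β τ c) ∧
    (∀ S : AddSubgroup Z,
      (∀ τ : (V × W) ≃+ (V × W), IsSymmetry H τ → ∀ c : Z ≃+ Z, Induces β τ c →
        ∀ z ∈ S, c z ∈ S) → S = ⊥ ∨ S = ⊤)

end TypeIII

end Pool.Agent.Helper38.Form
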