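import Pool.Agent.Helper38.Form.Red1

/-!
# Groups of type IV: basic facts
-/

namespace Pool.Agent.Helper38.Form

open Function Subgroup
open scoped commutatorElement

set_option linter.unusedSectionVars false

/-- homomorphisms from a perfect group which agree modulo the centre are equal -/
theorem perf_eq {X E : Type} [Group X] [Group E] (hX : _root_.commutator X = ⊤) (f g : X →* E)
    (h : ∀ x, MulAut.conj (f x) = MulAut.conj (g x)) : f = g := by
  have key : ∀ a b a' b' : E, MulAut.conj a = MulAut.conj a' → MulAut.conj b = MulAut.conj b' →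
      ⁅a, b⁆ = ⁅a', b'⁆ := by
    intro a b a' b' ha hb
    have h1 : a * b * a⁻¹ = a' * b * a'⁻¹ := by
      have := congrArg (fun φ : MulAut E => φ b) ha
      simpa using this
    have h2 : b * a'⁻¹ * b⁻¹ = b' * a'⁻¹ * b'⁻¹ := by
      have := congrArg (fun φ : MulAut E => φ a'⁻¹) hb
      simpa using this
    calc ⁅a, b⁆ = (a * b * a⁻¹) * b⁻¹ := rfl
      _ = a' * (b * a'⁻¹ * b⁻¹) := by rw [h1]; group
      _ = ⁅a', b'⁆ := by rw [h2, commutatorElement_def]; group
  have h1 : _root_.commutator X ≤ f.eqLocus g := by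
    rw [_root_.commutator_def, commutator_le]
    intro x _ y _
    change f ⁅x, y⁆ = g ⁅x, y⁆
    rw [map_commutatorElement, map_commutatorElement]
    exact key _ _ _ _ (h x) (h y)
  rw [hX] at h1
  ext x
  exact h1 (mem_top x)

theorem perf_aut {E : Type} [Group E] (hE : _root_.commutator E = ⊤) (k : MulAut E)
    (h : ∀ e, MulAut.conj (k e) = MulAut.conj e) : k = 1 := by
  have := perf_eq hE k.toMonoidHom (MonoidHom.id E) h
  ext e
  exact congrArg (fun φ : E →* E => φ e) this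

theorem conj_eq_one_iff {E : Type} [Group E] (e : E) : MulAut.conj e = 1 ↔ e ∈ center E := by
  rw [mem_center_iff]
  constructor
  · intro h g
    have := congrArg (fun φ : MulAut E => φ g) h
    simp only [MulAut.conj_apply, MulAut.one_apply] at this
    rw [mul_inv_eq_iff_eq_mul] at this
    exact this.symm
  · intro h
    ext g
    rw [MulAut.conj_apply, ← h g, mul_inv_cancel_right]
    rfl

theorem conj_apply_aut {E : Type} [Group E] (k : MulAut E) (e : E) :
    MulAut.conj (k e) = k * MulAut.conj e * k⁻¹ := by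
  ext x
  simp [MulAut.mul_apply]

section

variable {p : ℕ} {E : Type} [Group E] [Finite E] {K : Subgroup (MulAut E)}

/-- the map `E → K`, `e ↦ conj e` -/
def innK (h : ∀ e : E, MulAut.conj e ∈ K) : E →* K := MonoidHom.codRestrict MulAut.conj K h

@[simp] theorem innK_coe (h : ∀ e : E, MulAut.conj e ∈ K) (e : E) :
    (innK h e : MulAut E) = MulAut.conj e := rfl

/-- the map `E ⋊ K → K`, `(e,k) ↦ conj(e) k` -/
def kap (h : ∀ e : E, MulAut.conj e ∈ K) : Hol E K →* K :=
  SemidirectProduct.lift (innK h) (MonoidHom.id K) (by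
    intro k
    ext1 e
    apply Subtype.ext
    change MulAut.conj ((k : MulAut E) e) = (k : MulAut E) * MulAut.conj e * (k : MulAut E)⁻¹
    exact conj_apply_aut _ _)

theorem kap_apply (h : ∀ e : E, MulAut.conj e ∈ K) (g : Hol E K) :
    kap h g = innK h g.left * g.right := rfl

theorem kap_surjective (h : ∀ e : E, MulAut.conj e ∈ K) : Surjective (kap h) := by
  intro k
  refine ⟨⟨1, k⟩, ?_⟩
  rw [kap_apply, map_one, one_mul]

/-- a nontrivial normal subgroup of `K` contains `Inn(E)` -/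
theorem inn_le (hp : IsTypeIV' p E K) (hi : ∀ e : E, MulAut.conj e ∈ K) (L : Subgroup K)
    (hL : L.Normal) (hne : L ≠ ⊥) :
    (innK hi).range ≤ L := by
  obtain ⟨-, hperf, -, -, hmin, -, -, -⟩ := hp
  let R : Subgroup E := L.comap (innK hi)
  rcases hmin R (by
    intro k hk x hx
    change innK hi (k x) ∈ L
    have : innK hi (k x) = ⟨k, hk⟩ * innK hi x * ⟨k, hk⟩⁻¹ :=
      Subtype.ext (conj_apply_aut k x)
    rw [this]
    exact hL.conj_mem _ hx _) with hR | hR
  · exfalso
    apply hne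
    rw [eq_bot_iff]
    intro l hl
    rw [mem_bot]
    apply Subtype.ext
    apply perf_aut hperf
    intro e
    have h1 : innK hi ((l : MulAut E) e * e⁻¹) ∈ L := by
      have : innK hi ((l : MulAut E) e * e⁻¹) = l * (innK hi e * l⁻¹ * (innK hi e)⁻¹) := by
        apply Subtype.ext
        change MulAut.conj ((l : MulAut E) e * e⁻¹) = (l : MulAut E) * (MulAut.conj e *
          (l : MulAut E)⁻¹ * (MulAut.conj e)⁻¹)
        rw [map_mul, map_inv, conj_apply_aut]
        group
      rw [this]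
      exact L.mul_mem hl (hL.conj_mem _ (L.inv_mem hl) _)
    have h2 : (l : MulAut E) e * e⁻¹ ∈ center E := hR h1
    rw [← conj_eq_one_iff, map_mul, map_inv, mul_inv_eq_one] at h2
    exact h2
  · rintro _ ⟨e, rfl⟩
    have : e ∈ R := by rw [hR]; exact mem_top e
    exact this

theorem inn_perfect (hE : _root_.commutator E = ⊤) (hi : ∀ e : E, MulAut.conj e ∈ K) :
    ⁅(innK hi).range, (innK hi).range⁆ = (innK hi).range := by
  rw [MonoidHom.range_eq_map, ← map_commutator, ← _root_.commutator_def, hE]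

theorem inn_normal (hi : ∀ e : E, MulAut.conj e ∈ K) : (innK hi).range.Normal := by
  refine ⟨?_⟩
  rintro _ ⟨e, rfl⟩ k
  exact ⟨(k : MulAut E) e, Subtype.ext (conj_apply_aut _ _)⟩

theorem innK_eq_one_iff (hi : ∀ e : E, MulAut.conj e ∈ K) (e : E) :
    innK hi e = 1 ↔ e ∈ center E := by
  rw [← conj_eq_one_iff]
  exact ⟨fun h => congrArg Subtype.val h, fun h => Subtype.ext h⟩

theorem center_ne_top (hp : IsTypeIV' p E K) : center E ≠ ⊤ := by
  intro h1
  obtain ⟨-, hperf, -, -, -, hcb, -, -⟩ := hp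
  apply hcb
  have h2 : _root_.commutator E = ⊥ := by
    rw [_root_.commutator_def, commutator_eq_bot_iff_le_centralizer]
    intro x _
    rw [mem_centralizer_iff]
    intro y _
    exact mem_center_iff.1 (by rw [h1]; exact mem_top x) y
  rw [h1, ← hperf, h2]

theorem inn_ne_bot (hp : IsTypeIV' p E K) (hi : ∀ e : E, MulAut.conj e ∈ K) :
    (innK hi).range ≠ ⊥ := by
  intro hb
  apply center_ne_top hp
  rw [eq_top_iff]
  intro e _
  rw [← innK_eq_one_iff hi]
  have : innK hi e ∈ (innK hi).range := ⟨e, rfl⟩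
  rw [hb, mem_bot] at this
  exact this

/-- a `p`-element of `K` fixes the centre -/
theorem kfix (hp : IsTypeIV' p E K) {k : MulAut E} (hk : k ∈ K) (h : PEl p k) {z : E}
    (hz : z ∈ center E) : k z = z := hp.2.2.2.2.2.2.2 k hk h z hz

theorem inn_fix {e z : E} (hz : z ∈ center E) : MulAut.conj e z = z := by
  rw [MulAut.conj_apply, mem_center_iff.1 hz e, mul_inv_cancel_right]

theorem PEl.coe {G : Type} [Group G] {H : Subgroup G} {x : H} (h : PEl p x) :
    PEl p (x : G) := h.map H.subtype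

/-- The elements of a Sylow subgroup `P` of `E ⋊ K` both of whose images in `K` lie in the
canonical complements commute. -/
theorem comm_of_cset (hp : IsTypeIV' p E K) (hi : ∀ e : E, MulAut.conj e ∈ K) [Fact p.Prime]
    (P : Sylow p (Hol E K))
    {g h : Hol E K} (hg : g ∈ P) (hh : h ∈ P)
    (hg1 : g.right ∈ Cset ((P : Subgroup (Hol E K)).map SemidirectProduct.rightHom)
      (innK hi).range)
    (hg2 : kap hi g ∈ Cset ((P : Subgroup (Hol E K)).map (kap hi)) (innK hi).range)
    (hh1 : h.right ∈ Cset ((P : Subgroup (Hol E K)).map SemidirectProduct.rightHom)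
      (innK hi).range)
    (hh2 : kap hi h ∈ Cset ((P : Subgroup (Hol E K)).map (kap hi)) (innK hi).range) :
    g * h = h * g := by
  have hKA : IsAGroup K := hp.2.2.2.1
  let Pf : Sylow p K := P.mapSurjective SemidirectProduct.rightHom_surjective
  let Pt : Sylow p K := P.mapSurjective (kap_surjective hi)
  have hPf : (Pf : Subgroup K) = (P : Subgroup (Hol E K)).map SemidirectProduct.rightHom := rfl
  have hPt : (Pt : Subgroup K) = (P : Subgroup (Hol E K)).map (kap hi) := rfl
  rw [← hPf] at hg1 hh1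
  rw [← hPt] at hg2 hh2
  let St : Subgroup (Hol E K) :=
    (Pf : Subgroup K).comap SemidirectProduct.rightHom ⊓ (Pf : Subgroup K).comap (kap hi)
  have hStp : IsPGroup p St := by
    rintro ⟨u, hu1, hu2⟩
    obtain ⟨a, ha⟩ := pEl_of_mem Pf.2 hu1
    obtain ⟨b, hb⟩ := pEl_of_mem Pf.2 hu2
    have h1 : (u ^ p ^ (a + b)).right = 1 := by
      change SemidirectProduct.rightHom (u ^ p ^ (a + b)) = 1
      rw [map_pow, pow_add, pow_mul, ha, one_pow]
    have h2 : kap hi (u ^ p ^ (a + b)) = 1 := by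
      rw [map_pow, pow_add, mul_comm, pow_mul, hb, one_pow]
    rw [kap_apply, h1, mul_one, innK_eq_one_iff] at h2
    obtain ⟨c, hc⟩ := hp.2.2.2.2.2.2.1 ⟨_, h2⟩
    have hc' : (u ^ p ^ (a + b)).left ^ p ^ c = 1 := congrArg Subtype.val hc
    have h3 : u ^ p ^ (a + b) = SemidirectProduct.inl (u ^ p ^ (a + b)).left := by
      ext1
      · rfl
      · exact h1
    refine ⟨a + b + c, Subtype.ext ?_⟩
    change u ^ p ^ (a + b + c) = 1
    rw [pow_add p (a + b) c, pow_mul, h3, ← map_pow, hc', map_one]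
  obtain ⟨Q, hQ⟩ := hStp.exists_le_sylow
  have hQ1 : (Q : Subgroup (Hol E K)).map SemidirectProduct.rightHom = (Pf : Subgroup K) := by
    apply Pf.3 (Q.2.map _)
    intro k hk
    exact ⟨⟨1, k⟩, hQ ⟨hk, by
      change kap hi ⟨1, k⟩ ∈ (Pf : Subgroup K)
      rw [kap_apply, map_one, one_mul]; exact hk⟩, rfl⟩
  have hQ2 : (Q : Subgroup (Hol E K)).map (kap hi) = (Pf : Subgroup K) := by
    apply Pf.3 (Q.2.map _)
    intro k hk
    exact ⟨⟨1, k⟩, hQ ⟨hk, by
      change kap hi ⟨1, k⟩ ∈ (Pf : Subgroup K)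
      rw [kap_apply, map_one, one_mul]; exact hk⟩, by
      rw [kap_apply, map_one, one_mul]⟩
  obtain ⟨g₀, hg₀⟩ := MulAction.exists_smul_eq (Hol E K) Q P
  have hconj : ∀ x, x ∈ P ↔ g₀⁻¹ * x * g₀ ∈ Q := by
    intro x
    rw [← hg₀, ← SetLike.mem_coe, Sylow.coe_smul, Set.mem_smul_set_iff_inv_smul_mem]
    simp [MulAut.smul_def]
  have hf : ∀ x, x ∈ (Pf : Subgroup K) ↔ MulAut.conj (g₀.right)⁻¹ x ∈ (Pf : Subgroup K) := by
    intro x
    constructor
    · rintro ⟨y, hy, rfl⟩
      rw [← hQ1]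
      refine ⟨g₀⁻¹ * y * g₀, (hconj y).1 hy, ?_⟩
      simp [MulAut.conj_apply]
    · intro hx
      rw [← hQ1] at hx
      obtain ⟨q, hq, hqx⟩ := hx
      refine ⟨g₀ * q * g₀⁻¹, (hconj _).2 ?_, ?_⟩
      · have : g₀⁻¹ * (g₀ * q * g₀⁻¹) * g₀ = q := by group
        rw [this]; exact hq
      · rw [MulAut.conj_apply] at hqx
        change (g₀.right) * q.right * (g₀.right)⁻¹ = x
        have hqx' : q.right = (g₀.right)⁻¹ * x * (g₀.right)⁻¹⁻¹ := hqx
        rw [hqx']; group
  have ht : ∀ x, x ∈ (Pt : Subgroup K) ↔ MulAut.conj (kap hi g₀)⁻¹ x ∈ (Pf : Subgroup K) := by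
    intro x
    constructor
    · rintro ⟨y, hy, rfl⟩
      rw [← hQ2]
      refine ⟨g₀⁻¹ * y * g₀, (hconj y).1 hy, ?_⟩
      simp [MulAut.conj_apply]
    · intro hx
      rw [← hQ2] at hx
      obtain ⟨q, hq, hqx⟩ := hx
      refine ⟨g₀ * q * g₀⁻¹, (hconj _).2 ?_, ?_⟩
      · have : g₀⁻¹ * (g₀ * q * g₀⁻¹) * g₀ = q := by group
        rw [this]; exact hq
      · rw [MulAut.conj_apply] at hqx
        rw [map_mul, map_mul, map_inv, hqx]; group
  have hnorm := inn_normal hi
  have hM : ∀ (c x : K), x ∈ (innK hi).range ↔ MulAut.conj c x ∈ (innK hi).range := by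
    intro c x
    constructor
    · intro hx
      exact hnorm.conj_mem x hx c
    · intro hx
      have := hnorm.conj_mem _ hx c⁻¹
      simpa [MulAut.conj_apply, mul_assoc] using this
  have hPab : ∀ x ∈ Pf, ∀ y ∈ Pf, x * y = y * x := hKA p Fact.out Pf
  have key : ∀ g : Hol E K, g ∈ P → g.right ∈ Cset (Pf : Subgroup K) (innK hi).range →
      kap hi g ∈ Cset (Pt : Subgroup K) (innK hi).range →
      (g₀⁻¹ * g * g₀).left ∈ center E ∧ (g₀⁻¹ * g * g₀).right ∈ Pf := by
    intro g hg hg1 hg2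
    have h1 := cset_map (MulAut.conj (g₀.right)⁻¹) (hM _) hf hg1
    have h2 := cset_map (MulAut.conj (kap hi g₀)⁻¹) (hM _) ht hg2
    have e1 : MulAut.conj (g₀.right)⁻¹ g.right = (g₀⁻¹ * g * g₀).right := by
      simp [MulAut.conj_apply]
    have e2 : MulAut.conj (kap hi g₀)⁻¹ (kap hi g) = kap hi (g₀⁻¹ * g * g₀) := by
      simp [MulAut.conj_apply]
    rw [e1] at h1
    rw [e2] at h2
    refine ⟨?_, h1.1⟩
    rw [← innK_eq_one_iff hi]
    have h3 : innK hi (g₀⁻¹ * g * g₀).left = kap hi (g₀⁻¹ * g * g₀) *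
        ((g₀⁻¹ * g * g₀).right)⁻¹ := by
      rw [kap_apply, mul_inv_cancel_right]
    refine cset_inf Pf hPab (innK hi).range (inn_perfect hp.2.1 hi) ⟨_, rfl⟩ ?_
    rw [h3]
    exact cset_mul h2 (cset_inv h1)
  obtain ⟨a1, a2⟩ := key g hg hg1 hg2
  obtain ⟨b1, b2⟩ := key h hh hh1 hh2
  have hfix : ∀ u w : Hol E K, u.right ∈ Pf → w.left ∈ center E →
      (K.subtype u.right) w.left = w.left := fun u w hu hw =>
    kfix hp u.right.2 ((pEl_of_mem Pf.2 hu).coe) hw
  have h4 : (g₀⁻¹ * g * g₀) * (g₀⁻¹ * h * g₀) = (g₀⁻¹ * h * g₀) * (g₀⁻¹ * g * g₀) := by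
    generalize g₀⁻¹ * g * g₀ = u at a1 a2 ⊢
    generalize g₀⁻¹ * h * g₀ = w at b1 b2 ⊢
    ext1
    · rw [SemidirectProduct.mul_left, SemidirectProduct.mul_left, hfix u w a2 b1,
        hfix w u b2 a1]
      exact mem_center_iff.1 b1 _
    · exact hPab _ a2 _ b2
  calc g * h = g₀ * ((g₀⁻¹ * g * g₀) * (g₀⁻¹ * h * g₀)) * g₀⁻¹ := by group
    _ = h * g := by rw [h4]; group

end

end Pool.Agent.Helper38.Form
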