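import Pool.Agent.Helper38.Form.IVa

/-!
# Independence of non-equivalent homomorphisms onto a group with a perfect monolith
-/

namespace Pool.Agent.Helper38.Form

open Function Subgroup
open scoped commutatorElement

set_option linter.unusedSectionVars false

theorem exists_aut_of_ker_eq {D K : Type} [Group D] [Group K] (f g : D →* K) (hf : Surjective f)
    (hg : Surjective g) (h : f.ker = g.ker) : ∃ α : K ≃* K, ∀ d, g d = α (f d) := by
  let e1 := QuotientGroup.quotientKerEquivOfSurjective f hf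
  let e2 := QuotientGroup.quotientKerEquivOfSurjective g hg
  let e3 := QuotientGroup.quotientMulEquivOfEq h
  refine ⟨e1.symm.trans (e3.trans e2), fun d => ?_⟩
  have h1 : e1.symm (f d) = (QuotientGroup.mk d : D ⧸ f.ker) := by
    rw [MulEquiv.symm_apply_eq]; rfl
  change g d = e2 (e3 (e1.symm (f d)))
  rw [h1]
  rfl

section

variable {D K J : Type} [Group D] [Finite D] [Group K] [Finite K] [Finite J]
  (Mb : Subgroup K) (f : J → D →* K)

/-- the hypothesis of this section -/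
structure Indep : Prop where
  perf : ⁅Mb, Mb⁆ = Mb
  nor : Mb.Normal
  ne : Mb ≠ ⊥
  mono : ∀ L : Subgroup K, L.Normal → L ≠ ⊥ → Mb ≤ L
  surj : ∀ j, Surjective (f j)

variable {Mb f}

theorem Indep.char (h : Indep Mb f) (α : K ≃* K) (x : K) : x ∈ Mb ↔ α x ∈ Mb := by
  have key : ∀ β : K ≃* K, ∀ y, y ∈ Mb → β y ∈ Mb := by
    intro β y hy
    have hn : (Mb.comap β.toMonoidHom).Normal := h.nor.comap _
    have hb : Mb.comap β.toMonoidHom ≠ ⊥ := by
      intro hb
      apply h.ne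
      rw [eq_bot_iff]
      intro z hz
      have h1 : β.symm z ∈ Mb.comap β.toMonoidHom := by
        change β (β.symm z) ∈ Mb
        rwa [MulEquiv.apply_symm_apply]
      rw [hb, mem_bot] at h1
      rw [mem_bot, ← β.apply_symm_apply z, h1, map_one]
    exact h.mono _ hn hb hy
  refine ⟨key α x, fun hx => ?_⟩
  have := key α.symm _ hx
  rwa [MulEquiv.symm_apply_apply] at this

theorem Indep.kerMap (h : Indep Mb f) {j j₀ : J} (hne : (f j).ker ≠ (f j₀).ker) :
    Mb ≤ (f j).ker.map (f j₀) := by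
  refine h.mono _ ((inferInstance : (f j).ker.Normal).map _ (h.surj j₀)) ?_
  intro hb
  apply hne
  have hle : (f j).ker ≤ (f j₀).ker := by
    rw [← Subgroup.map_eq_bot_iff]; exact hb
  refine eq_of_le_of_card_ge hle ?_
  have h1 : ∀ j, Nat.card D = Nat.card K * Nat.card (f j).ker := by
    intro j
    rw [card_eq_card_quotient_mul_card_subgroup (f j).ker,
      Nat.card_congr (QuotientGroup.quotientKerEquivOfSurjective (f j) (h.surj j)).toEquiv]
  have h2 := (h1 j).symm.trans (h1 j₀)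
  exact (Nat.eq_of_mul_eq_mul_left Nat.card_pos h2).ge

theorem Indep.indep (h : Indep Mb f) (j₀ : J) {m : K} (hm : m ∈ Mb) :
    ∃ d : D, f j₀ d = m ∧ ∀ j, (f j).ker ≠ (f j₀).ker → f j d = 1 := by
  classical
  have := Fintype.ofFinite J
  have key : ∀ s : Finset J, (∀ j ∈ s, (f j).ker ≠ (f j₀).ker) →
      ∃ A : Subgroup D, A.Normal ∧ Mb ≤ A.map (f j₀) ∧ ∀ j ∈ s, A ≤ (f j).ker := by
    intro s
    induction s using Finset.induction_on with
    | empty =>
      intro _
      refine ⟨⊤, inferInstance, ?_, by simp⟩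
      rw [← MonoidHom.range_eq_map, MonoidHom.range_eq_top.2 (h.surj j₀)]
      exact le_top
    | insert j s hj ih =>
      intro hs
      obtain ⟨A, hA, hA1, hA2⟩ := ih (fun j hj => hs j (Finset.mem_insert_of_mem hj))
      refine ⟨⁅A, (f j).ker⁆, inferInstance, ?_, ?_⟩
      · rw [map_commutator, ← h.perf]
        exact commutator_mono hA1 (h.kerMap (hs j (Finset.mem_insert_self j s)))
      · intro j' hj'
        rcases Finset.mem_insert.1 hj' with rfl | hj'
        · exact commutator_le_right _ _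
        · exact (commutator_le_left _ _).trans (hA2 j' hj')
  obtain ⟨A, -, hA1, hA2⟩ := key (Finset.univ.filter (fun j => (f j).ker ≠ (f j₀).ker))
    (fun j hj => (Finset.mem_filter.1 hj).2)
  obtain ⟨d, hd, hdm⟩ := hA1 hm
  exact ⟨d, hdm, fun j hj => hA2 j (Finset.mem_filter.2 ⟨Finset.mem_univ j, hj⟩) hd⟩

/-- elements with values in `Mb` on the class of `j₀` and trivial values elsewhere -/
def Sg (Mb : Subgroup K) (f : J → D →* K) (j₀ : J) : Subgroup D :=
  { carrier := {d | ∀ j, ((f j).ker = (f j₀).ker → f j d ∈ Mb) ∧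
      ((f j).ker ≠ (f j₀).ker → f j d = 1)}
    mul_mem' := by
      intro a b ha hb j
      refine ⟨fun h => ?_, fun h => ?_⟩
      · rw [map_mul]; exact Mb.mul_mem ((ha j).1 h) ((hb j).1 h)
      · rw [map_mul, (ha j).2 h, (hb j).2 h, one_mul]
    one_mem' := fun j => ⟨fun _ => by rw [map_one]; exact Mb.one_mem, fun _ => map_one _⟩
    inv_mem' := by
      intro a ha j
      refine ⟨fun h => ?_, fun h => ?_⟩
      · rw [map_inv]; exact Mb.inv_mem ((ha j).1 h)
      · rw [map_inv, (ha j).2 h, inv_one] }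

theorem Indep.sg_normal (h : Indep Mb f) (j₀ : J) : (Sg Mb f j₀).Normal := by
  refine ⟨?_⟩
  intro a ha g j
  refine ⟨fun h' => ?_, fun h' => ?_⟩
  · rw [map_mul, map_mul, map_inv]; exact h.nor.conj_mem _ ((ha j).1 h') _
  · rw [map_mul, map_mul, map_inv, (ha j).2 h', mul_one, mul_inv_cancel]

theorem Indep.sg_surj (h : Indep Mb f) (j₀ : J) {m : K} (hm : m ∈ Mb) :
    ∃ d ∈ Sg Mb f j₀, f j₀ d = m := by
  obtain ⟨d, hd, hd'⟩ := h.indep j₀ hm
  refine ⟨d, fun j => ⟨fun hj => ?_, hd' j⟩, hd⟩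
  obtain ⟨α, hα⟩ := exists_aut_of_ker_eq (f j₀) (f j) (h.surj _) (h.surj _) hj.symm
  rw [hα, hd]
  exact (h.char α m).1 hm

theorem Indep.sg_map (h : Indep Mb f) (j₀ : J) : (Sg Mb f j₀).map (f j₀) = Mb := by
  apply le_antisymm
  · rintro _ ⟨d, hd, rfl⟩
    exact (hd j₀).1 rfl
  · intro m hm
    obtain ⟨d, hd, hdm⟩ := h.sg_surj j₀ hm
    exact ⟨d, hd, hdm⟩

/-- the perfect normal subgroup attached to the class of `j₀` -/
def Eg (Mb : Subgroup K) (f : J → D →* K) (j₀ : J) : Subgroup D := ⁅Sg Mb f j₀, Sg Mb f j₀⁆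

theorem eg_le (j₀ : J) : Eg Mb f j₀ ≤ Sg Mb f j₀ := by
  rw [Eg, commutator_le]
  intro a ha b hb
  exact (Sg Mb f j₀).mul_mem ((Sg Mb f j₀).mul_mem ((Sg Mb f j₀).mul_mem ha hb)
    ((Sg Mb f j₀).inv_mem ha)) ((Sg Mb f j₀).inv_mem hb)

theorem Indep.eg_normal (h : Indep Mb f) (j₀ : J) : (Eg Mb f j₀).Normal := by
  have := h.sg_normal j₀
  exact (inferInstance : (⁅Sg Mb f j₀, Sg Mb f j₀⁆).Normal)

theorem Indep.eg_map (h : Indep Mb f) (j₀ : J) : (Eg Mb f j₀).map (f j₀) = Mb := by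
  rw [Eg, map_commutator, h.sg_map, h.perf]

theorem Indep.eg_surj (h : Indep Mb f) (j₀ : J) {m : K} (hm : m ∈ Mb) :
    ∃ d ∈ Eg Mb f j₀, f j₀ d = m := by
  rw [← h.eg_map j₀] at hm
  obtain ⟨d, hd, hdm⟩ := hm
  exact ⟨d, hd, hdm⟩

theorem sg_congr {j j₀ : J} (h : (f j).ker = (f j₀).ker) : Sg Mb f j = Sg Mb f j₀ := by
  ext d
  change (∀ i, ((f i).ker = (f j).ker → f i d ∈ Mb) ∧ ((f i).ker ≠ (f j).ker → f i d = 1)) ↔
    (∀ i, ((f i).ker = (f j₀).ker → f i d ∈ Mb) ∧ ((f i).ker ≠ (f j₀).ker → f i d = 1))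
  rw [h]

theorem eg_congr {j j₀ : J} (h : (f j).ker = (f j₀).ker) : Eg Mb f j = Eg Mb f j₀ := by
  rw [Eg, Eg, sg_congr h]

/-- simultaneous lifting of a compatible family of elements of `Mb` -/
theorem Indep.lift (h : Indep Mb f) (m : J → K) (hm : ∀ j, m j ∈ Mb)
    (hc : ∀ (j j' : J) (α : K ≃* K), (∀ d, f j' d = α (f j d)) → m j' = α (m j)) :
    ∃ s ∈ ⨆ j, Eg Mb f j, ∀ j, f j s = m j := by
  classical
  have := Fintype.ofFinite (Subgroup D)
  have key : ∀ T : Finset (Subgroup D), ∃ s ∈ ⨆ j, Eg Mb f j,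
      ∀ j, ((f j).ker ∈ T → f j s = m j) ∧ ((f j).ker ∉ T → f j s = 1) := by
    intro T
    induction T using Finset.induction_on with
    | empty => exact ⟨1, one_mem _, fun j => ⟨fun h => by simp at h, fun _ => map_one _⟩⟩
    | insert L T hL ih =>
      obtain ⟨s, hs, hs'⟩ := ih
      by_cases hex : ∃ j₀, (f j₀).ker = L
      · obtain ⟨j₀, rfl⟩ := hex
        obtain ⟨d, hd, hd'⟩ := h.eg_surj j₀ (hm j₀)
        refine ⟨d * s, mul_mem (mem_iSup_of_mem j₀ hd) hs, fun j => ⟨fun hj => ?_, fun hj => ?_⟩⟩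
        · rcases Finset.mem_insert.1 hj with hj | hj
          · obtain ⟨α, hα⟩ := exists_aut_of_ker_eq (f j₀) (f j) (h.surj _) (h.surj _) hj.symm
            rw [map_mul, (hs' j).2 (by rw [hj]; exact hL), mul_one, hα, hd']
            exact (hc j₀ j α hα).symm
          · rw [map_mul, (hs' j).1 hj, (eg_le j₀ hd j).2 (fun h' => hL (h' ▸ hj)), one_mul]
        · rw [Finset.mem_insert, not_or] at hj
          rw [map_mul, (hs' j).2 hj.2, (eg_le j₀ hd j).2 hj.1, one_mul]
      · refine ⟨s, hs, fun j => ⟨fun hj => ?_, fun hj => ?_⟩⟩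
        · rcases Finset.mem_insert.1 hj with hj | hj
          · exact absurd ⟨j, hj⟩ hex
          · exact (hs' j).1 hj
        · exact (hs' j).2 (fun h' => hj (Finset.mem_insert_of_mem h'))
  obtain ⟨s, hs, hs'⟩ := key Finset.univ
  exact ⟨s, hs, fun j => (hs' j).1 (Finset.mem_univ _)⟩

/-- the joint kernel -/
def Zg (f : J → D →* K) : Subgroup D := ⨅ j, (f j).ker

theorem mem_Zg {d : D} : d ∈ Zg f ↔ ∀ j, f j d = 1 := by
  rw [Zg, mem_iInf]; rfl

theorem Indep.decomp (h : Indep Mb f) {z : D} (hz : z ∈ ⨆ j, Eg Mb f j) (hz' : z ∈ Zg f) :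
    z ∈ ⨆ j, (Eg Mb f j ⊓ Zg f) := by
  classical
  have := Fintype.ofFinite (Subgroup D)
  have key : ∀ T : Finset (Subgroup D), ∀ z ∈ (⨆ j : {j : J // (f j).ker ∈ T}, Eg Mb f j.1),
      z ∈ Zg f → z ∈ ⨆ j, (Eg Mb f j ⊓ Zg f) := by
    intro T
    induction T using Finset.induction_on with
    | empty =>
      intro z hz _
      have : IsEmpty {j : J // (f j).ker ∈ (∅ : Finset (Subgroup D))} := ⟨fun j => by
        simpa using j.2⟩
      rw [iSup_of_empty, mem_bot] at hz
      rw [hz]; exact one_mem _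
    | insert L T hL ih =>
      intro z hz hzZ
      by_cases hex : ∃ j₀, (f j₀).ker = L
      · obtain ⟨j₀, rfl⟩ := hex
        have hle : (⨆ j : {j : J // (f j).ker ∈ insert (f j₀).ker T}, Eg Mb f j.1) ≤
            Eg Mb f j₀ ⊔ ⨆ j : {j : J // (f j).ker ∈ T}, Eg Mb f j.1 := by
          apply iSup_le
          rintro ⟨j, hj⟩
          rcases Finset.mem_insert.1 hj with hj | hj
          · rw [eg_congr hj]; exact le_sup_left
          · exact le_sup_of_le_right (le_iSup (fun j : {j : J // (f j).ker ∈ T} => Eg Mb f j.1)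
              ⟨j, hj⟩)
        have hn := h.eg_normal j₀
        obtain ⟨e, he, z', hz', hez⟩ := mem_sup_of_normal_left.1 (hle hz)
        have hz'f : ∀ j, (f j).ker = (f j₀).ker → f j z' = 1 := by
          intro j hj
          have h1 : (⨆ j : {j : J // (f j).ker ∈ T}, Eg Mb f j.1) ≤ (f j).ker := by
            apply iSup_le
            rintro ⟨i, hi⟩ x hx
            exact (eg_le i hx j).2 (fun h' => hL (by rw [← hj, h']; exact hi))
          exact h1 hz'
        have heZ : e ∈ Zg f := by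
          rw [mem_Zg]
          intro j
          by_cases hj : (f j).ker = (f j₀).ker
          · have h1 := mem_Zg.1 hzZ j
            rw [← hez, map_mul, hz'f j hj, mul_one] at h1
            exact h1
          · exact (eg_le j₀ he j).2 hj
        have hz'Z : z' ∈ Zg f := by
          have : z' = e⁻¹ * z := by rw [← hez, inv_mul_cancel_left]
          rw [this]
          exact mul_mem (inv_mem heZ) hzZ
        rw [← hez]
        exact mul_mem (mem_iSup_of_mem j₀ ⟨he, heZ⟩) (ih z' hz' hz'Z)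
      · have hle : (⨆ j : {j : J // (f j).ker ∈ insert L T}, Eg Mb f j.1) ≤
            ⨆ j : {j : J // (f j).ker ∈ T}, Eg Mb f j.1 := by
          apply iSup_le
          rintro ⟨j, hj⟩
          rcases Finset.mem_insert.1 hj with hj | hj
          · exact absurd ⟨j, hj⟩ hex
          · exact le_iSup (fun j : {j : J // (f j).ker ∈ T} => Eg Mb f j.1) ⟨j, hj⟩
        exact ih z (hle hz) hzZ
  refine key Finset.univ z ?_ hz'
  have hle : (⨆ j, Eg Mb f j) ≤
      ⨆ j : {j : J // (f j).ker ∈ (Finset.univ : Finset (Subgroup D))}, Eg Mb f j.1 := by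
    apply iSup_le
    intro j
    exact le_iSup (fun j : {j : J // (f j).ker ∈ (Finset.univ : Finset (Subgroup D))} =>
      Eg Mb f j.1) ⟨j, Finset.mem_univ _⟩
  exact hle hz

/-- `Eg` is perfect if the joint kernel is centralised by `Sg` -/
theorem Indep.eg_perfect (h : Indep Mb f) (j₀ : J)
    (hcen : ∀ s ∈ Sg Mb f j₀, ∀ z ∈ Zg f, s * z = z * s) :
    ⁅Eg Mb f j₀, Eg Mb f j₀⁆ = Eg Mb f j₀ := by
  apply le_antisymm
  · have := h.eg_normal j₀
    exact commutator_le_left _ _
  · conv_lhs => rw [Eg]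
    rw [commutator_le]
    have key : ∀ s ∈ Sg Mb f j₀, ∃ e ∈ Eg Mb f j₀, ∃ z ∈ Zg f, s = e * z := by
      intro s hs
      obtain ⟨e, he, hes⟩ := h.eg_surj j₀ ((hs j₀).1 rfl)
      refine ⟨e, he, e⁻¹ * s, ?_, by group⟩
      rw [mem_Zg]
      intro j
      by_cases hj : (f j).ker = (f j₀).ker
      · have : e⁻¹ * s ∈ (f j₀).ker := by
          rw [MonoidHom.mem_ker, map_mul, map_inv, hes, inv_mul_cancel]
        rw [← hj] at this
        exact this
      · rw [map_mul, map_inv, (eg_le j₀ he j).2 hj, (hs j).2 hj, inv_one, one_mul]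
    intro s hs t ht
    obtain ⟨a, ha, z, hz, rfl⟩ := key s hs
    obtain ⟨b, hb, w, hw, rfl⟩ := key t ht
    have h1 : ∀ s ∈ Sg Mb f j₀, ∀ z ∈ Zg f, s * z = z * s := hcen
    have hza : a * z = z * a := h1 a (eg_le j₀ ha) z hz
    have hzb : b * z = z * b := h1 b (eg_le j₀ hb) z hz
    have hwa : a * w = w * a := h1 a (eg_le j₀ ha) w hw
    have hwb : b * w = w * b := h1 b (eg_le j₀ hb) w hw
    have hzt : (b * w) * z = z * (b * w) := h1 _ ht z hz
    have e1 : ⁅a * z, b * w⁆ = ⁅a, b⁆ := by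
      have c1 : a * z * (b * w) * (a * z)⁻¹ = a * (b * w) * a⁻¹ := by
        have : a * z * (b * w) * (a * z)⁻¹ = a * (z * (b * w)) * z⁻¹ * a⁻¹ := by group
        rw [this, ← hzt]; group
      have c2 : a * (b * w) * a⁻¹ * (b * w)⁻¹ = a * b * (w * a⁻¹ * w⁻¹) * b⁻¹ := by group
      have c3 : w * a⁻¹ * w⁻¹ = a⁻¹ := by
        have : w * a⁻¹ * w⁻¹ = (w * a * w⁻¹)⁻¹ := by group
        rw [this, ← hwa, mul_inv_cancel_right]
      rw [commutatorElement_def, c1, c2, c3, commutatorElement_def]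
    rw [e1]
    exact commutator_mem_commutator ha hb

end

end Pool.Agent.Helper38.Form
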