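import Pool.Agent.Helper38.Form.IVb
import Pool.Agent.Helper38.Form.BOne

/-!
# Minimality for type IV
-/

namespace Pool.Agent.Helper38.Form

open Function Subgroup
open scoped commutatorElement

set_option linter.unusedSectionVars false

theorem pEl_family {p : ℕ} {ι D : Type} [Finite ι] [Group D] {G : ι → Type} [∀ i, Group (G i)]
    (f : ∀ i, D →* G i) {d : D} (h : ∀ i, PEl p (f i d)) : ∃ k : ℕ, ∀ i, f i (d ^ p ^ k) = 1 := by
  classical
  have := Fintype.ofFinite ι
  choose k hk using h
  refine ⟨∑ i, k i, fun i => ?_⟩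
  obtain ⟨m, hm⟩ := pow_dvd_pow p (Finset.single_le_sum (fun i _ => Nat.zero_le (k i))
    (Finset.mem_univ i))
  rw [hm, pow_mul, map_pow, map_pow, hk, one_pow]

theorem pEl_of_pow {p : ℕ} {D : Type} [Group D] {d : D} {k : ℕ} (h : PEl p (d ^ p ^ k)) :
    PEl p d := by
  obtain ⟨l, hl⟩ := h
  exact ⟨k + l, by rw [pow_add, pow_mul, hl]⟩

theorem isPGroup_of_pEl {p : ℕ} {D : Type} [Group D] {H : Subgroup D} (h : ∀ x ∈ H, PEl p x) :
    IsPGroup p H := by
  rintro ⟨x, hx⟩
  obtain ⟨k, hk⟩ := h x hx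
  exact ⟨k, Subtype.ext hk⟩

section

variable {p : ℕ} {E : Type} [Group E] [Finite E] {K : Subgroup (MulAut E)}
  {ι D : Type} [Finite ι] [Group D] [Finite D]

/-- the two families of maps `D → K` -/
def fm (hi : ∀ e : E, MulAut.conj e ∈ K) (π : ι → D →* Hol E K) (j : ι × Bool) : D →* K :=
  match j.2 with
  | true => (kap hi).comp (π j.1)
  | false => SemidirectProduct.rightHom.comp (π j.1)

theorem fm_indep (hp : IsTypeIV' p E K) (hi : ∀ e : E, MulAut.conj e ∈ K)
    (π : ι → D →* Hol E K) (hπ : ∀ i, Surjective (π i)) :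
    Indep (innK hi).range (fm hi π) where
  perf := inn_perfect hp.2.1 hi
  nor := inn_normal hi
  ne := inn_ne_bot hp hi
  mono := fun L hL hne => inn_le hp hi L hL hne
  surj := by
    rintro ⟨i, _ | _⟩
    · exact SemidirectProduct.rightHom_surjective.comp (hπ i)
    · exact (kap_surjective hi).comp (hπ i)

theorem mem_Zg_fm (hi : ∀ e : E, MulAut.conj e ∈ K) (π : ι → D →* Hol E K) {z : D}
    (hz : z ∈ Zg (fm hi π)) (i : ι) : (π i z).right = 1 ∧ (π i z).left ∈ center E := by
  have h1 : (π i z).right = 1 := mem_Zg.1 hz (i, false)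
  have h2 : kap hi (π i z) = 1 := mem_Zg.1 hz (i, true)
  rw [kap_apply, h1, mul_one, innK_eq_one_iff] at h2
  exact ⟨h1, h2⟩

theorem zg_pEl (hp : IsTypeIV' p E K) (hi : ∀ e : E, MulAut.conj e ∈ K)
    (π : ι → D →* Hol E K) (hinj : ∀ d, (∀ i, π i d = 1) → d = 1) {z : D}
    (hz : z ∈ Zg (fm hi π)) : PEl p z := by
  obtain ⟨k, hk⟩ := pEl_family (G := fun _ => Hol E K) π (d := z) (p := p) (by
    intro i
    obtain ⟨h1, h2⟩ := mem_Zg_fm hi π hz i
    obtain ⟨c, hc⟩ := hp.2.2.2.2.2.2.1 ⟨_, h2⟩
    have hc' : (π i z).left ^ p ^ c = 1 := congrArg Subtype.val hc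
    refine ⟨c, ?_⟩
    have h3 : π i z = SemidirectProduct.inl (π i z).left := by
      ext1
      · rfl
      · exact h1
    rw [h3, ← map_pow, hc', map_one])
  exact ⟨k, hinj _ hk⟩

theorem zg_central (hi : ∀ e : E, MulAut.conj e ∈ K)
    (π : ι → D →* Hol E K) (hinj : ∀ d, (∀ i, π i d = 1) → d = 1) (j₀ : ι × Bool) :
    ∀ s ∈ Sg (innK hi).range (fm hi π) j₀, ∀ z ∈ Zg (fm hi π), s * z = z * s := by
  intro s hs z hz
  rw [← mul_inv_eq_one]
  apply hinj
  intro i
  rw [map_mul, map_inv, mul_inv_eq_one, map_mul, map_mul]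
  obtain ⟨h1, h2⟩ := mem_Zg_fm hi π hz i
  have h3 : (π i s).right ∈ (innK hi).range := by
    by_cases h : (fm hi π (i, false)).ker = (fm hi π j₀).ker
    · exact (hs (i, false)).1 h
    · have : (π i s).right = 1 := (hs (i, false)).2 h
      rw [this]; exact one_mem _
  obtain ⟨b, hb⟩ := h3
  ext1
  · rw [SemidirectProduct.mul_left, SemidirectProduct.mul_left, h1, map_one]
    have h4 : (K.subtype (π i s).right) (π i z).left = (π i z).left := by
      rw [← hb]
      exact inn_fix h2
    rw [h4]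
    exact mem_center_iff.1 h2 _
  · rw [SemidirectProduct.mul_right, SemidirectProduct.mul_right, h1, one_mul, mul_one]

theorem fm_ker_ne (hp : IsTypeIV' p E K) (hi : ∀ e : E, MulAut.conj e ∈ K)
    (π : ι → D →* Hol E K) (hπ : ∀ i, Surjective (π i)) (i : ι) :
    (fm hi π (i, true)).ker ≠ (fm hi π (i, false)).ker := by
  intro h
  apply center_ne_top hp
  rw [eq_top_iff]
  intro e _
  obtain ⟨d, hd⟩ := hπ i (SemidirectProduct.inl e)
  have h1 : d ∈ (fm hi π (i, false)).ker := by
    rw [MonoidHom.mem_ker]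
    change (π i d).right = 1
    rw [hd]; rfl
  rw [← h, MonoidHom.mem_ker] at h1
  have h2 : kap hi (π i d) = 1 := h1
  rw [hd, kap_apply] at h2
  have h3 : innK hi e * 1 = 1 := h2
  rw [mul_one, innK_eq_one_iff] at h3
  exact h3

/-- the map `q` from `Eg` to `E` -/
theorem exists_q (hp : IsTypeIV' p E K) (hi : ∀ e : E, MulAut.conj e ∈ K)
    (π : ι → D →* Hol E K) (hπ : ∀ i, Surjective (π i)) (j : ι × Bool) :
    ∃ q : Eg (innK hi).range (fm hi π) j →* E, (∀ d, innK hi (q d) = fm hi π j d) ∧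
      ∀ d, q d = 1 → π j.1 d = 1 := by
  obtain ⟨i, _ | _⟩ := j
  · -- `(i, false)`
    have h0 : ∀ d : Eg (innK hi).range (fm hi π) (i, false),
        innK hi (π i d).left * (π i d).right = 1 := fun d =>
      (eg_le _ d.2 (i, true)).2 (fm_ker_ne hp hi π hπ i)
    have h1 : ∀ d : Eg (innK hi).range (fm hi π) (i, false),
        (π i d).right = innK hi ((π i d).left)⁻¹ := by
      intro d
      rw [map_inv]
      exact (eq_inv_of_mul_eq_one_right (h0 d))
    refine ⟨{ toFun := fun d => ((π i d).left)⁻¹, map_one' := by simp, map_mul' := ?_ }, ?_, ?_⟩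
    · intro a b
      have h2 : (π i (a * b : Eg (innK hi).range (fm hi π) (i, false))).left =
          (π i b).left * (π i a).left := by
        change (π i ((a : D) * b)).left = _
        rw [map_mul, SemidirectProduct.mul_left, h1 a]
        change (π i a).left * (MulAut.conj ((π i a).left)⁻¹ (π i b).left) = _
        rw [MulAut.conj_apply]
        group
      rw [h2, mul_inv_rev]
    · intro d
      exact (h1 d).symm
    · intro d hd
      have hd' : ((π i d).left)⁻¹ = 1 := hd
      have h2 : (π i d).left = 1 := inv_eq_one.1 hd'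
      have h3 := h0 d
      rw [h2, map_one, one_mul] at h3
      ext1
      · exact h2
      · exact h3
  · -- `(i, true)`
    have h1 : ∀ d : Eg (innK hi).range (fm hi π) (i, true), (π i d).right = 1 := fun d =>
      (eg_le _ d.2 (i, false)).2 (fm_ker_ne hp hi π hπ i).symm
    refine ⟨{ toFun := fun d => (π i d).left, map_one' := by simp, map_mul' := ?_ }, ?_, ?_⟩
    · intro a b
      change (π i ((a : D) * b)).left = _
      rw [map_mul, SemidirectProduct.mul_left, h1 a, map_one]
      rfl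
    · intro d
      change innK hi (π i d).left = innK hi (π i d).left * (π i d).right
      rw [h1 d, mul_one]
    · intro d hd
      ext1
      · exact hd
      · exact h1 d

end

end Pool.Agent.Helper38.Form
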