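import Pool.Agent.Helper38.Form.IVc

/-!
# Minimality for type IV, continued
-/

namespace Pool.Agent.Helper38.Form

open Function Subgroup
open scoped commutatorElement

set_option linter.unusedSectionVars false

section

variable {p : ℕ} {E : Type} [Group E] [Finite E] {K : Subgroup (MulAut E)}
  {ι D : Type} [Finite ι] [Group D] [Finite D]

theorem comm_mem_iSup (hp : IsTypeIV' p E K) (hi : ∀ e : E, MulAut.conj e ∈ K)
    (π : ι → D →* Hol E K) (hπ : ∀ i, Surjective (π i)) (hinj : ∀ d, (∀ i, π i d = 1) → d = 1)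
    [Fact p.Prime] (P : Sylow p D) {x y : D} (hx : x ∈ P) (hy : y ∈ P) :
    x * y * x⁻¹ * y⁻¹ ∈ ⨆ j, (Eg (innK hi).range (fm hi π) j ⊓ Zg (fm hi π)) := by
  classical
  have hI := fm_indep hp hi π hπ
  have hKA : IsAGroup K := hp.2.2.2.1
  let Pj : ι × Bool → Sylow p K := fun j => P.mapSurjective (hI.surj j)
  have hPj : ∀ j, (Pj j : Subgroup K) = (P : Subgroup D).map (fm hi π j) := fun j => rfl
  have hPab : ∀ j, ∀ x ∈ Pj j, ∀ y ∈ Pj j, x * y = y * x := fun j => hKA p Fact.out (Pj j)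
  -- elements with all images in the `Pj` are in `P`
  have hmemP : ∀ d : D, (∀ j, fm hi π j d ∈ Pj j) → d ∈ P := by
    let R : Subgroup D := ⨅ j, (Pj j : Subgroup K).comap (fm hi π j)
    have hR : IsPGroup p R := by
      apply isPGroup_of_pEl
      intro d hd
      have hd' : ∀ j, fm hi π j d ∈ Pj j := fun j => mem_iInf.1 hd j
      obtain ⟨k, hk⟩ := pEl_family (G := fun _ => K) (fm hi π) (d := d) (p := p)
        (fun j => pEl_of_mem (Pj j).2 (hd' j))
      exact pEl_of_pow (zg_pEl hp hi π hinj (mem_Zg.2 hk))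
    have hPR : (P : Subgroup D) ≤ R := by
      intro d hd
      rw [mem_iInf]
      intro j
      exact mem_map_of_mem _ hd
    have hRP : R = P := P.3 hR hPR
    intro d hd
    have : d ∈ R := mem_iInf.2 hd
    rw [hRP] at this
    exact this
  -- decomposition of an element of `P`
  have hdec : ∀ x ∈ P, ∃ s ∈ ⨆ j, Eg (innK hi).range (fm hi π) j, s ∈ P ∧
      ∃ x₁ ∈ P, (∀ j, fm hi π j x₁ ∈ Cset (Pj j : Subgroup K) (innK hi).range) ∧ x = s * x₁ := by
    intro x hx
    have hn := inn_normal hi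
    have h1 : ∀ j, ∃ m ∈ Pj j, m ∈ (innK hi).range ∧
        ∃ c ∈ Cset (Pj j : Subgroup K) (innK hi).range, fm hi π j x = m * c := fun j =>
      cset_decomp (Pj j) (hPab j) (innK hi).range (mem_map_of_mem _ hx)
    choose m hm1 hm2 c hc hmc using h1
    obtain ⟨s, hs, hs'⟩ := hI.lift m hm2 (by
      intro j j' α hα
      have hPα : ∀ x, x ∈ (Pj j : Subgroup K) ↔ α x ∈ (Pj j' : Subgroup K) := by
        intro x
        rw [hPj, hPj]
        constructor
        · rintro ⟨d, hd, rfl⟩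
          exact ⟨d, hd, hα d⟩
        · rintro ⟨d, hd, hdx⟩
          rw [hα] at hdx
          exact ⟨d, hd, α.injective hdx⟩
      have h2 : α (c j) ∈ Cset (Pj j' : Subgroup K) (innK hi).range :=
        cset_map α (hI.char α) hPα (hc j)
      have h3 : m j' * c j' = α (m j) * α (c j) := by
        rw [← hmc j', ← map_mul, ← hmc j, hα]
      have h4 : (α (m j))⁻¹ * m j' = α (c j) * (c j')⁻¹ := by
        rw [inv_mul_eq_iff_eq_mul, ← mul_assoc, ← h3, mul_inv_cancel_right]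
      have h5 : (α (m j))⁻¹ * m j' = 1 := by
        refine cset_inf (Pj j') (hPab j') (innK hi).range (inn_perfect hp.2.1 hi) ?_ ?_
        · exact mul_mem (inv_mem ((hI.char α _).1 (hm2 j))) (hm2 j')
        · rw [h4]; exact cset_mul h2 (cset_inv (hc j'))
      rw [inv_mul_eq_one] at h5
      exact h5.symm)
    have hsP : s ∈ P := hmemP s (fun j => by rw [hs' j]; exact hm1 j)
    refine ⟨s, hs, hsP, s⁻¹ * x, mul_mem (inv_mem hsP) hx, fun j => ?_, by group⟩
    rw [map_mul, map_inv, hs', hmc, inv_mul_cancel_left]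
    exact hc j
  obtain ⟨s, hs, hsP, x₁, hx₁, hx₁', rfl⟩ := hdec x hx
  obtain ⟨t, ht, htP, y₁, hy₁, hy₁', rfl⟩ := hdec y hy
  -- `x₁` and `y₁` commute
  have hcomm : x₁ * y₁ = y₁ * x₁ := by
    rw [← mul_inv_eq_one]
    apply hinj
    intro i
    rw [map_mul, map_inv, mul_inv_eq_one, map_mul, map_mul]
    have hPi1 : ((P.mapSurjective (hπ i) : Sylow p (Hol E K)) : Subgroup (Hol E K)).map
        SemidirectProduct.rightHom = (Pj (i, false) : Subgroup K) := by
      rw [Sylow.coe_mapSurjective, map_map]; rfl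
    have hPi2 : ((P.mapSurjective (hπ i) : Sylow p (Hol E K)) : Subgroup (Hol E K)).map
        (kap hi) = (Pj (i, true) : Subgroup K) := by
      rw [Sylow.coe_mapSurjective, map_map]; rfl
    refine comm_of_cset hp hi (P.mapSurjective (hπ i)) (mem_map_of_mem _ hx₁)
      (mem_map_of_mem _ hy₁) ?_ ?_ ?_ ?_
    · rw [hPi1]; exact hx₁' (i, false)
    · rw [hPi2]; exact hx₁' (i, true)
    · rw [hPi1]; exact hy₁' (i, false)
    · rw [hPi2]; exact hy₁' (i, true)
  apply hI.decomp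
  · have hn : ∀ j, (Eg (innK hi).range (fm hi π) j).Normal := fun j => hI.eg_normal j
    have hN : (⨆ j, Eg (innK hi).range (fm hi π) j).Normal := by
      refine ⟨?_⟩
      intro a ha g
      have h1 : (⨆ j, Eg (innK hi).range (fm hi π) j) ≤
          (⨆ j, Eg (innK hi).range (fm hi π) j).comap (MulAut.conj g).toMonoidHom := by
        apply iSup_le
        intro j x hx
        exact mem_iSup_of_mem j ((hn j).conj_mem x hx g)
      exact h1 ha
    rw [← QuotientGroup.eq_one_iff]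
    have hs1 : (s : D ⧸ ⨆ j, Eg (innK hi).range (fm hi π) j) = 1 :=
      (QuotientGroup.eq_one_iff s).2 hs
    have ht1 : (t : D ⧸ ⨆ j, Eg (innK hi).range (fm hi π) j) = 1 :=
      (QuotientGroup.eq_one_iff t).2 ht
    have hc1 : (x₁ : D ⧸ ⨆ j, Eg (innK hi).range (fm hi π) j) * (y₁ : D ⧸ _) =
        (y₁ : D ⧸ _) * (x₁ : D ⧸ _) := by
      rw [← QuotientGroup.mk_mul, hcomm, QuotientGroup.mk_mul]
    rw [QuotientGroup.mk_mul, QuotientGroup.mk_mul, QuotientGroup.mk_mul, QuotientGroup.mk_inv,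
      QuotientGroup.mk_inv, QuotientGroup.mk_mul, QuotientGroup.mk_mul, hs1, ht1, one_mul,
      one_mul, hc1, mul_inv_cancel_right, mul_inv_cancel]
  · rw [mem_Zg]
    intro j
    have := hPab j _ (mem_map_of_mem (fm hi π j) hx) _ (mem_map_of_mem (fm hi π j) hy)
    rw [map_mul, map_mul _ (_ * _) _, map_mul, map_inv, map_inv, this, mul_inv_cancel_right,
      mul_inv_cancel]

theorem exists_big (hp : IsTypeIV' p E K) (hi : ∀ e : E, MulAut.conj e ∈ K)
    (π : ι → D →* Hol E K) (hπ : ∀ i, Surjective (π i)) (hinj : ∀ d, (∀ i, π i d = 1) → d = 1)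
    {G : Type} [Group G] (ψ : D →* G) (hψ : Surjective ψ) (hna : ¬ IsAGroup G) :
    ∃ j, ¬ (Eg (innK hi).range (fm hi π) j ⊓ Zg (fm hi π)) ≤ ψ.ker := by
  by_contra hcon
  push Not at hcon
  apply hna
  have hKA : IsAGroup K := hp.2.2.2.1
  intro q hq Q x hx y hy
  have : Fact q.Prime := ⟨hq⟩
  obtain ⟨P, rfl⟩ := Sylow.mapSurjective_surjective hψ q Q
  obtain ⟨a, ha, rfl⟩ := hx
  obtain ⟨b, hb, rfl⟩ := hy
  by_cases hqp : q = p
  · subst hqp
    have h1 := comm_mem_iSup hp hi π hπ hinj P ha hb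
    have h2 : (⨆ j, (Eg (innK hi).range (fm hi π) j ⊓ Zg (fm hi π))) ≤ ψ.ker := iSup_le hcon
    have h3 : ψ (a * b * a⁻¹ * b⁻¹) = 1 := h2 h1
    rw [map_mul, map_mul, map_mul, map_inv, map_inv, mul_inv_eq_one, mul_inv_eq_iff_eq_mul] at h3
    exact h3
  · have h1 : a * b * a⁻¹ * b⁻¹ ∈ Zg (fm hi π) := by
      rw [mem_Zg]
      intro j
      have := hKA.ab hq (P.2.map (fm hi π j)) (mem_map_of_mem (fm hi π j) ha)
        (mem_map_of_mem (fm hi π j) hb)
      rw [map_mul, map_mul, map_mul, map_inv, map_inv, this, mul_inv_cancel_right,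
        mul_inv_cancel]
    obtain ⟨k, hk⟩ := zg_pEl hp hi π hinj h1
    obtain ⟨l, hl⟩ := pEl_of_mem P.2 (mul_mem (mul_mem (mul_mem ha hb) (inv_mem ha)) (inv_mem hb))
    have h2 := eq_one_of_coprime_pow hq hl (fun hd =>
      hqp ((Nat.prime_dvd_prime_iff_eq hq hp.1).1 (hq.dvd_of_dvd_pow hd))) hk
    rw [mul_inv_eq_one, mul_inv_eq_iff_eq_mul] at h2
    rw [← map_mul, h2, map_mul]

end

/-- `Z₀ ⋊ 1` as a subgroup of `E ⋊ K` -/
def R0 {E : Type} [Group E] (K : Subgroup (MulAut E)) (Z₀ : Subgroup E) : Subgroup (Hol E K) :=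
  Z₀.map SemidirectProduct.inl

theorem mem_R0 {E : Type} [Group E] (K : Subgroup (MulAut E)) (Z₀ : Subgroup E) (g : Hol E K) :
    g ∈ R0 K Z₀ ↔ g.left ∈ Z₀ ∧ g.right = 1 := by
  constructor
  · rintro ⟨z, hz, rfl⟩
    exact ⟨hz, rfl⟩
  · rintro ⟨h1, h2⟩
    refine ⟨g.left, h1, ?_⟩
    ext1
    · rfl
    · exact h2.symm

theorem R0_normal {E : Type} [Group E] (K : Subgroup (MulAut E)) (Z₀ : Subgroup E)
    (hZc : Z₀ ≤ center E) (hZK : ∀ k ∈ K, ∀ x ∈ Z₀, k x ∈ Z₀) : (R0 K Z₀).Normal := by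
  refine ⟨?_⟩
  rintro _ ⟨z, hz, rfl⟩ g
  refine ⟨(g.right : MulAut E) z, hZK _ g.right.2 z hz, ?_⟩
  have hz' := mem_center_iff.1 (hZc (hZK _ g.right.2 z hz))
  ext1
  · have e1 : (g * SemidirectProduct.inl z * g⁻¹).left =
        g.left * (g.right : MulAut E) z * g.left⁻¹ := by
      simp [SemidirectProduct.mul_left, SemidirectProduct.inv_left]
    rw [e1, hz' g.left, mul_inv_cancel_right]
    rfl
  · simp

/-- conjugation of `K` by a normalising automorphism -/
def cjK {E : Type} [Group E] (K : Subgroup (MulAut E)) (τ : MulAut E)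
    (hτ : ∀ k ∈ K, τ * k * τ⁻¹ ∈ K) : K →* K where
  toFun := fun k => ⟨τ * k * τ⁻¹, hτ k k.2⟩
  map_one' := Subtype.ext (by simp)
  map_mul' := fun a b => Subtype.ext (by simp [mul_assoc])

/-- the automorphism of `E ⋊ K` induced by `τ` -/
def Th {E : Type} [Group E] (K : Subgroup (MulAut E)) (τ : MulAut E)
    (hτ : ∀ k ∈ K, τ * k * τ⁻¹ ∈ K) : Hol E K →* Hol E K :=
  SemidirectProduct.map τ.toMonoidHom (cjK K τ hτ) (by
    intro k
    ext e
    change τ ((k : MulAut E) e) = (τ * (k : MulAut E) * τ⁻¹) (τ e)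
    simp [MulAut.mul_apply])

theorem Th_left {E : Type} [Group E] (K : Subgroup (MulAut E)) (τ : MulAut E)
    (hτ : ∀ k ∈ K, τ * k * τ⁻¹ ∈ K) (g : Hol E K) : (Th K τ hτ g).left = τ g.left := rfl

theorem Th_right {E : Type} [Group E] (K : Subgroup (MulAut E)) (τ : MulAut E)
    (hτ : ∀ k ∈ K, τ * k * τ⁻¹ ∈ K) (g : Hol E K) :
    ((Th K τ hτ g).right : MulAut E) = τ * g.right * τ⁻¹ := rfl

theorem Th_surj {E : Type} [Group E] [Finite E] (K : Subgroup (MulAut E)) (τ : MulAut E)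
    (hτ : ∀ k ∈ K, τ * k * τ⁻¹ ∈ K) : Surjective (Th K τ hτ) := by
  apply Finite.injective_iff_surjective.1
  rw [injective_iff_map_eq_one]
  intro g hg
  have h1 := Th_left K τ hτ g
  have h2 := Th_right K τ hτ g
  rw [hg] at h1 h2
  ext1
  · exact (map_eq_one_iff τ τ.injective).1 h1.symm
  · apply Subtype.ext
    have h2' : (1 : MulAut E) = τ * g.right * τ⁻¹ := h2
    change (g.right : MulAut E) = 1
    have h3 : (g.right : MulAut E) = τ⁻¹ * (τ * g.right * τ⁻¹) * τ := by group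
    rw [h3, ← h2']
    group

theorem twist {E : Type} [Group E] [Finite E] (K : Subgroup (MulAut E)) (Z₀ : Subgroup E)
    (hZc : Z₀ ≤ center E) (hne : Z₀ ≠ center E)
    (hirr : ∀ S : Subgroup E, S ≤ center E →
      (∀ τ : MulAut E, (∀ k ∈ K, τ * k * τ⁻¹ ∈ K) → ∀ z ∈ S, τ z ∈ S) →
      S = ⊥ ∨ S = center E) [hR₀ : (R0 K Z₀).Normal] (F : Formation)
    (hY : F.Mem (Hol E K ⧸ R0 K Z₀)) : F.Mem (Hol E K) := by
  refine F.mem_of_family' (ι := {τ : MulAut E // ∀ k ∈ K, τ * k * τ⁻¹ ∈ K}) hY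
    (fun τ => (QuotientGroup.mk' (R0 K Z₀)).comp (Th K τ.1 τ.2))
    (fun τ => (QuotientGroup.mk'_surjective _).comp (Th_surj K τ.1 τ.2)) (MonoidHom.id _)
    (fun x => ⟨x, rfl⟩) ?_
  intro g hg
  have hg' : ∀ (τ : MulAut E) (hτ : ∀ k ∈ K, τ * k * τ⁻¹ ∈ K), Th K τ hτ g ∈ R0 K Z₀ :=
    fun τ hτ => (QuotientGroup.eq_one_iff _).1 (hg ⟨τ, hτ⟩)
  have hone : ∀ k ∈ K, (1 : MulAut E) * k * 1⁻¹ ∈ K := fun k hk => by simpa using hk
  let R : Subgroup E :=
    { carrier := {e | ∀ τ : MulAut E, (∀ k ∈ K, τ * k * τ⁻¹ ∈ K) → τ e ∈ Z₀}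
      mul_mem' := fun {a b} ha hb τ hτ => by rw [map_mul]; exact mul_mem (ha τ hτ) (hb τ hτ)
      one_mem' := fun τ _ => by rw [map_one]; exact one_mem _
      inv_mem' := fun {a} ha τ hτ => by rw [map_inv]; exact inv_mem (ha τ hτ) }
  have hRZ : R ≤ Z₀ := fun e he => he 1 hone
  have hR : R = ⊥ := by
    rcases hirr R (hRZ.trans hZc) (by
      intro σ hσ z hz τ hτ
      exact hz (τ * σ) (fun k hk => by
        have h1 := hτ _ (hσ k hk)
        have h2 : τ * σ * k * (τ * σ)⁻¹ = τ * (σ * k * σ⁻¹) * τ⁻¹ := by group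
        rw [h2]; exact h1)) with h | h
    · exact h
    · exfalso
      apply hne
      apply le_antisymm hZc
      rw [← h]
      exact hRZ
  have h1 : g.left ∈ R := fun τ hτ => ((mem_R0 K Z₀ _).1 (hg' τ hτ)).1
  rw [hR, mem_bot] at h1
  have h2 : g.right = 1 := by
    have := ((mem_R0 K Z₀ _).1 (hg' 1 hone)).2
    apply Subtype.ext
    have h3 := congrArg Subtype.val this
    rw [Th_right] at h3
    simpa using h3
  change g = 1
  ext1
  · exact h1
  · exact h2

section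

variable {p : ℕ} {E : Type} [Group E] [Finite E] {K : Subgroup (MulAut E)}
  {ι D : Type} [Finite ι] [Group D] [Finite D]

theorem q_inj (hp : IsTypeIV' p E K) (hi : ∀ e : E, MulAut.conj e ∈ K)
    (hlift : ∀ α : K ≃* K, ∃ τ : MulAut E, ∀ k : K, τ * (k : MulAut E) * τ⁻¹ = (α k : MulAut E))
    (π : ι → D →* Hol E K) (hπ : ∀ i, Surjective (π i)) (hinj : ∀ d, (∀ i, π i d = 1) → d = 1)
    (j₀ : ι × Bool) (q : Eg (innK hi).range (fm hi π) j₀ →* E)
    (hq1 : ∀ d, innK hi (q d) = fm hi π j₀ d)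
    (d : Eg (innK hi).range (fm hi π) j₀) (hd : q d = 1) : d = 1 := by
  have hI := fm_indep hp hi π hπ
  have hEp := hI.eg_perfect j₀ (zg_central hi π hinj j₀)
  have hEc : _root_.commutator (Eg (innK hi).range (fm hi π) j₀) = ⊤ := by
    apply map_injective (subtype_injective _)
    rw [_root_.commutator_def, map_commutator, ← MonoidHom.range_eq_map, range_subtype, hEp]
  apply Subtype.ext
  apply hinj
  intro i
  have hcase : ∀ b : Bool, (fm hi π (i, b)).ker = (fm hi π j₀).ker → π i d = 1 := by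
    intro b hb
    obtain ⟨q', hq1', hq2'⟩ := exists_q hp hi π hπ (i, b)
    have hEE : Eg (innK hi).range (fm hi π) j₀ ≤ Eg (innK hi).range (fm hi π) (i, b) :=
      (eg_congr hb).ge
    obtain ⟨α, hα⟩ := exists_aut_of_ker_eq (fm hi π j₀) (fm hi π (i, b)) (hI.surj _)
      (hI.surj _) hb.symm
    obtain ⟨τ, hτ⟩ := hlift α
    have hinc : ∀ x, ((inclusion hEE x : Eg (innK hi).range (fm hi π) (i, b)) : D) = x :=
      fun x => coe_inclusion hEE x
    have heq : q'.comp (inclusion hEE) = τ.toMonoidHom.comp q := by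
      apply perf_eq hEc
      intro x
      have h1 : innK hi (q' (inclusion hEE x)) = fm hi π (i, b) x := by
        rw [hq1', hinc]
      have h2 : innK hi (q x) = fm hi π j₀ x := hq1 x
      have h3 : innK hi (τ (q x)) = fm hi π (i, b) x := by
        apply Subtype.ext
        rw [innK_coe, conj_apply_aut, ← innK_coe hi, h2, hτ, hα]
      exact congrArg Subtype.val (h1.trans h3.symm)
    have h3 : q' (inclusion hEE d) = τ (q d) := DFunLike.congr_fun heq d
    rw [hd, map_one] at h3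
    have h4 := hq2' _ h3
    rw [hinc] at h4
    exact h4
  by_cases h1 : (fm hi π (i, true)).ker = (fm hi π j₀).ker
  · exact hcase true h1
  by_cases h2 : (fm hi π (i, false)).ker = (fm hi π j₀).ker
  · exact hcase false h2
  -- no coordinate in the class
  have h3 : ∀ x ∈ Eg (innK hi).range (fm hi π) j₀,
      (π i x).right = 1 ∧ (π i x).left ∈ center E := by
    intro x hx
    have a1 : (π i x).right = 1 := (eg_le j₀ hx (i, false)).2 h2
    have a2 : kap hi (π i x) = 1 := (eg_le j₀ hx (i, true)).2 h1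
    rw [kap_apply, a1, mul_one, innK_eq_one_iff] at a2
    exact ⟨a1, a2⟩
  have h4 : ⁅Eg (innK hi).range (fm hi π) j₀, Eg (innK hi).range (fm hi π) j₀⁆ ≤ (π i).ker := by
    rw [commutator_le]
    intro a ha b hb
    rw [MonoidHom.mem_ker, map_commutatorElement, commutatorElement_eq_one_iff_mul_comm]
    obtain ⟨a1, a2⟩ := h3 a ha
    obtain ⟨b1, b2⟩ := h3 b hb
    ext1
    · rw [SemidirectProduct.mul_left, SemidirectProduct.mul_left, a1, b1, map_one]
      exact mem_center_iff.1 b2 _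
    · rw [SemidirectProduct.mul_right, SemidirectProduct.mul_right, a1, b1]
  rw [hEp] at h4
  exact h4 d.2

theorem surj_of_mod_center {X : Type} [Group X] (hE : _root_.commutator E = ⊤) (q : X →* E)
    (h1 : ∀ e : E, ∃ r ∈ q.range, ∃ z ∈ center E, e = r * z) : Surjective q := by
  rw [← MonoidHom.range_eq_top]
  have h2 : _root_.commutator E ≤ q.range := by
    rw [_root_.commutator_def, commutator_le]
    intro a _ b _
    obtain ⟨r, hr, z, hz, rfl⟩ := h1 a
    obtain ⟨s, hs, w, hw, rfl⟩ := h1 b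
    have e1 : ⁅r * z, s * w⁆ = ⁅r, s⁆ := by
      have hz' := mem_center_iff.1 hz
      have hw' := mem_center_iff.1 hw
      have c1 : r * z * (s * w) * (r * z)⁻¹ = r * (s * w) * r⁻¹ := by
        have : r * z * (s * w) * (r * z)⁻¹ = r * (z * (s * w)) * z⁻¹ * r⁻¹ := by group
        rw [this, ← hz' (s * w)]; group
      have c2 : r * (s * w) * r⁻¹ * (s * w)⁻¹ = r * s * (w * r⁻¹ * w⁻¹) * s⁻¹ := by group
      rw [commutatorElement_def, c1, c2, ← hw' r⁻¹, mul_inv_cancel_right,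
        commutatorElement_def]
    rw [e1]
    exact mul_mem (mul_mem (mul_mem hr hs) (inv_mem hr)) (inv_mem hs)
  rw [hE] at h2
  exact top_le_iff.1 h2

/-- The abstract end of the proof: `Ej` is a normal subgroup of `D`, isomorphic to `E` by `q`,
on which `D` acts as `K` through `f`. -/
theorem finish (hp : IsTypeIV' p E K)
    (hirr : ∀ S : Subgroup E, S ≤ center E →
      (∀ τ : MulAut E, (∀ k ∈ K, τ * k * τ⁻¹ ∈ K) → ∀ z ∈ S, τ z ∈ S) →
      S = ⊥ ∨ S = center E)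
    {G : Type} [Group G] [Finite G] (ψ : D →* G) (hψ : Surjective ψ)
    (Ej : Subgroup D) [Ej.Normal] (q : Ej →* E) (hqinj : ∀ d, q d = 1 → d = 1)
    (hqsurj : Surjective q) (f : D →* K) (hf : Surjective f)
    (hcompat : ∀ (d : D) (x : Ej), q (MulAut.conjNormal d x) = (f d : MulAut E) (q x))
    (x₀ : Ej) (hx₀ψ : ψ x₀ ≠ 1) (hx₀c : q x₀ ∈ center E) : (form G).Mem (Hol E K) := by
  obtain ⟨hpp, hperf, hi, hKA, hmin, hcb, hcp, hpt⟩ := hp
  let Z₀ : Subgroup E := (ψ.ker.subgroupOf Ej).map q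
  have hZ₀ : ∀ x : Ej, q x ∈ Z₀ ↔ ψ x = 1 := by
    intro x
    constructor
    · rintro ⟨y, hy, hyx⟩
      have h1 : y * x⁻¹ = 1 := hqinj _ (by rw [map_mul, map_inv, hyx, mul_inv_cancel])
      rw [mul_inv_eq_one] at h1
      rw [← h1]
      exact hy
    · intro h
      exact mem_map_of_mem q h
  have hZK : ∀ k ∈ K, ∀ x ∈ Z₀, k x ∈ Z₀ := by
    intro k hk x hx
    obtain ⟨y, rfl⟩ := hqsurj x
    obtain ⟨d, hd⟩ := hf ⟨k, hk⟩
    have h1 : k (q y) = q (MulAut.conjNormal d y) := by rw [hcompat, hd]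
    rw [h1, hZ₀]
    rw [hZ₀] at hx
    change ψ (d * y * d⁻¹) = 1
    rw [map_mul, map_mul, hx, mul_one, map_inv, mul_inv_cancel]
  have hx₀Z : q x₀ ∉ Z₀ := fun h => hx₀ψ ((hZ₀ _).1 h)
  have hZc : Z₀ ≤ center E := by
    rcases hmin Z₀ hZK with h | h
    · exact h
    · exfalso
      apply hx₀Z
      rw [h]
      exact mem_top _
  have hR₀ : (R0 K Z₀).Normal := R0_normal K Z₀ hZc hZK
  refine twist K Z₀ hZc (fun h => hx₀Z (by rw [h]; exact hx₀c)) hirr (form G) ?_
  refine hol_mem (form G) K (Formation.mem_form G) ψ hψ Ej q hqsurj f hf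
      hcompat (QuotientGroup.mk' (R0 K Z₀)) (QuotientGroup.mk'_surjective _) ?_
  intro x d hx hd
  have h1 : f d = 1 := by
    apply Subtype.ext
    apply perf_aut hperf
    intro e
    obtain ⟨y, rfl⟩ := hqsurj e
    rw [← hcompat]
    have h2 : q (MulAut.conjNormal d y * y⁻¹) ∈ Z₀ := by
      rw [hZ₀]
      change ψ (d * y * d⁻¹ * (y : D)⁻¹) = 1
      rw [map_mul, map_mul, map_mul, map_inv, map_inv, hd]
      group
    have h3 := hZc h2
    rw [← conj_eq_one_iff, map_mul, map_inv, map_mul, map_inv, mul_inv_eq_one] at h3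
    exact h3
  have h2 : (⟨q x, f d⟩ : Hol E K) ∈ R0 K Z₀ := (mem_R0 K Z₀ _).2 ⟨(hZ₀ x).2 hx, h1⟩
  exact (QuotientGroup.eq_one_iff _).2 h2

theorem q_compat (hp : IsTypeIV' p E K) (hi : ∀ e : E, MulAut.conj e ∈ K)
    (π : ι → D →* Hol E K) (hπ : ∀ i, Surjective (π i)) (hinj : ∀ d, (∀ i, π i d = 1) → d = 1)
    (j₀ : ι × Bool) [(Eg (innK hi).range (fm hi π) j₀).Normal]
    (q : Eg (innK hi).range (fm hi π) j₀ →* E)
    (hq1 : ∀ d, innK hi (q d) = fm hi π j₀ d)
    (d : D) (x : Eg (innK hi).range (fm hi π) j₀) :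
    q (MulAut.conjNormal d x) = (fm hi π j₀ d : MulAut E) (q x) := by
  have hI := fm_indep hp hi π hπ
  have hEp := hI.eg_perfect j₀ (zg_central hi π hinj j₀)
  have hEc : _root_.commutator (Eg (innK hi).range (fm hi π) j₀) = ⊤ := by
    apply map_injective (subtype_injective _)
    rw [_root_.commutator_def, map_commutator, ← MonoidHom.range_eq_map, range_subtype, hEp]
  have heq : q.comp (MulAut.conjNormal d : MulAut (Eg (innK hi).range (fm hi π) j₀)).toMonoidHom =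
      (fm hi π j₀ d : MulAut E).toMonoidHom.comp q := by
    apply perf_eq hEc
    intro y
    have h1 : MulAut.conj (q (MulAut.conjNormal d y)) =
        (fm hi π j₀ (d * y * d⁻¹) : MulAut E) :=
      congrArg Subtype.val (hq1 (MulAut.conjNormal d y))
    have h2 : MulAut.conj (q y) = (fm hi π j₀ y : MulAut E) := congrArg Subtype.val (hq1 y)
    have h3 : MulAut.conj ((fm hi π j₀ d : MulAut E) (q y)) =
        (fm hi π j₀ (d * y * d⁻¹) : MulAut E) := by
      rw [conj_apply_aut, h2, map_mul, map_mul, map_inv]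
      rfl
    exact h1.trans h3.symm
  exact DFunLike.congr_fun heq x

end

theorem bIV : StatementBIV := by
  intro E _ _ K hIV G _ _ hG hna
  obtain ⟨p, hpp, hperf, hi, hKA, hmin, hcb, hcp, hpt, hlift, hirr⟩ := hIV
  have hp : IsTypeIV' p E K := ⟨hpp, hperf, hi, hKA, hmin, hcb, hcp, hpt⟩
  obtain ⟨ι, _, D, _, _, π, ψ, hπ, hinj, hψ⟩ := hasPres_of_mem_form hG
  have hI := fm_indep hp hi π hπ
  obtain ⟨j₀, hj₀⟩ := exists_big hp hi π hπ hinj ψ hψ hna
  have hEn : (Eg (innK hi).range (fm hi π) j₀).Normal := hI.eg_normal j₀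
  obtain ⟨q, hq1, -⟩ := exists_q hp hi π hπ j₀
  have hqsurj : Surjective q := by
    apply surj_of_mod_center hperf
    intro e
    obtain ⟨d, hd, hde⟩ := hI.eg_surj j₀ (m := innK hi e) ⟨e, rfl⟩
    refine ⟨q ⟨d, hd⟩, ⟨_, rfl⟩, (q ⟨d, hd⟩)⁻¹ * e, ?_, by group⟩
    rw [← innK_eq_one_iff hi, map_mul, map_inv, hq1, inv_mul_eq_one]
    exact hde
  obtain ⟨x₀, hx₀, hx₀ψ⟩ := SetLike.not_le_iff_exists.1 hj₀
  refine finish hp hirr ψ hψ (Eg (innK hi).range (fm hi π) j₀) q
    (q_inj hp hi hlift π hπ hinj j₀ q hq1) hqsurj (fm hi π j₀) (hI.surj j₀)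
    (q_compat hp hi π hπ hinj j₀ q hq1) ⟨x₀, hx₀.1⟩ hx₀ψ ?_
  rw [← innK_eq_one_iff hi, hq1]
  exact mem_Zg.1 hx₀.2 j₀

end Pool.Agent.Helper38.Form
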