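import Pool.Agent.Helper38.Form.Tools

/-!
# Homomorphisms between groups of type III induced by symmetries
-/

namespace Pool.Agent.Helper38.Form

open Function Subgroup

set_option linter.unusedSectionVars false

section

variable {H V W Z Z' : Type} [Group H] [AddCommGroup V] [AddCommGroup W] [AddCommGroup Z]
  [AddCommGroup Z'] [DistribMulAction H V] [DistribMulAction H W]
  {β : V →+ W →+ Z} {β' : V →+ W →+ Z'}

theorem altForm_decomp (β : V →+ W →+ Z) (x y : V × W) :
    altForm β x y = β x.1 y.2 - β y.1 x.2 := rfl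

theorem altForm_vw (β : V →+ W →+ Z) (v : V) (w : W) :
    altForm β (v, 0) (0, w) = β v w := by
  simp [altForm]

/-- faithful action -/
def Faith (H V W : Type) [Group H] [AddCommGroup V] [AddCommGroup W] [DistribMulAction H V]
    [DistribMulAction H W] : Prop :=
  ∀ h : H, (∀ v : V, h • v = v) → (∀ w : W, h • w = w) → h = 1

theorem Faith.eq (hf : Faith H V W) {h h' : H} (he : ∀ x : V × W, h • x = h' • x) : h = h' := by
  have h1 : h'⁻¹ * h = 1 := by
    apply hf
    · intro v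
      have := congrArg Prod.fst (he (v, 0))
      have h2 : h • v = h' • v := this
      rw [mul_smul, h2, inv_smul_smul]
    · intro w
      have := congrArg Prod.snd (he (0, w))
      have h2 : h • w = h' • w := this
      rw [mul_smul, h2, inv_smul_smul]
  rw [inv_mul_eq_one] at h1
  exact h1.symm

/-- the automorphism of `H` induced by a symmetry -/
theorem exists_f [Finite H] (hf : Faith H V W) {τ : (V × W) ≃+ (V × W)}
    (hτ : ∀ h : H, ∃ h' : H, ∀ x : V × W, τ (h • x) = h' • τ x) :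
    ∃ f : H →* H, Surjective f ∧ Injective f ∧ ∀ h x, τ (h • x) = f h • τ x := by
  choose f hf' using hτ
  let F : H →* H :=
    { toFun := f
      map_one' := by
        apply hf.eq
        intro x
        obtain ⟨y, rfl⟩ := τ.surjective x
        rw [← hf', one_smul, one_smul]
      map_mul' := by
        intro a b
        apply hf.eq
        intro x
        obtain ⟨y, rfl⟩ := τ.surjective x
        rw [← hf', mul_smul, hf', hf', mul_smul] }
  have hinj : Injective F := by
    rw [injective_iff_map_eq_one]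
    intro h h1
    apply hf.eq
    intro x
    apply τ.injective
    rw [hf', one_smul]
    have h2 : f h = 1 := h1
    rw [h2, one_smul]
  exact ⟨F, Finite.injective_iff_surjective.1 hinj, hinj, hf'⟩

/-- the two isotropy conditions -/
structure Iso (β' : V →+ W →+ Z') (τ : (V × W) ≃+ (V × W)) : Prop where
  h1 : ∀ v v', β' (τ (v, 0)).1 (τ (v', 0)).2 = 0
  h2 : ∀ w w', β' (τ (0, w)).1 (τ (0, w')).2 = 0

theorem IsSymmetry.iso {τ : (V × W) ≃+ (V × W)} (hτ : IsSymmetry H τ) (β' : V →+ W →+ Z') :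
    Iso β' τ := by
  rcases hτ.1 with ⟨a, b⟩ | ⟨a, b⟩
  · exact ⟨fun v v' => by rw [a, map_zero], fun w w' => by rw [b, map_zero,
      AddMonoidHom.zero_apply]⟩
  · exact ⟨fun v v' => by rw [a, map_zero, AddMonoidHom.zero_apply],
      fun w w' => by rw [b, map_zero]⟩

theorem split_pair (τ : (V × W) ≃+ (V × W)) (v : V) (w : W) :
    τ (v, w) = τ (v, 0) + τ (0, w) := by
  rw [← map_add]
  simp

/-- The homomorphism of Heisenberg groups induced by a symmetry. -/
def heisHom (β : V →+ W →+ Z) (β' : V →+ W →+ Z') (τ : (V × W) ≃+ (V × W)) (hiso : Iso β' τ)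
    (c : Z →+ Z') (hc : ∀ v w, altForm β' (τ (v, 0)) (τ (0, w)) = c (β v w)) :
    Heis β →* Heis β' where
  toFun a := ⟨(τ (a.v, a.w)).1, (τ (a.v, a.w)).2,
    c a.z + β' (τ (0, a.w)).1 (τ (a.v, 0)).2⟩
  map_one' := by
    have h0 : τ (0, 0) = 0 := map_zero τ
    ext
    · simp [h0]
    · simp [h0]
    · simp [h0]
  map_mul' a b := by
    have e : τ (a.v + b.v, a.w + b.w) = τ (a.v, a.w) + τ (b.v, b.w) := by
      rw [← map_add]; rfl
    have e1 : τ (a.v + b.v, 0) = τ (a.v, 0) + τ (b.v, 0) := by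
      rw [← map_add]; simp
    have e2 : τ (0, a.w + b.w) = τ (0, a.w) + τ (0, b.w) := by
      rw [← map_add]; simp
    ext
    · simp [e]
    · simp [e]
    · simp only [Heis.mul_z, Heis.mul_v, Heis.mul_w, e1, e2, map_add, ← hc,
        split_pair τ a.v a.w, split_pair τ b.v b.w, Prod.fst_add, Prod.snd_add,
        AddMonoidHom.add_apply, altForm]
      have h1 := hiso.h1 a.v b.v
      have h2 := hiso.h2 a.w b.w
      rw [h1, h2]
      abel

theorem heisHom_v (τ : (V × W) ≃+ (V × W)) (hiso : Iso β' τ) (c : Z →+ Z')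
    (hc : ∀ v w, altForm β' (τ (v, 0)) (τ (0, w)) = c (β v w)) (a : Heis β) :
    (heisHom β β' τ hiso c hc a).v = (τ (a.v, a.w)).1 := rfl

theorem heisHom_w (τ : (V × W) ≃+ (V × W)) (hiso : Iso β' τ) (c : Z →+ Z')
    (hc : ∀ v w, altForm β' (τ (v, 0)) (τ (0, w)) = c (β v w)) (a : Heis β) :
    (heisHom β β' τ hiso c hc a).w = (τ (a.v, a.w)).2 := rfl

theorem heisHom_z (τ : (V × W) ≃+ (V × W)) (hiso : Iso β' τ) (c : Z →+ Z')
    (hc : ∀ v w, altForm β' (τ (v, 0)) (τ (0, w)) = c (β v w)) (a : Heis β) :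
    (heisHom β β' τ hiso c hc a).z = c a.z + β' (τ (0, a.w)).1 (τ (a.v, 0)).2 := rfl

/-- The homomorphism of semidirect products induced by a symmetry. -/
def theta [DistribMulAction H Z] [DistribMulAction H Z']
    (hβ : ∀ (h : H) (v : V) (w : W), β (h • v) (h • w) = h • β v w)
    (hβ' : ∀ (h : H) (v : V) (w : W), β' (h • v) (h • w) = h • β' v w)
    (τ : (V × W) ≃+ (V × W)) (hiso : Iso β' τ)
    (c : Z →+ Z') (hc : ∀ v w, altForm β' (τ (v, 0)) (τ (0, w)) = c (β v w))
    (f : H →* H) (hf : ∀ (h : H) (x : V × W), τ (h • x) = f h • τ x)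
    (hcH : ∀ (h : H) (z : Z), c (h • z) = f h • c z) :
    Heis β ⋊[heisAct β hβ] H →* Heis β' ⋊[heisAct β' hβ'] H :=
  SemidirectProduct.map (heisHom β β' τ hiso c hc) f (by
    intro h
    ext1 a
    have e0 : τ (h • a.v, h • a.w) = f h • τ (a.v, a.w) := hf h (a.v, a.w)
    have e1 : τ (h • a.v, 0) = f h • τ (a.v, 0) := by
      rw [← hf h (a.v, 0)]
      congr 1
      simp
    have e2 : τ (0, h • a.w) = f h • τ (0, a.w) := by
      rw [← hf h (0, a.w)]
      congr 1
      simp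
    ext
    · change (τ (h • a.v, h • a.w)).1 = f h • (τ (a.v, a.w)).1
      rw [e0]; rfl
    · change (τ (h • a.v, h • a.w)).2 = f h • (τ (a.v, a.w)).2
      rw [e0]; rfl
    · change c (h • a.z) + β' (τ (0, h • a.w)).1 (τ (h • a.v, 0)).2 =
        f h • (c a.z + β' (τ (0, a.w)).1 (τ (a.v, 0)).2)
      rw [hcH, e1, e2, Prod.smul_fst, Prod.smul_snd, hβ', smul_add])

section

variable [DistribMulAction H Z] [DistribMulAction H Z'] (hβ : ∀ (h : H) (v : V) (w : W), β (h • v) (h • w) = h • β v w)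
    (hβ' : ∀ (h : H) (v : V) (w : W), β' (h • v) (h • w) = h • β' v w)
    (τ : (V × W) ≃+ (V × W)) (hiso : Iso β' τ)
    (c : Z →+ Z') (hc : ∀ v w, altForm β' (τ (v, 0)) (τ (0, w)) = c (β v w))
    (f : H →* H) (hf : ∀ (h : H) (x : V × W), τ (h • x) = f h • τ x)
    (hcH : ∀ (h : H) (z : Z), c (h • z) = f h • c z)

theorem theta_surj (hcs : Surjective c) (hfs : Surjective f) :
    Surjective (theta hβ hβ' τ hiso c hc f hf hcH) := by
  rintro ⟨⟨v, w, z⟩, h⟩
  obtain ⟨⟨v₀, w₀⟩, hx⟩ := τ.surjective (v, w)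
  obtain ⟨z₀, hz⟩ := hcs (z - β' (τ (0, w₀)).1 (τ (v₀, 0)).2)
  obtain ⟨h₀, hh⟩ := hfs h
  refine ⟨⟨⟨v₀, w₀, z₀⟩, h₀⟩, ?_⟩
  ext
  · exact congrArg Prod.fst hx
  · exact congrArg Prod.snd hx
  · change c z₀ + β' (τ (0, w₀)).1 (τ (v₀, 0)).2 = z
    rw [hz, sub_add_cancel]
  · exact hh

theorem theta_ker (hfi : Injective f) (g : Heis β ⋊[heisAct β hβ] H)
    (hg : theta hβ hβ' τ hiso c hc f hf hcH g = 1) :
    g.left.v = 0 ∧ g.left.w = 0 ∧ c g.left.z = 0 ∧ g.right = 1 := by
  have h1 : (τ (g.left.v, g.left.w)).1 = 0 := congrArg (fun g => g.left.v) hg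
  have h2 : (τ (g.left.v, g.left.w)).2 = 0 := congrArg (fun g => g.left.w) hg
  have h3 : c g.left.z + β' (τ (0, g.left.w)).1 (τ (g.left.v, 0)).2 = 0 :=
    congrArg (fun g => g.left.z) hg
  have h4 : f g.right = 1 := congrArg (fun g => g.right) hg
  have h5 : (g.left.v, g.left.w) = (0 : V × W) := by
    apply τ.injective
    rw [map_zero]
    exact Prod.ext h1 h2
  have h6 : g.left.v = 0 := congrArg Prod.fst h5
  have h7 : g.left.w = 0 := congrArg Prod.snd h5
  refine ⟨h6, h7, ?_, hfi (by rw [h4, map_one])⟩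
  have h0 : τ (0, 0) = 0 := map_zero τ
  rw [h6, h7, h0] at h3
  simpa using h3

end

end

end Pool.Agent.Helper38.Form
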