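import Pool.Agent.Helper38.Form.Red3

/-!
# The reduction: every formation not contained in `𝔄` contains a group of type I, II, III' or IV'
-/

namespace Pool.Agent.Helper38.Form

open Function Subgroup
open scoped commutatorElement

set_option linter.unusedSectionVars false

theorem reduction (F : Formation) (hF : ¬ F.InA) :
    (∃ (G : Type) (_ : Group G) (_ : Finite G), IsTypeI G ∧ F.Mem G) ∨
    (∃ (E : Type) (_ : Group E) (_ : Finite E) (K : Subgroup (MulAut E)), IsTypeII E K ∧
      F.Mem (Hol E K)) ∨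
    Setup.OutIII F ∨
    (∃ (p : ℕ) (E : Type) (_ : Group E) (_ : Finite E) (K : Subgroup (MulAut E)),
      IsTypeIV' p E K ∧ F.Mem (Hol E K)) := by
  classical
  -- a group of least order in `F \ 𝔄`
  have hex : ∃ n : ℕ, ∃ (G : Type) (_ : Group G) (_ : Finite G), F.Mem G ∧ ¬ IsAGroup G ∧
      Nat.card G = n := by
    unfold Formation.InA at hF
    push Not at hF
    obtain ⟨G, _, _, h1, h2⟩ := hF
    exact ⟨_, G, inferInstance, inferInstance, h1, h2, rfl⟩
  obtain ⟨G, _, _, hG, hna, hcard⟩ := Nat.find_spec hex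
  have hmin : ∀ (H : Type) [Group H] [Finite H], F.Mem H → ¬ IsAGroup H →
      Nat.card G ≤ Nat.card H := by
    intro H _ _ h1 h2
    rw [hcard]
    exact Nat.find_min' hex ⟨H, inferInstance, inferInstance, h1, h2, rfl⟩
  have hquot : ∀ (L : Subgroup G) [L.Normal], L ≠ ⊥ → IsAGroup (G ⧸ L) := by
    intro L _ hL
    by_contra hcon
    have h1 := hmin (G ⧸ L) (F.quot L hG) hcon
    have h2 := card_eq_card_quotient_mul_card_subgroup L
    have h3 : 1 < Nat.card L := (one_lt_card_iff_ne_bot L).2 hL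
    have h4 : 0 < Nat.card (G ⧸ L) := Nat.card_pos
    nlinarith
  -- the monolith
  have hbot : ∃ L : Subgroup G, L.Normal ∧ L ≠ ⊥ := by
    refine ⟨⊤, inferInstance, fun h => hna ?_⟩
    intro q hq P x _ y _
    have hx : x ∈ (⊤ : Subgroup G) := mem_top x
    have hy : y ∈ (⊤ : Subgroup G) := mem_top y
    rw [h, mem_bot] at hx hy
    rw [hx, hy]
  obtain ⟨N, ⟨hN, hNb⟩, hNmin⟩ := exists_min_subgroup
    (fun L : Subgroup G => L.Normal ∧ L ≠ ⊥) hbot
  have hmono : ∀ L : Subgroup G, L.Normal → L ≠ ⊥ → N ≤ L := by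
    intro L hL hLb
    by_cases h : N ⊓ L = ⊥
    · exfalso
      apply hna
      refine IsAGroup.of_two (QuotientGroup.mk' N) (QuotientGroup.mk' L) ?_ (hquot N hNb)
        (hquot L hLb)
      intro x hx hx'
      have h1 : x ∈ N := (QuotientGroup.eq_one_iff x).1 hx
      have h2 : x ∈ L := (QuotientGroup.eq_one_iff x).1 hx'
      have h3 : x ∈ N ⊓ L := ⟨h1, h2⟩
      rw [h] at h3
      exact mem_bot.1 h3
    · have := hNmin (N ⊓ L) ⟨inferInstance, h⟩ inf_le_left
      rw [← this]
      exact inf_le_right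
  by_cases hcomm : ∀ x ∈ N, ∀ y ∈ N, x * y = y * x
  swap
  · left
    push Not at hcomm
    obtain ⟨x, hx, y, hy, hxy⟩ := hcomm
    exact ⟨G, inferInstance, inferInstance, ⟨hna, N, hN, ⟨x, hx, y, hy, hxy⟩, hmono,
      hquot N hNb⟩, hG⟩
  -- `N` is an elementary abelian `p`-group
  obtain ⟨p, hp, hdvd⟩ := Nat.exists_prime_and_dvd ((one_lt_card_iff_ne_bot N).2 hNb).ne'
  have hfact : Fact p.Prime := ⟨hp⟩
  have hexp : ∀ x ∈ N, x ^ p = 1 := by
    let R : Subgroup G :=
      { carrier := {x | x ∈ N ∧ x ^ p = 1}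
        mul_mem' := by
          rintro a b ⟨ha, ha'⟩ ⟨hb, hb'⟩
          exact ⟨N.mul_mem ha hb, by
            rw [(show Commute a b from hcomm a ha b hb).mul_pow, ha', hb', one_mul]⟩
        one_mem' := ⟨N.one_mem, one_pow _⟩
        inv_mem' := by
          rintro a ⟨ha, ha'⟩
          exact ⟨N.inv_mem ha, by rw [inv_pow, ha', inv_one]⟩ }
    have hRn : R.Normal := by
      refine ⟨?_⟩
      rintro a ⟨ha, ha'⟩ g
      exact ⟨hN.conj_mem a ha g, by rw [conj_pow, ha', mul_one, mul_inv_cancel]⟩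
    have hRb : R ≠ ⊥ := by
      obtain ⟨x, hx⟩ := exists_prime_orderOf_dvd_card' (G := N) p hdvd
      intro hb
      have h1 : (x : G) ∈ R := ⟨x.2, by
        have h2 : x ^ p = 1 := by rw [← hx, pow_orderOf_eq_one]
        exact congrArg Subtype.val h2⟩
      rw [hb, mem_bot] at h1
      have h2 : x = 1 := Subtype.ext h1
      rw [h2, orderOf_one] at hx
      exact hp.one_lt.ne hx
    intro x hx
    exact (hmono R hRn hRb hx).2
  have hKA : ∀ (M : Subgroup G) [M.Normal], (∀ n ∈ N, ∀ x ∈ M, n * x = x * n) →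
      IsAGroup (MulAut.conjNormal : G →* MulAut M).range := by
    intro M _ hM
    have hle : N ≤ (MulAut.conjNormal : G →* MulAut M).rangeRestrict.ker := by
      intro n hn
      apply Subtype.ext
      ext x
      change n * x * n⁻¹ = x
      rw [hM n hn x x.2, mul_inv_cancel_right]
    refine (hquot N hNb).of_surjective (QuotientGroup.lift N _ hle) ?_
    intro y
    obtain ⟨g, rfl⟩ := MonoidHom.rangeRestrict_surjective _ y
    exact ⟨QuotientGroup.mk g, rfl⟩
  by_cases hpK : p ∣ Nat.card (MulAut.conjNormal : G →* MulAut N).range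
  · right; left
    refine ⟨N, inferInstance, inferInstance, (MulAut.conjNormal : G →* MulAut N).range,
      ⟨p, hp, ?_, ?_, ?_, ?_, ?_, hpK⟩, Setup.perfect_mem F hG N⟩
    · exact (nontrivial_iff_ne_bot N).2 hNb
    · intro x y
      exact Subtype.ext (hcomm x x.2 y y.2)
    · intro x
      exact Subtype.ext (hexp x x.2)
    · intro R hR
      have hRn : (R.map N.subtype).Normal := by
        refine ⟨?_⟩
        rintro _ ⟨z, hz, rfl⟩ g
        exact ⟨MulAut.conjNormal g z, hR _ ⟨g, rfl⟩ z hz, rfl⟩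
      by_cases hb : R.map N.subtype = ⊥
      · left
        exact (map_eq_bot_iff_of_injective R N.subtype_injective).1 hb
      · right
        have h1 := hmono _ hRn hb
        rw [eq_top_iff]
        rintro x -
        obtain ⟨y, hy, hyx⟩ := h1 x.2
        have : y = x := Subtype.ext hyx
        rw [← this]
        exact hy
    · exact hKA N (fun n hn x hx => hcomm n hn x hx)
  -- last case
  have hpcen : ∀ x : G, PEl p x → ∀ n ∈ N, x * n = n * x := by
    intro x hx n hn
    have h1 : PEl p ((MulAut.conjNormal : G →* MulAut N).rangeRestrict x) := hx.map _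
    obtain ⟨k, hk⟩ := h1
    have h2 : (MulAut.conjNormal : G →* MulAut N).rangeRestrict x = 1 := by
      have h3 : ((MulAut.conjNormal : G →* MulAut N).rangeRestrict x) ^
          Nat.card (MulAut.conjNormal : G →* MulAut N).range = 1 := pow_card_eq_one'
      exact eq_one_of_coprime_pow hp hk hpK h3
    have h3 : (MulAut.conjNormal x : MulAut N) = 1 := congrArg Subtype.val h2
    have h4 : x * n * x⁻¹ = n := by
      have := congrArg (fun a : MulAut N => ((a ⟨n, hn⟩ : N) : G)) h3
      exact this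
    rw [mul_inv_eq_iff_eq_mul] at h4
    exact h4
  have hnotAb : ¬ AbIn p (⊤ : Subgroup G) := by
    intro hab
    apply hna
    rw [isAGroup_iff]
    intro q hq Q hQ _ x hx y hy
    by_cases hqp : q = p
    · subst hqp
      exact hab Q hQ le_top x hx y hy
    · have h := (hquot N hNb).ab hq (hQ.map (QuotientGroup.mk' N)) (mem_map_of_mem _ hx)
        (mem_map_of_mem _ hy)
      have h1 : x * y * x⁻¹ * y⁻¹ ∈ N := by
        rw [← QuotientGroup.eq_one_iff]
        change QuotientGroup.mk' N (x * y * x⁻¹ * y⁻¹) = 1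
        rw [map_mul, map_mul, map_inv, map_inv, map_mul, h]
        group
      obtain ⟨k, hk⟩ := pEl_of_mem hQ (Q.mul_mem (Q.mul_mem (Q.mul_mem hx hy) (Q.inv_mem hx))
        (Q.inv_mem hy))
      have h2 := eq_one_of_coprime_pow hq hk (fun hd => hqp ((Nat.prime_dvd_prime_iff_eq hq hp).1 hd))
        (hexp _ h1)
      rw [mul_inv_eq_one, mul_inv_eq_iff_eq_mul] at h2
      exact h2
  have S : Setup G N p := ⟨hp, hNb, hmono, hcomm, hexp, hquot N hNb, hpcen, hnotAb⟩
  right; right
  obtain ⟨M, hM⟩ := S.exists_M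
  have hMn := hM.1.1
  by_cases hperf : ⁅M, M⁆ = M
  · right
    exact ⟨p, M, inferInstance, inferInstance, _, S.perfect_case hM hperf,
      Setup.perfect_mem F hG M⟩
  · left
    exact S.pgroup_case hM (S.M_pgroup hM hperf) F hG

end Pool.Agent.Helper38.Form
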