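import Pool.Agent.Helper38.Form.IVd
import Pool.Agent.Helper38.Form.Red4

/-!
# Assembly of the classification of minimal non-`A`-formations
-/

namespace Pool.Agent.Helper38.Form

open Function Subgroup

theorem minimal_of (G₀ : Type) [Group G₀] [Finite G₀] (hna : ¬ IsAGroup G₀)
    (hB : ∀ (G : Type) [Group G] [Finite G], (form G₀).Mem G → ¬ IsAGroup G → (form G).Mem G₀) :
    IsMinimalNonA (form G₀) := by
  refine ⟨fun h => hna (h G₀ (Formation.mem_form G₀)), fun F' hle hne => ?_⟩
  by_contra hcon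
  unfold Formation.InA at hcon
  push Not at hcon
  obtain ⟨G, _, _, hG, hGna⟩ := hcon
  apply hne
  apply Formation.le_antisymm' hle
  exact Formation.form_le (Formation.form_le hG G₀ (hB G (hle G hG) hGna))

theorem eq_form_of (F : Formation) (hF : IsMinimalNonA F) (G₀ : Type) [Group G₀] [Finite G₀]
    (hmem : F.Mem G₀) (hna : ¬ IsAGroup G₀) : F = form G₀ := by
  by_contra hne
  exact hna (hF.2 (form G₀) (Formation.form_le hmem) (fun h => hne h.symm) G₀
    (Formation.mem_form G₀))

theorem typeII_notA (E : Type) [Group E] [Finite E] (K : Subgroup (MulAut E))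
    (h : IsTypeII E K) : ¬ IsAGroup (Hol E K) := by
  intro hA
  obtain ⟨p, hp, -, hcomm, hexp, -, -, hdvd⟩ := h
  have : Fact p.Prime := ⟨hp⟩
  obtain ⟨k, hk⟩ := exists_prime_orderOf_dvd_card' (G := K) p hdvd
  have h1 : IsPGroup p (SemidirectProduct.inl : E →* Hol E K).range := by
    rintro ⟨_, e, rfl⟩
    refine ⟨1, Subtype.ext ?_⟩
    change (SemidirectProduct.inl e : Hol E K) ^ p ^ 1 = 1
    rw [← map_pow, pow_one, hexp, map_one]
  have hn : (SemidirectProduct.inl : E →* Hol E K).range.Normal := by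
    rw [SemidirectProduct.range_inl_eq_ker_rightHom]
    infer_instance
  have h2 : IsPGroup p (zpowers (SemidirectProduct.inr k : Hol E K)) := by
    apply PEl.zpowers
    refine ⟨1, ?_⟩
    rw [← map_pow, pow_one, ← hk, pow_orderOf_eq_one, map_one]
  have h3 := IsPGroup.to_sup_of_normal_right h2 h1
  have h4 : k = 1 := by
    apply Subtype.ext
    ext e
    have h5 := hA.ab hp h3 ((le_sup_left : zpowers _ ≤ _) (mem_zpowers (SemidirectProduct.inr k)))
      ((le_sup_right : (SemidirectProduct.inl : E →* Hol E K).range ≤ _) ⟨e, rfl⟩)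
    have h6 := congrArg SemidirectProduct.left h5
    simpa using h6
  rw [h4, orderOf_one] at hk
  exact hp.one_lt.ne hk

theorem typeIV_notA (p : ℕ) (E : Type) [Group E] [Finite E] (K : Subgroup (MulAut E))
    (h : IsTypeIV' p E K) : ¬ IsAGroup (Hol E K) := by
  intro hA
  obtain ⟨hp, hperf, -, -, -, hcb, hcp, -⟩ := h
  have hE : IsAGroup E := hA.of_injective (SemidirectProduct.inl : E →* Hol E K)
    SemidirectProduct.inl_injective
  apply hcb
  rw [eq_bot_iff]
  intro z hz
  rw [mem_bot]
  refine tr1 hp (isAGroup_iff.1 hE p hp) z hz (pEl_of_mem hcp hz) ?_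
  rw [hperf]
  exact mem_top z

theorem heis_pow_v {V W Z : Type} [AddCommGroup V] [AddCommGroup W] [AddCommGroup Z]
    {β : V →+ W →+ Z} (x : Heis β) (n : ℕ) : (x ^ n).v = n • x.v := by
  induction n with
  | zero => simp
  | succ n ih => rw [pow_succ, Heis.mul_v, ih, succ_nsmul]

theorem heis_pow_w {V W Z : Type} [AddCommGroup V] [AddCommGroup W] [AddCommGroup Z]
    {β : V →+ W →+ Z} (x : Heis β) (n : ℕ) : (x ^ n).w = n • x.w := by
  induction n with
  | zero => simp
  | succ n ih => rw [pow_succ, Heis.mul_w, ih, succ_nsmul]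

theorem heis_pow_z {V W Z : Type} [AddCommGroup V] [AddCommGroup W] [AddCommGroup Z]
    {β : V →+ W →+ Z} (x : Heis β) (hw : x.w = 0) (n : ℕ) : (x ^ n).z = n • x.z := by
  induction n with
  | zero => simp
  | succ n ih => rw [pow_succ, Heis.mul_z, ih, hw, map_zero, add_zero, succ_nsmul]

theorem typeIII_notA (p : ℕ) {H V W Z : Type} [Group H] [Finite H] [AddCommGroup V] [Finite V]
    [AddCommGroup W] [Finite W] [AddCommGroup Z] [Finite Z] [DistribMulAction H V]
    [DistribMulAction H W] [DistribMulAction H Z] (β : V →+ W →+ Z)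
    (hβ : ∀ (h : H) (v : V) (w : W), β (h • v) (h • w) = h • β v w)
    (h : IsTypeIII p (H := H) β) : ¬ IsAGroup (Heis β ⋊[heisAct β hβ] H) := by
  intro hA
  obtain ⟨hp, -, -, hpv, hpw, -, -, -, hZ, hgen, -, -⟩ := h
  have hpz : ∀ z : Z, p • z = 0 := by
    let S : AddSubgroup Z :=
      { carrier := {z | p • z = 0}
        add_mem' := fun {a b} ha hb => by
          change p • (a + b) = 0
          rw [smul_add, show p • a = 0 from ha, show p • b = 0 from hb, add_zero]
        zero_mem' := smul_zero _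
        neg_mem' := fun {a} ha => by
          change p • (-a) = 0
          rw [smul_neg, show p • a = 0 from ha, neg_zero] }
    have hS : AddSubgroup.closure {z : Z | ∃ v w, z = β v w} ≤ S := by
      rw [AddSubgroup.closure_le]
      rintro _ ⟨v, w, rfl⟩
      change p • β v w = 0
      have : p • β v w = β v (p • w) := (map_nsmul (β v) p w).symm
      rw [this, hpw, map_zero]
    rw [hgen] at hS
    intro z
    exact hS (AddSubgroup.mem_top z)
  have hH : IsAGroup (Heis β) := hA.of_injective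
    (SemidirectProduct.inl : Heis β →* Heis β ⋊[heisAct β hβ] H) SemidirectProduct.inl_injective
  have hpg : IsPGroup p (⊤ : Subgroup (Heis β)) := by
    rintro ⟨x, -⟩
    refine ⟨2, Subtype.ext ?_⟩
    change x ^ p ^ 2 = 1
    have h2 : (x ^ p).w = 0 := by rw [heis_pow_w, hpw]
    rw [pow_two, pow_mul]
    ext
    · rw [heis_pow_v, hpv]; rfl
    · rw [heis_pow_w, hpw]; rfl
    · rw [heis_pow_z _ h2, hpz]; rfl
  have hzero : ∀ v w, β v w = 0 := by
    intro v w
    have h1 := hH.ab hp hpg (x := ⟨v, 0, 0⟩) (y := ⟨0, w, 0⟩) (mem_top _) (mem_top _)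
    have h2 := congrArg Heis.z h1
    simpa using h2
  have hbot : AddSubgroup.closure {z : Z | ∃ v w, z = β v w} ≤ ⊥ := by
    rw [AddSubgroup.closure_le]
    rintro _ ⟨v, w, rfl⟩
    rw [hzero]
    exact zero_mem _
  rw [hgen] at hbot
  obtain ⟨a, b, hab⟩ := hZ
  exact hab ((AddSubgroup.mem_bot.1 (hbot (AddSubgroup.mem_top a))).trans
    (AddSubgroup.mem_bot.1 (hbot (AddSubgroup.mem_top b))).symm)

theorem IsTypeIV.prime' {E : Type} [Group E] {K : Subgroup (MulAut E)} (h : IsTypeIV E K) :
    ∃ p, IsTypeIV' p E K := by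
  obtain ⟨p, hpp, hperf, hi, hKA, hmin, hcb, hcp, hpt, -, -⟩ := h
  exact ⟨p, hpp, hperf, hi, hKA, hmin, hcb, hcp, hpt⟩

/-- The classification, given the three modules on types III and IV. -/
theorem classification_of (cIII : StatementCIII) (bIII : StatementBIII) (cIV : StatementCIV)
    (F : Formation) : IsMinimalNonA F ↔
      (∃ (G : Type) (_ : Group G) (_ : Finite G), IsTypeI G ∧ F = form G) ∨
      (∃ (E : Type) (_ : Group E) (_ : Finite E) (K : Subgroup (MulAut E)),
        IsTypeII E K ∧ F = form (Hol E K)) ∨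
      (∃ (p : ℕ) (H V W Z : Type) (_ : Group H) (_ : Finite H) (_ : AddCommGroup V)
        (_ : Finite V) (_ : AddCommGroup W) (_ : Finite W) (_ : AddCommGroup Z) (_ : Finite Z)
        (_ : DistribMulAction H V) (_ : DistribMulAction H W) (_ : DistribMulAction H Z)
        (β : V →+ W →+ Z)
        (hβ : ∀ (h : H) (v : V) (w : W), β (h • v) (h • w) = h • β v w),
        IsTypeIII p (H := H) β ∧ F = form (Heis β ⋊[heisAct β hβ] H)) ∨
      (∃ (E : Type) (_ : Group E) (_ : Finite E) (K : Subgroup (MulAut E)),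
        IsTypeIV E K ∧ F = form (Hol E K)) := by
  constructor
  · intro hF
    rcases reduction F hF.1 with ⟨G, _, _, h1, h2⟩ | ⟨E, _, _, K, h1, h2⟩ |
      ⟨p, H, V, W, Z, _, _, _, _, _, _, _, _, _, _, _, β, hβ, h1, h2⟩ | ⟨p, E, _, _, K, h1, h2⟩
    · left
      exact ⟨G, inferInstance, inferInstance, h1, eq_form_of F hF G h2 h1.1⟩
    · right; left
      exact ⟨E, inferInstance, inferInstance, K, h1,
        eq_form_of F hF (Hol E K) h2 (typeII_notA E K h1)⟩
    · right; right; left
      obtain ⟨Z₁, _, _, _, β₁, hβ₁, h3, h4⟩ := cIII F p H V W Z β hβ h1 h2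
      exact ⟨p, H, V, W, Z₁, inferInstance, inferInstance, inferInstance, inferInstance,
        inferInstance, inferInstance, inferInstance, inferInstance, inferInstance, inferInstance,
        inferInstance, β₁, hβ₁, h3, eq_form_of F hF _ h4 (typeIII_notA p β₁ hβ₁ h3)⟩
    · right; right; right
      obtain ⟨E₁, _, _, K₁, h3, h4⟩ := cIV F p E K h1 h2
      obtain ⟨p', h5⟩ := h3.prime'
      exact ⟨E₁, inferInstance, inferInstance, K₁, h3,
        eq_form_of F hF _ h4 (typeIV_notA p' E₁ K₁ h5)⟩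
  · rintro (⟨G, _, _, h1, rfl⟩ | ⟨E, _, _, K, h1, rfl⟩ |
      ⟨p, H, V, W, Z, _, _, _, _, _, _, _, _, _, _, _, β, hβ, h1, rfl⟩ | ⟨E, _, _, K, h1, rfl⟩)
    · exact minimal_of G h1.1 (fun G' _ _ hG' hna => bI G h1 G' hG' hna)
    · exact minimal_of _ (typeII_notA E K h1) (fun G' _ _ hG' hna => bII E K h1 G' hG' hna)
    · exact minimal_of _ (typeIII_notA p β hβ h1)
        (fun G' _ _ hG' hna => bIII p H V W Z β hβ h1 G' hG' hna)
    · obtain ⟨p, h2⟩ := h1.prime'
      exact minimal_of _ (typeIV_notA p E K h2) (fun G' _ _ hG' hna => bIV E K h1 G' hG' hna)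

end Pool.Agent.Helper38.Form
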