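import Pool.Agent.Helper38.Form.Transfer
import Pool.Agent.Helper38.Form.BOne

/-!
# The reduction, part 1: the structure of a minimal group outside `𝔄`
-/

namespace Pool.Agent.Helper38.Form

open Function Subgroup
open scoped commutatorElement

set_option linter.unusedSectionVars false

/-- `x` is a `p`-element. -/
def PEl (p : ℕ) {G : Type} [Group G] (x : G) : Prop := ∃ k : ℕ, x ^ p ^ k = 1

theorem PEl.map {p : ℕ} {G H : Type} [Group G] [Group H] (f : G →* H) {x : G} (h : PEl p x) :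
    PEl p (f x) := by
  obtain ⟨k, hk⟩ := h
  exact ⟨k, by rw [← map_pow, hk, map_one]⟩

theorem PEl.zpowers {p : ℕ} {G : Type} [Group G] {x : G} (h : PEl p x) :
    IsPGroup p (zpowers x) := by
  obtain ⟨k, hk⟩ := h
  rintro ⟨_, n, rfl⟩
  refine ⟨k, Subtype.ext ?_⟩
  change (x ^ n) ^ p ^ k = 1
  rw [← zpow_natCast, ← zpow_mul, mul_comm, zpow_mul, zpow_natCast, hk, one_zpow]

theorem pEl_of_mem {p : ℕ} {G : Type} [Group G] {Q : Subgroup G} (hQ : IsPGroup p Q) {x : G}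
    (hx : x ∈ Q) : PEl p x := by
  obtain ⟨k, hk⟩ := hQ ⟨x, hx⟩
  exact ⟨k, congrArg Subtype.val hk⟩

/-- a `p`-element in the image comes from a `p`-element -/
theorem exists_pEl_lift {p : ℕ} (hp : p.Prime) {G H : Type} [Group G] [Finite G] [Group H]
    (f : G →* H) {g : G} (h : PEl p (f g)) : ∃ g' : G, PEl p g' ∧ f g' = f g := by
  obtain ⟨k, hk⟩ := h
  obtain ⟨a, m, hm, ho⟩ := Nat.exists_eq_pow_mul_and_not_dvd (orderOf_pos g).ne' p hp.ne_one
  have hcop : Nat.Coprime m (orderOf (f g)) :=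
    Nat.Coprime.coprime_dvd_right (orderOf_dvd_of_pow_eq_one hk)
      (Nat.Coprime.pow_left k ((Nat.Prime.coprime_iff_not_dvd hp).2 hm)).symm
  obtain ⟨r, hr⟩ := exists_pow_eq_self_of_coprime hcop
  refine ⟨(g ^ m) ^ r, ⟨a, ?_⟩, by rw [map_pow, map_pow, hr]⟩
  rw [← pow_mul, ← pow_mul, show m * (r * p ^ a) = (p ^ a * m) * r by ring, pow_mul, ← ho,
    pow_orderOf_eq_one, one_pow]

/-- A finite group all of whose `p`-elements are trivial has order prime to `p`. -/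
theorem not_dvd_card_of_pEl {p : ℕ} (hp : p.Prime) {G : Type} [Group G] [Finite G]
    (h : ∀ x : G, PEl p x → x = 1) : ¬ p ∣ Nat.card G := by
  intro hdvd
  have : Fact p.Prime := ⟨hp⟩
  obtain ⟨x, hx⟩ := exists_prime_orderOf_dvd_card' p hdvd
  have h1 : x = 1 := h x ⟨1, by rw [pow_one, ← hx, pow_orderOf_eq_one]⟩
  rw [h1, orderOf_one] at hx
  exact hp.one_lt.ne hx

/-- The situation of the last case of the reduction. -/
structure Setup (G : Type) [Group G] (N : Subgroup G) [N.Normal] (p : ℕ) : Prop where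
  prime : p.Prime
  ne : N ≠ ⊥
  mono : ∀ L : Subgroup G, L.Normal → L ≠ ⊥ → N ≤ L
  comm : ∀ x ∈ N, ∀ y ∈ N, x * y = y * x
  exp : ∀ x ∈ N, x ^ p = 1
  quotA : IsAGroup (G ⧸ N)
  pcen : ∀ x : G, PEl p x → ∀ n ∈ N, x * n = n * x
  notAb : ¬ AbIn p (⊤ : Subgroup G)

namespace Setup

variable {G : Type} [Group G] [Finite G] {N : Subgroup G} [N.Normal] {p : ℕ}

theorem comm_mem (S : Setup G N p) {q : ℕ} (hq : q.Prime) {Q : Subgroup G} (hQ : IsPGroup q Q)
    {x y : G} (hx : x ∈ Q) (hy : y ∈ Q) : x * y * x⁻¹ * y⁻¹ ∈ N := by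
  have h := S.quotA.ab hq (hQ.map (QuotientGroup.mk' N)) (mem_map_of_mem _ hx)
    (mem_map_of_mem _ hy)
  rw [← QuotientGroup.eq_one_iff]
  change QuotientGroup.mk' N (x * y * x⁻¹ * y⁻¹) = 1
  rw [map_mul, map_mul, map_inv, map_inv, map_mul, h]
  group

/-- `M` is a smallest normal subgroup containing a nonabelian `p`-subgroup. -/
def IsM (p : ℕ) (M : Subgroup G) : Prop :=
  (M.Normal ∧ ¬ AbIn p M) ∧ ∀ L : Subgroup G, (L.Normal ∧ ¬ AbIn p L) → L ≤ M → L = M

theorem exists_M (S : Setup G N p) : ∃ M : Subgroup G, IsM p M :=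
  exists_min_subgroup (fun M : Subgroup G => M.Normal ∧ ¬ AbIn p M) ⟨⊤, inferInstance, S.notAb⟩

/-- if a normal subgroup of `M` contains all `p`-elements of `M`, it is `M` -/
theorem IsM.eq {M : Subgroup G} (hM : IsM p M) (L : Subgroup G) (hL : L.Normal) (hLM : L ≤ M)
    (h : ∀ x ∈ M, PEl p x → x ∈ L) : L = M := by
  refine hM.2 L ⟨hL, fun hab => hM.1.2 ?_⟩ hLM
  intro Q hQ hQM x hx y hy
  exact hab Q hQ (fun z hz => h z (hQM hz) (pEl_of_mem hQ hz)) x hx y hy

theorem M_le_centralizer (S : Setup G N p) {M : Subgroup G} (hM : IsM p M) :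
    ∀ x ∈ M, ∀ n ∈ N, x * n = n * x := by
  have hn := hM.1.1
  have h := hM.eq (M ⊓ centralizer (N : Set G)) inferInstance inf_le_left (fun x hx hp =>
    ⟨hx, mem_centralizer_iff.2 (fun n hn => (S.pcen x hp n hn).symm)⟩)
  intro x hx n hn
  rw [← h] at hx
  exact (mem_centralizer_iff.1 hx.2 n hn).symm

theorem N_ne (S : Setup G N p) : ∃ n ∈ N, n ≠ 1 := by
  by_contra h
  push Not at h
  exact S.ne ((eq_bot_iff_forall N).2 h)

theorem pEl_N (S : Setup G N p) {n : G} (hn : n ∈ N) : PEl p n := ⟨1, by rw [pow_one, S.exp n hn]⟩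

/-- A proper normal subgroup of `M` is an abelian `p`-group. -/
theorem small (S : Setup G N p) {M : Subgroup G} (hM : IsM p M) {L : Subgroup G}
    (hL : L.Normal) (hLM : L ≤ M) (hne : L ≠ M) :
    (∀ x ∈ L, ∀ y ∈ L, x * y = y * x) ∧ ∀ x ∈ L, PEl p x := by
  have hab : AbIn p L := by
    by_contra h
    exact hne (hM.2 L ⟨hL, h⟩ hLM)
  have hcen := S.M_le_centralizer hM
  obtain ⟨n, hn, hn1⟩ := S.N_ne
  have hcomm : ⁅L, L⁆ = ⊥ := by
    by_contra hb
    have hNL := S.mono ⁅L, L⁆ inferInstance hb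
    have hnL : n ∈ L := (commutator_le_left L L) (hNL hn)
    apply hn1
    have := tr1 (T := L) S.prime ?_ ⟨n, hnL⟩ ?_ ?_ ?_
    · exact congrArg Subtype.val this
    · intro Q hQ _ x hx y hy
      exact Subtype.ext (hab (Q.map L.subtype) (hQ.map _) (map_subtype_le Q) x
        (mem_map_of_mem L.subtype hx) y (mem_map_of_mem L.subtype hy))
    · rw [mem_center_iff]
      intro y
      exact Subtype.ext (hcen y (hLM y.2) n hn)
    · obtain ⟨k, hk⟩ := S.pEl_N hn
      exact ⟨k, Subtype.ext hk⟩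
    · have h1 : n ∈ (_root_.commutator L).map L.subtype := by
        rw [_root_.commutator_def, map_commutator, ← MonoidHom.range_eq_map, range_subtype]
        exact hNL hn
      obtain ⟨y, hy, hyx⟩ := h1
      have : y = ⟨n, hnL⟩ := Subtype.ext hyx
      rw [← this]
      exact hy
  have hc : ∀ x ∈ L, ∀ y ∈ L, x * y = y * x := by
    intro x hx y hy
    have h1 : ⁅x, y⁆ ∈ ⁅L, L⁆ := commutator_mem_commutator hx hy
    rw [hcomm, mem_bot, commutatorElement_eq_one_iff_mul_comm] at h1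
    exact h1
  refine ⟨hc, ?_⟩
  -- the `p'`-part
  let R : Subgroup G :=
    { carrier := {x | x ∈ L ∧ ∃ m : ℕ, ¬ p ∣ m ∧ x ^ m = 1}
      mul_mem' := by
        rintro a b ⟨ha, m, hm, hma⟩ ⟨hb, m', hm', hmb⟩
        refine ⟨L.mul_mem ha hb, m * m', ?_, ?_⟩
        · rw [S.prime.dvd_mul]; tauto
        · rw [(show Commute a b from hc a ha b hb).mul_pow, pow_mul, hma, one_pow, mul_comm m m',
            pow_mul, hmb, one_pow, one_mul]
      one_mem' := ⟨L.one_mem, 1, fun h => S.prime.one_lt.ne' (Nat.dvd_one.1 h), one_pow _⟩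
      inv_mem' := by
        rintro a ⟨ha, m, hm, hma⟩
        exact ⟨L.inv_mem ha, m, hm, by rw [inv_pow, hma, inv_one]⟩ }
  have hRn : R.Normal := by
    refine ⟨?_⟩
    rintro a ⟨ha, m, hm, hma⟩ g
    exact ⟨hL.conj_mem a ha g, m, hm, by rw [conj_pow, hma, mul_one, mul_inv_cancel]⟩
  have hR : R = ⊥ := by
    by_contra hb
    obtain ⟨-, m, hm, hnm⟩ := S.mono R hRn hb hn
    exact hn1 (eq_one_of_coprime_pow S.prime (by rw [pow_one, S.exp n hn] : n ^ p ^ 1 = 1) hm hnm)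
  intro x hx
  obtain ⟨a, m, hm, ho⟩ := Nat.exists_eq_pow_mul_and_not_dvd (orderOf_pos x).ne' p S.prime.ne_one
  have h1 : x ^ p ^ a ∈ R := by
    refine ⟨L.pow_mem hx _, m, hm, ?_⟩
    rw [← pow_mul, ← ho, pow_orderOf_eq_one]
  rw [hR] at h1
  exact ⟨a, mem_bot.1 h1⟩

/-- if `L` is a normal subgroup consisting of `p`-elements and `x` is a `p`-element then
`[x, l] ∈ N` for `l ∈ L`. -/
theorem comm_mem' (S : Setup G N p) {L : Subgroup G} (hL : L.Normal) (hp : ∀ x ∈ L, PEl p x)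
    {x y : G} (hx : PEl p x) (hy : y ∈ L) : x * y * x⁻¹ * y⁻¹ ∈ N := by
  have h1 : IsPGroup p L := by
    rintro ⟨l, hl⟩
    obtain ⟨k, hk⟩ := hp l hl
    exact ⟨k, Subtype.ext hk⟩
  have h2 := IsPGroup.to_sup_of_normal_right hx.zpowers h1
  exact S.comm_mem S.prime h2 ((le_sup_left : zpowers x ≤ _) (mem_zpowers x))
    ((le_sup_right : L ≤ _) hy)

/-- the dichotomy -/
theorem M_pgroup (S : Setup G N p) {M : Subgroup G} (hM : IsM p M) (h : ⁅M, M⁆ ≠ M) :
    ∀ x ∈ M, PEl p x := by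
  have hn := hM.1.1
  have h1 := S.small hM (L := ⁅M, M⁆) inferInstance (commutator_le_left M M) h
  let R : Subgroup G :=
    { carrier := {x | x ∈ M ∧ ∃ k : ℕ, x ^ p ^ k ∈ ⁅M, M⁆}
      mul_mem' := by
        rintro a b ⟨ha, k, hk⟩ ⟨hb, l, hl⟩
        refine ⟨M.mul_mem ha hb, k + l, ?_⟩
        rw [← QuotientGroup.eq_one_iff] at hk hl ⊢
        have hc : Commute (a : G ⧸ ⁅M, M⁆) (b : G ⧸ ⁅M, M⁆) := by
          rw [commute_iff_eq, ← QuotientGroup.mk_mul, ← QuotientGroup.mk_mul, QuotientGroup.eq]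
          have : (a * b)⁻¹ * (b * a) = ⁅b⁻¹, a⁻¹⁆ := by rw [commutatorElement_def]; group
          rw [this]
          exact commutator_mem_commutator (M.inv_mem hb) (M.inv_mem ha)
        rw [QuotientGroup.mk_pow, QuotientGroup.mk_mul, hc.mul_pow]
        rw [QuotientGroup.mk_pow] at hk hl
        rw [pow_add, pow_mul, hk, one_pow, one_mul, mul_comm (p ^ k), pow_mul, hl, one_pow]
      one_mem' := ⟨M.one_mem, 0, by rw [one_pow]; exact one_mem _⟩
      inv_mem' := by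
        rintro a ⟨ha, k, hk⟩
        exact ⟨M.inv_mem ha, k, by rw [inv_pow]; exact inv_mem hk⟩ }
  have hRn : R.Normal := by
    refine ⟨?_⟩
    rintro a ⟨ha, k, hk⟩ g
    refine ⟨hn.conj_mem a ha g, k, ?_⟩
    rw [conj_pow]
    exact (inferInstance : (⁅M, M⁆).Normal).conj_mem _ hk g
  have hR : R = M := hM.eq R hRn (fun x hx => hx.1) (fun x hx ⟨k, hk⟩ =>
    ⟨hx, k, by rw [hk]; exact one_mem _⟩)
  intro x hx
  rw [← hR] at hx
  obtain ⟨-, k, hk⟩ := hx
  obtain ⟨l, hl⟩ := h1.2 _ hk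
  exact ⟨k + l, by rw [pow_add, pow_mul, hl]⟩

end Setup

end Pool.Agent.Helper38.Form
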