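import Pool.Agent.Helper38.Form.Red2

/-!
# The reduction, part 3: the case of a `p`-group
-/

namespace Pool.Agent.Helper38.Form

open Function Subgroup
open scoped commutatorElement

set_option linter.unusedSectionVars false

/-- The action of `H` on `Additive A` given by a homomorphism `H →* MulAut A`. -/
@[reducible] def distribOfHom {H A : Type} [Group H] [CommGroup A] (θ : H →* MulAut A) :
    DistribMulAction H (Additive A) where
  smul h a := Additive.ofMul (θ h a.toMul)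
  one_smul a := by
    change Additive.ofMul (θ 1 a.toMul) = a
    rw [map_one]; rfl
  mul_smul g h a := by
    change Additive.ofMul (θ (g * h) a.toMul) = Additive.ofMul (θ g (θ h a.toMul))
    rw [map_mul]; rfl
  smul_zero h := by
    change Additive.ofMul (θ h 1) = 0
    rw [map_one]; rfl
  smul_add h a b := by
    change Additive.ofMul (θ h (a.toMul * b.toMul)) = _
    rw [map_mul]; rfl

theorem exists_action {G A : Type} [Group G] [Group A] (M : Subgroup G) [M.Normal] (f : M →* A)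
    (hf : Surjective f) (hk : ∀ (g : G) (x : M), f x = 1 → f (MulAut.conjNormal g x) = 1) :
    ∃ ρ : G →* MulAut A, ∀ (g : G) (x : M), ρ g (f x) = f (MulAut.conjNormal g x) := by
  have hk' : ∀ (g : G) (x y : M), f x = f y →
      f (MulAut.conjNormal g x) = f (MulAut.conjNormal g y) := by
    intro g x y h
    have h1 : f (x * y⁻¹) = 1 := by rw [map_mul, map_inv, h, mul_inv_cancel]
    have h2 := hk g _ h1
    rw [map_mul, map_mul, map_inv, map_inv, mul_inv_eq_one] at h2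
    exact h2
  let s : A → M := surjInv hf
  have hs : ∀ a, f (s a) = a := surjInv_eq hf
  let r : G → A → A := fun g a => f (MulAut.conjNormal g (s a))
  have hr : ∀ g x, r g (f x) = f (MulAut.conjNormal g x) := fun g x => hk' g _ _ (hs (f x))
  have hr1 : ∀ a, r 1 a = a := by
    intro a
    obtain ⟨x, rfl⟩ := hf a
    rw [hr, map_one]; rfl
  have hrm : ∀ g h a, r (g * h) a = r g (r h a) := by
    intro g h a
    obtain ⟨x, rfl⟩ := hf a
    have e1 := hr (g * h) x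
    have e2 := hr h x
    rw [e1, e2, hr g, map_mul]; rfl
  let ρ : G →* MulAut A :=
    { toFun := fun g =>
        { toFun := r g
          invFun := r g⁻¹
          left_inv := fun a => by rw [← hrm, inv_mul_cancel, hr1]
          right_inv := fun a => by rw [← hrm, mul_inv_cancel, hr1]
          map_mul' := fun a b => by
            obtain ⟨x, rfl⟩ := hf a
            obtain ⟨y, rfl⟩ := hf b
            rw [← map_mul, hr, hr, hr, map_mul, map_mul] }
      map_one' := by ext a; exact hr1 a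
      map_mul' := fun g h => by ext a; exact hrm g h a }
  exact ⟨ρ, hr⟩

namespace Setup

variable {G : Type} [Group G] [Finite G] {N : Subgroup G} [N.Normal] {p : ℕ}

/-- Output of the `p`-group case: a group of type III' in `F`. -/
def OutIII (F : Formation) : Prop :=
  ∃ (p : ℕ) (H V W Z : Type) (_ : Group H) (_ : Finite H) (_ : AddCommGroup V) (_ : Finite V)
    (_ : AddCommGroup W) (_ : Finite W) (_ : AddCommGroup Z) (_ : Finite Z)
    (_ : DistribMulAction H V) (_ : DistribMulAction H W) (_ : DistribMulAction H Z)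
    (β : V →+ W →+ Z) (hβ : ∀ (h : H) (v : V) (w : W), β (h • v) (h • w) = h • β v w),
    IsTypeIII' p (H := H) β ∧ F.Mem (Heis β ⋊[heisAct β hβ] H)

theorem pgroup_case (S : Setup G N p) {M : Subgroup G} (hM : IsM p M)
    (hMp : ∀ x ∈ M, PEl p x) (F : Formation) (hF : F.Mem G) : OutIII F := by
  classical
  have hMn := hM.1.1
  have hNM := S.N_le_M hM
  have hcN : ∀ x ∈ M, ∀ n ∈ N, x * n = n * x := S.M_le_centralizer hM
  have hcomm : ∀ x ∈ M, ∀ y ∈ M, x * y * x⁻¹ * y⁻¹ ∈ N := fun x hx y hy =>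
    S.comm_mem' hMn hMp (hMp x hx) hy
  have hcomm' : ∀ x : G, PEl p x → ∀ y ∈ M, x * y * x⁻¹ * y⁻¹ ∈ N := fun x hx y hy =>
    S.comm_mem' hMn hMp hx hy
  -- choice of `M₁` and `M₂`
  obtain ⟨M₁, ⟨h11, h12, h13⟩, hmin1⟩ := exists_min_subgroup
    (fun L : Subgroup G => L.Normal ∧ L ≤ M ∧ ∃ x ∈ L, ∃ y ∈ M, x * y ≠ y * x) (by
      refine ⟨M, hMn, le_rfl, ?_⟩
      by_contra hcon
      push Not at hcon
      exact hM.1.2 (fun Q _ hQ x hx y hy => hcon x (hQ hx) y (hQ hy)))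
  obtain ⟨M₂, ⟨h21, h22, h23⟩, hmin2⟩ := exists_min_subgroup
    (fun L : Subgroup G => L.Normal ∧ L ≤ M ∧ ∃ x ∈ M₁, ∃ y ∈ L, x * y ≠ y * x)
    ⟨M, hMn, le_rfl, h13⟩
  let : CommGroup N := { (inferInstance : Group N) with
    mul_comm := fun a b => Subtype.ext (S.comm a a.2 b b.2) }
  have hc1 : ∀ (x : M₁) (y : M₂), (x : G) * y * (x : G)⁻¹ * (y : G)⁻¹ ∈ N := fun x y =>
    hcomm x (h12 x.2) y (h22 y.2)
  let f₁ : M₁ →* (M₂ → N) :=
    { toFun := fun x y => ⟨x * y * (x : G)⁻¹ * (y : G)⁻¹, hc1 x y⟩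
      map_one' := by
        funext y
        apply Subtype.ext
        change (1 : G) * y * (1 : G)⁻¹ * (y : G)⁻¹ = 1
        group
      map_mul' := by
        intro x x'
        funext y
        apply Subtype.ext
        change (x * x' : G) * y * (x * x' : G)⁻¹ * (y : G)⁻¹ =
          ((x : G) * y * (x : G)⁻¹ * (y : G)⁻¹) * ((x' : G) * y * (x' : G)⁻¹ * (y : G)⁻¹)
        have e1 : (x * x' : G) * y * (x * x' : G)⁻¹ * (y : G)⁻¹ =
          ((x : G) * ((x' : G) * y * (x' : G)⁻¹ * (y : G)⁻¹)) * (x : G)⁻¹ *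
            ((x : G) * y * (x : G)⁻¹ * (y : G)⁻¹) := by group
        rw [e1, hcN x (h12 x.2) _ (hc1 x' y), mul_inv_cancel_right]
        exact S.comm _ (hc1 x' y) _ (hc1 x y) }
  let f₂ : M₂ →* (M₁ → N) :=
    { toFun := fun y x => ⟨x * y * (x : G)⁻¹ * (y : G)⁻¹, hc1 x y⟩
      map_one' := by
        funext x
        apply Subtype.ext
        change (x : G) * (1 : G) * (x : G)⁻¹ * (1 : G)⁻¹ = 1
        group
      map_mul' := by
        intro y y'
        funext x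
        apply Subtype.ext
        change (x : G) * (y * y' : G) * (x : G)⁻¹ * (y * y' : G)⁻¹ =
          ((x : G) * y * (x : G)⁻¹ * (y : G)⁻¹) * ((x : G) * y' * (x : G)⁻¹ * (y' : G)⁻¹)
        have e1 : (x : G) * (y * y' : G) * (x : G)⁻¹ * (y * y' : G)⁻¹ =
          ((x : G) * y * (x : G)⁻¹ * (y : G)⁻¹) *
            (((y : G) * ((x : G) * y' * (x : G)⁻¹ * (y' : G)⁻¹)) * (y : G)⁻¹) := by group
        rw [e1, hcN y (h22 y.2) _ (hc1 x y'), mul_inv_cancel_right] }
  have hk1 : ∀ (g : G) (x : M₁), f₁.rangeRestrict x = 1 →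
      f₁.rangeRestrict (MulAut.conjNormal g x) = 1 := by
    intro g x hx
    have hx' : ∀ y ∈ M₂, (x : G) * y * (x : G)⁻¹ * y⁻¹ = 1 := fun y hy =>
      congrArg Subtype.val (congrFun (congrArg Subtype.val hx) ⟨y, hy⟩)
    apply Subtype.ext
    funext y
    apply Subtype.ext
    change (g * x * g⁻¹) * (y : G) * (g * x * g⁻¹)⁻¹ * (y : G)⁻¹ = 1
    have h1 := hx' (g⁻¹ * y * g) (by
      have := h21.conj_mem y y.2 g⁻¹
      rwa [inv_inv] at this)
    have e1 : (g * x * g⁻¹) * (y : G) * (g * x * g⁻¹)⁻¹ * (y : G)⁻¹ =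
      g * ((x : G) * (g⁻¹ * y * g) * (x : G)⁻¹ * (g⁻¹ * y * g)⁻¹) * g⁻¹ := by group
    rw [e1, h1, mul_one, mul_inv_cancel]
  have hk2 : ∀ (g : G) (y : M₂), f₂.rangeRestrict y = 1 →
      f₂.rangeRestrict (MulAut.conjNormal g y) = 1 := by
    intro g y hy
    have hy' : ∀ x ∈ M₁, (x : G) * y * (x : G)⁻¹ * (y : G)⁻¹ = 1 := fun x hx =>
      congrArg Subtype.val (congrFun (congrArg Subtype.val hy) ⟨x, hx⟩)
    apply Subtype.ext
    funext x
    apply Subtype.ext
    change (x : G) * (g * y * g⁻¹) * (x : G)⁻¹ * (g * y * g⁻¹)⁻¹ = 1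
    have h1 := hy' (g⁻¹ * x * g) (by
      have := h11.conj_mem x x.2 g⁻¹
      rwa [inv_inv] at this)
    have e1 : (x : G) * (g * y * g⁻¹) * (x : G)⁻¹ * (g * y * g⁻¹)⁻¹ =
      g * ((g⁻¹ * x * g) * (y : G) * (g⁻¹ * x * g)⁻¹ * (y : G)⁻¹) * g⁻¹ := by group
    rw [e1, h1, mul_one, mul_inv_cancel]
  obtain ⟨ρ₁, hρ₁⟩ := exists_action M₁ f₁.rangeRestrict f₁.rangeRestrict_surjective hk1
  obtain ⟨ρ₂, hρ₂⟩ := exists_action M₂ f₂.rangeRestrict f₂.rangeRestrict_surjective hk2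
  let ρ₃ : G →* MulAut N := MulAut.conjNormal
  let ρ : G →* MulAut f₁.range × MulAut f₂.range × MulAut N := ρ₁.prod (ρ₂.prod ρ₃)
  let i1 : DistribMulAction ρ.range (Additive f₁.range) :=
    distribOfHom ((MonoidHom.fst _ _).comp ρ.range.subtype)
  let i2 : DistribMulAction ρ.range (Additive f₂.range) :=
    distribOfHom (((MonoidHom.fst _ _).comp (MonoidHom.snd _ _)).comp ρ.range.subtype)
  let i3 : DistribMulAction ρ.range (Additive N) :=
    distribOfHom (((MonoidHom.snd _ _).comp (MonoidHom.snd _ _)).comp ρ.range.subtype)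
  -- the bilinear map
  let s : f₂.range → M₂ := surjInv f₂.rangeRestrict_surjective
  have hs : ∀ χ, f₂.rangeRestrict (s χ) = χ := surjInv_eq f₂.rangeRestrict_surjective
  have hB : ∀ (x : M₁) (χ : f₂.range), f₁ x (s χ) = (χ : M₁ → N) x := by
    intro x χ
    conv_rhs => rw [← hs χ]
    rfl
  let β : Additive f₁.range →+ Additive f₂.range →+ Additive N :=
    AddMonoidHom.mk' (fun φ => AddMonoidHom.mk'
      (fun χ => Additive.ofMul ((φ.toMul : M₂ → N) (s χ.toMul))) (by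
        intro χ χ'
        obtain ⟨x, hx⟩ := f₁.rangeRestrict_surjective φ.toMul
        rw [← hx]
        change Additive.ofMul (f₁ x (s (χ.toMul * χ'.toMul))) =
          Additive.ofMul (f₁ x (s χ.toMul)) + Additive.ofMul (f₁ x (s χ'.toMul))
        rw [hB, hB, hB]
        rfl)) (by
        intro φ φ'
        ext χ
        rfl)
  have hβ1 : ∀ (x : M₁) (y : M₂), β (Additive.ofMul (f₁.rangeRestrict x))
      (Additive.ofMul (f₂.rangeRestrict y)) =
      Additive.ofMul (⟨x * y * (x : G)⁻¹ * (y : G)⁻¹, hc1 x y⟩ : N) := by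
    intro x y
    change Additive.ofMul (f₁ x (s (f₂.rangeRestrict y))) = _
    rw [hB]
    rfl
  -- `N` is central in `M`
  have hN1 : ∀ n ∈ N, ∀ x ∈ M, ∀ y ∈ M, (n * x) * y * (n * x)⁻¹ * y⁻¹ = x * y * x⁻¹ * y⁻¹ := by
    intro n hn x hx y hy
    have e1 : (n * x) * y * (n * x)⁻¹ * y⁻¹ = n * (x * y * x⁻¹) * n⁻¹ * y⁻¹ := by group
    rw [e1, ← hcN _ (M.mul_mem (M.mul_mem hx hy) (M.inv_mem hx)) n hn, mul_inv_cancel_right]
  have hN2 : ∀ n ∈ N, ∀ x ∈ M, ∀ y ∈ M, x * (n * y) * x⁻¹ * (n * y)⁻¹ = x * y * x⁻¹ * y⁻¹ := by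
    intro n hn x hx y hy
    have e1 : x * (n * y) * x⁻¹ * (n * y)⁻¹ = (x * n) * y * x⁻¹ * y⁻¹ * n⁻¹ := by group
    rw [e1, hcN x hx n hn]
    have e2 : n * x * y * x⁻¹ * y⁻¹ * n⁻¹ = n * (x * y * x⁻¹ * y⁻¹) * n⁻¹ := by group
    rw [e2, S.comm n hn _ (hcomm x hx y hy), mul_inv_cancel_right]
  -- `p`-elements act trivially
  have hρp : ∀ g : G, PEl p g → ρ g = 1 := by
    intro g hg
    have h1 : ρ₁ g = 1 := by
      ext1 a
      obtain ⟨x, rfl⟩ := f₁.rangeRestrict_surjective a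
      rw [hρ₁]
      apply Subtype.ext
      funext y
      apply Subtype.ext
      change (g * x * g⁻¹) * (y : G) * (g * x * g⁻¹)⁻¹ * (y : G)⁻¹ =
        (x : G) * y * (x : G)⁻¹ * (y : G)⁻¹
      have e1 : g * (x : G) * g⁻¹ = (g * x * g⁻¹ * (x : G)⁻¹) * x := by group
      rw [e1]
      exact hN1 _ (hcomm' g hg x (h12 x.2)) x (h12 x.2) y (h22 y.2)
    have h2 : ρ₂ g = 1 := by
      ext1 a
      obtain ⟨y, rfl⟩ := f₂.rangeRestrict_surjective a
      rw [hρ₂]
      apply Subtype.ext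
      funext x
      apply Subtype.ext
      change (x : G) * (g * y * g⁻¹) * (x : G)⁻¹ * (g * y * g⁻¹)⁻¹ =
        (x : G) * y * (x : G)⁻¹ * (y : G)⁻¹
      have e1 : g * (y : G) * g⁻¹ = (g * y * g⁻¹ * (y : G)⁻¹) * y := by group
      rw [e1]
      exact hN2 _ (hcomm' g hg y (h22 y.2)) x (h12 x.2) y (h22 y.2)
    have h3 : ρ₃ g = 1 := by
      ext x
      change g * x * g⁻¹ = x
      rw [S.pcen g hg x x.2, mul_inv_cancel_right]
    change (ρ₁ g, ρ₂ g, ρ₃ g) = 1
    rw [h1, h2, h3]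
    rfl
  -- the functions `v`, `w`, `ζ`
  let v : G → Additive f₁.range := fun x =>
    if h : x ∈ M₁ then Additive.ofMul (f₁.rangeRestrict ⟨x, h⟩) else 0
  let w : G → Additive f₂.range := fun x =>
    if h : x ∈ M₂ then Additive.ofMul (f₂.rangeRestrict ⟨x, h⟩) else 0
  let ζ : G → Additive N := fun x => if h : x ∈ N then Additive.ofMul ⟨x, h⟩ else 0
  have hv : ∀ x (h : x ∈ M₁), v x = Additive.ofMul (f₁.rangeRestrict ⟨x, h⟩) := fun x h =>
    dif_pos h
  have hw : ∀ x (h : x ∈ M₂), w x = Additive.ofMul (f₂.rangeRestrict ⟨x, h⟩) := fun x h =>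
    dif_pos h
  have hζ : ∀ x (h : x ∈ N), ζ x = Additive.ofMul ⟨x, h⟩ := fun x h => dif_pos h
  have hvs : ∀ a, ∃ x ∈ M₁, v x = a := by
    intro a
    obtain ⟨x, hx⟩ := f₁.rangeRestrict_surjective a.toMul
    exact ⟨x, x.2, by rw [hv x x.2, Subtype.coe_eta, hx]; rfl⟩
  have hws : ∀ a, ∃ x ∈ M₂, w x = a := by
    intro a
    obtain ⟨x, hx⟩ := f₂.rangeRestrict_surjective a.toMul
    exact ⟨x, x.2, by rw [hw x x.2, Subtype.coe_eta, hx]; rfl⟩
  have hvc : ∀ d, ∀ x ∈ M₁, v (d * x * d⁻¹) = ρ.rangeRestrict d • v x := by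
    intro d x hx
    rw [hv x hx, hv _ (h11.conj_mem x hx d)]
    exact congrArg Additive.ofMul (hρ₁ d ⟨x, hx⟩).symm
  have hwc : ∀ d, ∀ x ∈ M₂, w (d * x * d⁻¹) = ρ.rangeRestrict d • w x := by
    intro d x hx
    rw [hw x hx, hw _ (h21.conj_mem x hx d)]
    exact congrArg Additive.ofMul (hρ₂ d ⟨x, hx⟩).symm
  have hζc : ∀ d, ∀ x ∈ N, ζ (d * x * d⁻¹) = ρ.rangeRestrict d • ζ x := by
    intro d x hx
    rw [hζ x hx, hζ _ (Normal.conj_mem inferInstance x hx d)]
    rfl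
  have hζβ : ∀ x ∈ M₁, ∀ y ∈ M₂, ζ (x * y * x⁻¹ * y⁻¹) = β (v x) (w y) := by
    intro x hx y hy
    rw [hζ _ (hcomm x (h12 hx) y (h22 hy)), hv x hx, hw y hy, hβ1]
  have hβeq : ∀ (h : ρ.range) (a : Additive f₁.range) (b : Additive f₂.range),
      β (h • a) (h • b) = h • β a b := by
    intro h a b
    obtain ⟨g, rfl⟩ := ρ.rangeRestrict_surjective h
    obtain ⟨x, hx, rfl⟩ := hvs a
    obtain ⟨y, hy, rfl⟩ := hws b
    rw [← hvc g x hx, ← hwc g y hy, ← hζβ _ (h11.conj_mem x hx g) _ (h21.conj_mem y hy g),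
      ← hζβ x hx y hy, ← hζc g _ (hcomm x (h12 hx) y (h22 hy))]
    congr 1
    group
  have hvm : ∀ x ∈ M₁, ∀ y ∈ M₁, v (x * y) = v x + v y := by
    intro x hx y hy
    rw [hv x hx, hv y hy, hv _ (M₁.mul_mem hx hy)]
    exact congrArg Additive.ofMul (map_mul f₁.rangeRestrict ⟨x, hx⟩ ⟨y, hy⟩)
  have hwm : ∀ x ∈ M₂, ∀ y ∈ M₂, w (x * y) = w x + w y := by
    intro x hx y hy
    rw [hw x hx, hw y hy, hw _ (M₂.mul_mem hx hy)]
    exact congrArg Additive.ofMul (map_mul f₂.rangeRestrict ⟨x, hx⟩ ⟨y, hy⟩)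
  have hζm : ∀ x ∈ N, ∀ y ∈ N, ζ (x * y) = ζ x + ζ y := by
    intro x hx y hy
    rw [hζ x hx, hζ y hy, hζ _ (N.mul_mem hx hy)]
    rfl
  have hv1 : ∀ x ∈ M₁, (∀ y ∈ M₂, x * y = y * x) → v x = 0 := by
    intro x hx h
    rw [hv x hx]
    have h1 : f₁.rangeRestrict ⟨x, hx⟩ = 1 := by
      apply Subtype.ext
      funext y
      apply Subtype.ext
      change x * y * x⁻¹ * (y : G)⁻¹ = 1
      rw [h y y.2, mul_inv_cancel_right, mul_inv_cancel]
    rw [h1]; rfl
  have hw1 : ∀ y ∈ M₂, (∀ x ∈ M₁, x * y = y * x) → w y = 0 := by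
    intro y hy h
    rw [hw y hy]
    have h1 : f₂.rangeRestrict ⟨y, hy⟩ = 1 := by
      apply Subtype.ext
      funext x
      apply Subtype.ext
      change (x : G) * y * (x : G)⁻¹ * y⁻¹ = 1
      rw [h x x.2, mul_inv_cancel_right, mul_inv_cancel]
    rw [h1]; rfl
  have hv1' : ∀ x ∈ M₁, v x = 0 → ∀ y ∈ M₂, x * y = y * x := by
    intro x hx h y hy
    rw [hv x hx] at h
    have h1 : f₁.rangeRestrict ⟨x, hx⟩ = 1 := h
    have h2 : x * y * x⁻¹ * y⁻¹ = 1 :=
      congrArg Subtype.val (congrFun (congrArg Subtype.val h1) ⟨y, hy⟩)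
    rw [mul_inv_eq_one, mul_inv_eq_iff_eq_mul] at h2
    exact h2
  have hw1' : ∀ y ∈ M₂, w y = 0 → ∀ x ∈ M₁, x * y = y * x := by
    intro y hy h x hx
    rw [hw y hy] at h
    have h1 : f₂.rangeRestrict ⟨y, hy⟩ = 1 := h
    have h2 : x * y * x⁻¹ * y⁻¹ = 1 :=
      congrArg Subtype.val (congrFun (congrArg Subtype.val h1) ⟨x, hx⟩)
    rw [mul_inv_eq_one, mul_inv_eq_iff_eq_mul] at h2
    exact h2
  have v_one : v 1 = 0 := hv1 1 M₁.one_mem (fun y _ => by rw [one_mul, mul_one])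
  have w_one : w 1 = 0 := hw1 1 M₂.one_mem (fun y _ => by rw [one_mul, mul_one])
  have v_inv : ∀ x ∈ M₁, v x⁻¹ = -v x := by
    intro x hx
    rw [eq_neg_iff_add_eq_zero, ← hvm _ (M₁.inv_mem hx) _ hx, inv_mul_cancel, v_one]
  have w_inv : ∀ x ∈ M₂, w x⁻¹ = -w x := by
    intro x hx
    rw [eq_neg_iff_add_eq_zero, ← hwm _ (M₂.inv_mem hx) _ hx, inv_mul_cancel, w_one]
  have hρN : N ≤ ρ.rangeRestrict.ker := by
    intro n hn
    exact Subtype.ext (hρp n (S.pEl_N hn))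
  obtain ⟨x₀, hx₀, y₀, hy₀, hne₀⟩ := h23
  refine ⟨p, ρ.range, Additive f₁.range, Additive f₂.range, Additive N, inferInstance,
    inferInstance, inferInstance, inferInstance, inferInstance, inferInstance, inferInstance,
    inferInstance, i1, i2, i3, β, hβeq, ⟨S.prime, ?_, ?_, ?_, ?_, ⟨?_, ?_⟩, ⟨?_, ?_⟩, ?_, ?_⟩, ?_⟩
  · refine S.quotA.of_surjective (QuotientGroup.lift N _ hρN) ?_
    intro y
    obtain ⟨g, rfl⟩ := MonoidHom.rangeRestrict_surjective _ y
    exact ⟨QuotientGroup.mk g, rfl⟩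
  · apply not_dvd_card_of_pEl S.prime
    intro h hh
    obtain ⟨g, rfl⟩ := ρ.rangeRestrict_surjective h
    obtain ⟨g', hg', hgg⟩ := exists_pEl_lift S.prime ρ.rangeRestrict hh
    rw [← hgg]
    exact Subtype.ext (hρp g' hg')
  · intro a
    obtain ⟨x, hx⟩ := f₁.rangeRestrict_surjective a.toMul
    have : (f₁.rangeRestrict x) ^ p = 1 := by
      apply Subtype.ext
      funext y
      apply Subtype.ext
      exact S.exp _ (hc1 x y)
    rw [hx] at this
    exact this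
  · intro a
    obtain ⟨x, hx⟩ := f₂.rangeRestrict_surjective a.toMul
    have : (f₂.rangeRestrict x) ^ p = 1 := by
      apply Subtype.ext
      funext y
      apply Subtype.ext
      exact S.exp _ (hc1 y x)
    rw [hx] at this
    exact this
  · refine ⟨v x₀, 0, fun h => hne₀ ?_⟩
    exact hv1' x₀ hx₀ h y₀ hy₀
  · intro T hT
    let L : Subgroup G :=
      { carrier := {x | x ∈ M₁ ∧ v x ∈ T}
        mul_mem' := by
          rintro a b ⟨ha, ha'⟩ ⟨hb, hb'⟩
          exact ⟨M₁.mul_mem ha hb, by rw [hvm a ha b hb]; exact T.add_mem ha' hb'⟩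
        one_mem' := ⟨M₁.one_mem, by rw [v_one]; exact T.zero_mem⟩
        inv_mem' := by
          rintro a ⟨ha, ha'⟩
          exact ⟨M₁.inv_mem ha, by rw [v_inv a ha]; exact T.neg_mem ha'⟩ }
    have hLn : L.Normal := by
      refine ⟨?_⟩
      rintro a ⟨ha, ha'⟩ g
      exact ⟨h11.conj_mem a ha g, by rw [hvc g a ha]; exact hT _ _ ha'⟩
    by_cases hL : L = M₁
    · right
      rw [eq_top_iff]
      rintro a -
      obtain ⟨x, hx, rfl⟩ := hvs a
      rw [← hL] at hx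
      exact hx.2
    · left
      rw [eq_bot_iff]
      intro a ha
      obtain ⟨x, hx, rfl⟩ := hvs a
      have hx' : x ∈ L := ⟨hx, ha⟩
      rw [AddSubgroup.mem_bot]
      apply hv1 x hx
      intro y hy
      by_contra hcon
      exact hL (hmin1 L ⟨hLn, (fun z hz => h12 hz.1), x, hx', y, h22 hy, hcon⟩
        (fun z hz => hz.1))
  · refine ⟨w y₀, 0, fun h => hne₀ ?_⟩
    exact hw1' y₀ hy₀ h x₀ hx₀
  · intro T hT
    let L : Subgroup G :=
      { carrier := {x | x ∈ M₂ ∧ w x ∈ T}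
        mul_mem' := by
          rintro a b ⟨ha, ha'⟩ ⟨hb, hb'⟩
          exact ⟨M₂.mul_mem ha hb, by rw [hwm a ha b hb]; exact T.add_mem ha' hb'⟩
        one_mem' := ⟨M₂.one_mem, by rw [w_one]; exact T.zero_mem⟩
        inv_mem' := by
          rintro a ⟨ha, ha'⟩
          exact ⟨M₂.inv_mem ha, by rw [w_inv a ha]; exact T.neg_mem ha'⟩ }
    have hLn : L.Normal := by
      refine ⟨?_⟩
      rintro a ⟨ha, ha'⟩ g
      exact ⟨h21.conj_mem a ha g, by rw [hwc g a ha]; exact hT _ _ ha'⟩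
    by_cases hL : L = M₂
    · right
      rw [eq_top_iff]
      rintro a -
      obtain ⟨x, hx, rfl⟩ := hws a
      rw [← hL] at hx
      exact hx.2
    · left
      rw [eq_bot_iff]
      intro a ha
      obtain ⟨y, hy, rfl⟩ := hws a
      have hy' : y ∈ L := ⟨hy, ha⟩
      rw [AddSubgroup.mem_bot]
      apply hw1 y hy
      intro x hx
      by_contra hcon
      exact hL (hmin2 L ⟨hLn, (fun z hz => h22 hz.1), x, hx, y, hy', hcon⟩
        (fun z hz => hz.1))
  · -- faithful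
    intro h hhv hhw
    obtain ⟨g, rfl⟩ := ρ.rangeRestrict_surjective h
    have h1 : ρ₁ g = 1 := by
      ext1 a
      exact hhv (Additive.ofMul a)
    have h2 : ρ₂ g = 1 := by
      ext1 a
      exact hhw (Additive.ofMul a)
    have h3 : ρ₃ g = 1 := by
      -- fixed points of `g` on `N`
      have hle : ⁅M₁, M₂⁆ ≤ N := by
        rw [commutator_le]
        intro x hx y hy
        exact hcomm x (h12 hx) y (h22 hy)
      have hne : ⁅M₁, M₂⁆ ≠ ⊥ := by
        intro hb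
        apply hne₀
        have h4 : ⁅x₀, y₀⁆ ∈ ⁅M₁, M₂⁆ := commutator_mem_commutator hx₀ hy₀
        rw [hb, mem_bot, commutatorElement_eq_one_iff_mul_comm] at h4
        exact h4
      have hN := S.mono _ inferInstance hne
      let T : Subgroup G :=
        { carrier := {n | n ∈ N ∧ g * n * g⁻¹ = n}
          mul_mem' := by
            rintro a b ⟨ha, ha'⟩ ⟨hb, hb'⟩
            refine ⟨N.mul_mem ha hb, ?_⟩
            calc g * (a * b) * g⁻¹ = (g * a * g⁻¹) * (g * b * g⁻¹) := by group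
              _ = a * b := by rw [ha', hb']
          one_mem' := ⟨N.one_mem, by group⟩
          inv_mem' := by
            rintro a ⟨ha, ha'⟩
            refine ⟨N.inv_mem ha, ?_⟩
            calc g * a⁻¹ * g⁻¹ = (g * a * g⁻¹)⁻¹ := by group
              _ = a⁻¹ := by rw [ha'] }
      have hT : ⁅M₁, M₂⁆ ≤ T := by
        rw [commutator_le]
        intro x hx y hy
        have hxy := hcomm x (h12 hx) y (h22 hy)
        refine ⟨hxy, ?_⟩
        have h4 : ζ (g * (x * y * x⁻¹ * y⁻¹) * g⁻¹) = ζ (x * y * x⁻¹ * y⁻¹) := by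
          have e1 : g * (x * y * x⁻¹ * y⁻¹) * g⁻¹ =
            (g * x * g⁻¹) * (g * y * g⁻¹) * (g * x * g⁻¹)⁻¹ * (g * y * g⁻¹)⁻¹ := by group
          rw [e1, hζβ _ (h11.conj_mem x hx g) _ (h21.conj_mem y hy g), hvc g x hx, hwc g y hy,
            hζβ x hx y hy, hhv, hhw]
        rw [hζ _ (Normal.conj_mem inferInstance _ hxy g), hζ _ hxy] at h4
        exact congrArg Subtype.val (Additive.ofMul.injective h4)
      ext n
      exact (hT (hN n.2)).2
    apply Subtype.ext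
    change (ρ₁ g, ρ₂ g, ρ₃ g) = 1
    rw [h1, h2, h3]
    rfl
  · refine ⟨v x₀, w y₀, fun h => hne₀ ?_⟩
    rw [← hζβ x₀ hx₀ y₀ hy₀, hζ _ (hcomm x₀ (h12 hx₀) y₀ (h22 hy₀))] at h
    have h2 : x₀ * y₀ * x₀⁻¹ * y₀⁻¹ = 1 :=
      congrArg Subtype.val (h : (⟨_, hcomm x₀ (h12 hx₀) y₀ (h22 hy₀)⟩ : N) = 1)
    rw [mul_inv_eq_one, mul_inv_eq_iff_eq_mul] at h2
    exact h2
  · refine heis_mem F hF (MonoidHom.id G) surjective_id M₁ M₂ N β hβeq ρ.rangeRestrict
      ρ.rangeRestrict_surjective v w ζ hvm hwm hζm hvc hwc hζc hvs hws ?_ ?_ ?_ ?_ hζβ ?_ ?_ ?_ ?_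
    · intro a
      exact ⟨a.toMul, a.toMul.2, by rw [hζ _ a.toMul.2]; rfl⟩
    · intro x hx
      exact Subtype.ext (hρp x (hMp x (h12 hx)))
    · intro x hx
      exact Subtype.ext (hρp x (hMp x (h22 hx)))
    · intro x hx y hy
      exact hcomm x (h12 hx) y (h22 hy)
    · intro x hx h
      have : x = 1 := h
      rw [this, v_one]
    · intro x hx h
      have : x = 1 := h
      rw [this, w_one]
    · intro x hx h
      have : x = 1 := h
      subst this
      rw [hζ 1 N.one_mem]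
      rfl
    · intro d h
      have : d = 1 := h
      rw [this, map_one]

end Setup

end Pool.Agent.Helper38.Form
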