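import Pool.Agent.Helper38.Form.LemS

/-!
# Passing to the span of the values, and to quotients of it
-/

namespace Pool.Agent.Helper38.Form

open Function Subgroup

set_option linter.unusedSectionVars false

section sd

variable {N G : Type} [Group N] [Group G] {φ : G →* MulAut N}

theorem sd_conj_right (d x : N ⋊[φ] G) (hx : x.right = 1) : (d * x * d⁻¹).right = 1 := by
  simp [hx]

theorem sd_conj_left (d x : N ⋊[φ] G) (hx : x.right = 1) :
    (d * x * d⁻¹).left = d.left * φ d.right x.left * d.left⁻¹ := by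
  simp [SemidirectProduct.mul_left, SemidirectProduct.inv_left, hx]

theorem sd_mul_left (x y : N ⋊[φ] G) (hx : x.right = 1) : (x * y).left = x.left * y.left := by
  simp [SemidirectProduct.mul_left, hx]

theorem sd_inv_left (x : N ⋊[φ] G) (hx : x.right = 1) : (x⁻¹).left = x.left⁻¹ := by
  simp [SemidirectProduct.inv_left, hx]

end sd

section

variable {H V W Z Z₁ : Type} [Group H] [Finite H] [AddCommGroup V] [Finite V] [AddCommGroup W]
  [Finite W] [AddCommGroup Z] [Finite Z]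
  [AddCommGroup Z₁] [Finite Z₁] [DistribMulAction H V] [DistribMulAction H W]
  [DistribMulAction H Z] [DistribMulAction H Z₁] (β : V →+ W →+ Z) (β₁ : V →+ W →+ Z₁)

theorem sub_quot_mem (F : Formation)
    (hβ : ∀ (h : H) (v : V) (w : W), β (h • v) (h • w) = h • β v w)
    (hβ₁ : ∀ (h : H) (v : V) (w : W), β₁ (h • v) (h • w) = h • β₁ v w)
    (hF : F.Mem (Heis β ⋊[heisAct β hβ] H)) (Z₀ : AddSubgroup Z) (r : Z₀ →+ Z₁)
    (hr : Surjective r) (hval : ∀ v w, β v w ∈ Z₀) (hinv : ∀ h : H, ∀ z ∈ Z₀, h • z ∈ Z₀)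
    (hrH : ∀ (h : H) (z : Z₀), r ⟨h • (z : Z), hinv h z z.2⟩ = h • r z)
    (hββ : ∀ v w, r ⟨β v w, hval v w⟩ = β₁ v w) :
    F.Mem (Heis β₁ ⋊[heisAct β₁ hβ₁] H) := by
  classical
  let D := Heis β ⋊[heisAct β hβ] H
  have one_l : (1 : D).left = 1 := rfl
  -- conjugation formulas
  have cj : ∀ (d x : D), x.right = 1 → (d * x * d⁻¹).right = 1 := by
    exact fun d x hx => sd_conj_right d x hx
  have cjv : ∀ (d x : D), x.right = 1 → (d * x * d⁻¹).left.v = d.right • x.left.v := by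
    intro d x hx
    have e : (d * x * d⁻¹).left = d.left * heisAct β hβ d.right x.left * d.left⁻¹ :=
      sd_conj_left d x hx
    rw [e]
    change d.left.v + d.right • x.left.v + -d.left.v = d.right • x.left.v
    abel
  have cjw : ∀ (d x : D), x.right = 1 → (d * x * d⁻¹).left.w = d.right • x.left.w := by
    intro d x hx
    have e : (d * x * d⁻¹).left = d.left * heisAct β hβ d.right x.left * d.left⁻¹ :=
      sd_conj_left d x hx
    rw [e]
    change d.left.w + d.right • x.left.w + -d.left.w = d.right • x.left.w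
    abel
  have cjz : ∀ (d x : D), x.right = 1 → x.left.v = 0 → x.left.w = 0 →
      (d * x * d⁻¹).left.z = d.right • x.left.z := by
    intro d x hx hv hw
    have e : (d * x * d⁻¹).left = d.left * heisAct β hβ d.right x.left * d.left⁻¹ :=
      sd_conj_left d x hx
    rw [e]
    change d.left.z + d.right • x.left.z + β d.left.v (d.right • x.left.w) +
      (-d.left.z + β d.left.v d.left.w) + β (d.left.v + d.right • x.left.v) (-d.left.w) =
      d.right • x.left.z
    rw [hv, hw, smul_zero, smul_zero, map_zero, add_zero, add_zero, map_neg]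
    abel
  have ml : ∀ x y : D, x.right = 1 → (x * y).left = x.left * y.left :=
    fun x y hx => sd_mul_left x y hx
  have il : ∀ x : D, x.right = 1 → (x⁻¹).left = x.left⁻¹ :=
    fun x hx => sd_inv_left x hx
  let M₁ : Subgroup D :=
    { carrier := {x | x.left.w = 0 ∧ x.right = 1}
      mul_mem' := by
        rintro x y ⟨h1, h2⟩ ⟨h3, h4⟩
        refine ⟨?_, by rw [SemidirectProduct.mul_right, h2, h4, one_mul]⟩
        rw [ml x y h2, Heis.mul_w, h1, h3, add_zero]
      one_mem' := ⟨rfl, rfl⟩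
      inv_mem' := by
        rintro x ⟨h1, h2⟩
        refine ⟨?_, by rw [SemidirectProduct.inv_right, h2, inv_one]⟩
        rw [il x h2, Heis.inv_w, h1, neg_zero] }
  let M₂ : Subgroup D :=
    { carrier := {x | x.left.v = 0 ∧ x.right = 1}
      mul_mem' := by
        rintro x y ⟨h1, h2⟩ ⟨h3, h4⟩
        refine ⟨?_, by rw [SemidirectProduct.mul_right, h2, h4, one_mul]⟩
        rw [ml x y h2, Heis.mul_v, h1, h3, add_zero]
      one_mem' := ⟨rfl, rfl⟩
      inv_mem' := by
        rintro x ⟨h1, h2⟩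
        refine ⟨?_, by rw [SemidirectProduct.inv_right, h2, inv_one]⟩
        rw [il x h2, Heis.inv_v, h1, neg_zero] }
  let N : Subgroup D :=
    { carrier := {x | x.left.v = 0 ∧ x.left.w = 0 ∧ x.left.z ∈ Z₀ ∧ x.right = 1}
      mul_mem' := by
        rintro x y ⟨h1, h2, h3, h4⟩ ⟨k1, k2, k3, k4⟩
        refine ⟨?_, ?_, ?_, by rw [SemidirectProduct.mul_right, h4, k4, one_mul]⟩
        · rw [ml x y h4, Heis.mul_v, h1, k1, add_zero]
        · rw [ml x y h4, Heis.mul_w, h2, k2, add_zero]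
        · rw [ml x y h4, Heis.mul_z, k2, map_zero, add_zero]
          exact add_mem h3 k3
      one_mem' := ⟨rfl, rfl, Z₀.zero_mem, rfl⟩
      inv_mem' := by
        rintro x ⟨h1, h2, h3, h4⟩
        refine ⟨?_, ?_, ?_, by rw [SemidirectProduct.inv_right, h4, inv_one]⟩
        · rw [il x h4, Heis.inv_v, h1, neg_zero]
        · rw [il x h4, Heis.inv_w, h2, neg_zero]
        · rw [il x h4, Heis.inv_z, h2, map_zero, add_zero]
          exact neg_mem h3 }
  have n1 : M₁.Normal := ⟨fun x hx d => ⟨by rw [cjw d x hx.2, hx.1, smul_zero], cj d x hx.2⟩⟩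
  have n2 : M₂.Normal := ⟨fun x hx d => ⟨by rw [cjv d x hx.2, hx.1, smul_zero], cj d x hx.2⟩⟩
  have n3 : N.Normal := ⟨fun x hx d => ⟨by rw [cjv d x hx.2.2.2, hx.1, smul_zero],
    by rw [cjw d x hx.2.2.2, hx.2.1, smul_zero],
    by rw [cjz d x hx.2.2.2 hx.1 hx.2.1]; exact hinv _ _ hx.2.2.1, cj d x hx.2.2.2⟩⟩
  let ζ : D → Z₁ := fun x => if h : x.left.z ∈ Z₀ then r ⟨x.left.z, h⟩ else 0
  have hζ : ∀ (x : D) (h : x.left.z ∈ Z₀), ζ x = r ⟨x.left.z, h⟩ := fun x h => dif_pos h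
  -- commutator formula
  have cm : ∀ x ∈ M₁, ∀ y ∈ M₂, (x * y * x⁻¹ * y⁻¹).left.v = 0 ∧
      (x * y * x⁻¹ * y⁻¹).left.w = 0 ∧ (x * y * x⁻¹ * y⁻¹).left.z = β x.left.v y.left.w ∧
      (x * y * x⁻¹ * y⁻¹).right = 1 := by
    rintro x ⟨h1, h2⟩ y ⟨k1, k2⟩
    have e1 : (x * y).right = 1 := by rw [SemidirectProduct.mul_right, h2, k2, one_mul]
    have e2 : (x * y * x⁻¹).right = 1 := by
      rw [SemidirectProduct.mul_right, e1, SemidirectProduct.inv_right, h2, inv_one, one_mul]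
    have e3 : (x * y * x⁻¹ * y⁻¹).left = x.left * y.left * x.left⁻¹ * y.left⁻¹ := by
      rw [ml _ _ e2, ml _ _ e1, ml _ _ h2, il x h2, il y k2]
    refine ⟨?_, ?_, ?_, ?_⟩
    · rw [e3]
      simp only [Heis.mul_v, Heis.inv_v]
      abel
    · rw [e3]
      simp only [Heis.mul_w, Heis.inv_w]
      abel
    · rw [e3]
      simp only [Heis.inv_w, Heis.mul_v, Heis.inv_v, Heis.mul_z, Heis.inv_z, h1, k1,
        map_zero, AddMonoidHom.zero_apply, neg_zero, add_zero, add_neg_cancel]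
      abel
    · rw [SemidirectProduct.mul_right, e2, SemidirectProduct.inv_right, k2, inv_one, one_mul]
  refine heis_mem F (D := D) (G := D) hF (MonoidHom.id D) (fun x => ⟨x, rfl⟩) M₁ M₂ N β₁ hβ₁
    SemidirectProduct.rightHom SemidirectProduct.rightHom_surjective (fun x => x.left.v)
    (fun x => x.left.w) ζ ?_ ?_ ?_ ?_ ?_ ?_ ?_ ?_ ?_ ?_ ?_ ?_ ?_ ?_ ?_ ?_ ?_
  · intro x hx y _
    change (x * y).left.v = _
    rw [ml x y hx.2, Heis.mul_v]
  · intro x hx y _
    change (x * y).left.w = _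
    rw [ml x y hx.2, Heis.mul_w]
  · intro x hx y hy
    rw [hζ x hx.2.2.1, hζ y hy.2.2.1, hζ (x * y) (N.mul_mem hx hy).2.2.1, ← map_add]
    congr 1
    apply Subtype.ext
    change (x * y).left.z = x.left.z + y.left.z
    rw [ml x y hx.2.2.2, Heis.mul_z, hx.1, map_zero, AddMonoidHom.zero_apply, add_zero]
  · intro d x hx
    exact cjv d x hx.2
  · intro d x hx
    exact cjw d x hx.2
  · intro d x hx
    rw [hζ x hx.2.2.1, hζ _ (n3.conj_mem x hx d).2.2.1]
    change _ = d.right • _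
    rw [← hrH]
    congr 1
    apply Subtype.ext
    exact cjz d x hx.2.2.2 hx.1 hx.2.1
  · intro a
    exact ⟨⟨⟨a, 0, 0⟩, 1⟩, ⟨rfl, rfl⟩, rfl⟩
  · intro a
    exact ⟨⟨⟨0, a, 0⟩, 1⟩, ⟨rfl, rfl⟩, rfl⟩
  · intro a
    obtain ⟨z, rfl⟩ := hr a
    exact ⟨⟨⟨0, 0, z⟩, 1⟩, ⟨rfl, rfl, z.2, rfl⟩, hζ _ z.2⟩
  · intro x hx
    exact hx.2
  · intro x hx
    exact hx.2
  · intro x hx y hy
    obtain ⟨a1, a2, a3, a4⟩ := cm x hx y hy
    exact ⟨a1, a2, by rw [a3]; exact hval _ _, a4⟩
  · intro x hx y hy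
    obtain ⟨a1, a2, a3, a4⟩ := cm x hx y hy
    have : (x * y * x⁻¹ * y⁻¹).left.z ∈ Z₀ := by rw [a3]; exact hval _ _
    rw [hζ _ this, ← hββ]
    congr 1
    exact Subtype.ext a3
  · intro x _ hx
    have : x = 1 := hx
    rw [this]; rfl
  · intro x _ hx
    have : x = 1 := hx
    rw [this]; rfl
  · intro x hx' hx
    have h1 : x = 1 := hx
    have h2 : (⟨x.left.z, hx'.2.2.1⟩ : Z₀) = 0 := by
      apply Subtype.ext
      change x.left.z = 0
      rw [h1]; rfl
    rw [hζ x hx'.2.2.1, h2, map_zero]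
  · intro d hd
    have : d = 1 := hd
    rw [this]; rfl

end

end Pool.Agent.Helper38.Form
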