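import Pool.Agent.Helper38.Form.Basic

/-!
# Two constructions of groups in a formation
-/

namespace Pool.Agent.Helper38.Form

open Function

/-- `M ⋊ G/C_G(M)` lies in `form(G)`, in a flexible form. -/
theorem hol_mem (F : Formation) {D G E Y : Type} [Group D] [Finite D] [Group G] [Finite G]
    [Group E] [Group Y] [Finite Y] (K : Subgroup (MulAut E)) (hF : F.Mem G)
    (ψ : D →* G) (hψ : Surjective ψ) (M : Subgroup D) [M.Normal] (q : M →* E)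
    (hq : Surjective q) (f : D →* K) (hf : Surjective f)
    (hcompat : ∀ (d : D) (x : M), q (MulAut.conjNormal d x) = (f d : MulAut E) (q x))
    (b : Hol E K →* Y) (hb : Surjective b)
    (hker : ∀ (x : M) (d : D), ψ x = 1 → ψ d = 1 → b ⟨q x, f d⟩ = 1) : F.Mem Y := by
  let X := M ⋊[(MulAut.conjNormal : D →* MulAut M)] D
  let a₁ : X →* G := SemidirectProduct.lift (ψ.comp M.subtype) ψ (by
    intro g
    ext x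
    simp)
  let a₂ : X →* G := ψ.comp SemidirectProduct.rightHom
  let b₀ : X →* Hol E K := SemidirectProduct.map q f (by
    intro g
    ext x
    exact hcompat g x)
  have hb₀ : Surjective b₀ := by
    rintro ⟨e, k⟩
    obtain ⟨x, rfl⟩ := hq e
    obtain ⟨d, rfl⟩ := hf k
    exact ⟨⟨x, d⟩, rfl⟩
  refine F.mem_of_family' (X := X) (ι := Bool) hF (fun i => if i then a₁ else a₂) ?_
    (b.comp b₀) (hb.comp hb₀) ?_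
  · intro i
    cases i
    · exact hψ.comp SemidirectProduct.rightHom_surjective
    · intro g
      obtain ⟨d, rfl⟩ := hψ g
      refine ⟨SemidirectProduct.inr d, ?_⟩
      change (ψ.comp M.subtype) 1 * ψ d = ψ d
      rw [map_one, one_mul]
  · rintro ⟨x, d⟩ h
    have h1 : ψ x * ψ d = 1 := h true
    have h2 : ψ d = 1 := h false
    rw [h2, mul_one] at h1
    exact hker x d h1 h2

/-- The cube construction: from normal subgroups `M₁`, `M₂` of `D` one gets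
`Heis(M₁/L₁, M₂/L₂, [M₁,M₂]) ⋊ D/C` in the formation. -/
theorem heis_mem (F : Formation) {D G H V W Z : Type} [Group D] [Finite D] [Group G] [Finite G]
    [Group H] [Finite H] [AddCommGroup V] [AddCommGroup W] [AddCommGroup Z] [Finite V] [Finite W]
    [Finite Z] [DistribMulAction H V] [DistribMulAction H W] [DistribMulAction H Z]
    (hF : F.Mem G) (ψ : D →* G) (hψ : Surjective ψ)
    (M₁ M₂ N : Subgroup D) [M₁.Normal] [M₂.Normal] [N.Normal]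
    (β : V →+ W →+ Z) (hβ : ∀ (h : H) (v : V) (w : W), β (h • v) (h • w) = h • β v w)
    (f : D →* H) (hf : Surjective f) (v : D → V) (w : D → W) (ζ : D → Z)
    (v_mul : ∀ x ∈ M₁, ∀ y ∈ M₁, v (x * y) = v x + v y)
    (w_mul : ∀ x ∈ M₂, ∀ y ∈ M₂, w (x * y) = w x + w y)
    (ζ_mul : ∀ x ∈ N, ∀ y ∈ N, ζ (x * y) = ζ x + ζ y)
    (v_conj : ∀ d, ∀ x ∈ M₁, v (d * x * d⁻¹) = f d • v x)
    (w_conj : ∀ d, ∀ x ∈ M₂, w (d * x * d⁻¹) = f d • w x)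
    (ζ_conj : ∀ d, ∀ x ∈ N, ζ (d * x * d⁻¹) = f d • ζ x)
    (v_surj : ∀ a, ∃ x ∈ M₁, v x = a) (w_surj : ∀ a, ∃ x ∈ M₂, w x = a)
    (ζ_surj : ∀ a, ∃ x ∈ N, ζ x = a)
    (f₁ : ∀ x ∈ M₁, f x = 1) (f₂ : ∀ x ∈ M₂, f x = 1)
    (comm_mem : ∀ x ∈ M₁, ∀ y ∈ M₂, x * y * x⁻¹ * y⁻¹ ∈ N)
    (ζ_comm : ∀ x ∈ M₁, ∀ y ∈ M₂, ζ (x * y * x⁻¹ * y⁻¹) = β (v x) (w y))
    (v_ker : ∀ x ∈ M₁, ψ x = 1 → v x = 0) (w_ker : ∀ x ∈ M₂, ψ x = 1 → w x = 0)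
    (ζ_ker : ∀ x ∈ N, ψ x = 1 → ζ x = 0) (f_ker : ∀ d, ψ d = 1 → f d = 1) :
    F.Mem (Heis β ⋊[heisAct β hβ] H) := by
  have nN : ∀ {d x : D}, x ∈ N → d * x * d⁻¹ ∈ N := fun {d x} hx =>
    Subgroup.Normal.conj_mem inferInstance x hx d
  have n₁ : ∀ {d x : D}, x ∈ M₁ → d * x * d⁻¹ ∈ M₁ := fun {d x} hx =>
    Subgroup.Normal.conj_mem inferInstance x hx d
  have n₂ : ∀ {d x : D}, x ∈ M₂ → d * x * d⁻¹ ∈ M₂ := fun {d x} hx =>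
    Subgroup.Normal.conj_mem inferInstance x hx d
  -- key identity for the third parameter
  have key : ∀ d₁ d₂ d₃ d₄ e₁ e₂ e₃ e₄ : D,
      (d₂ * e₂) * (d₁ * e₁)⁻¹ * (d₄ * e₄) * (d₃ * e₃)⁻¹ =
      (d₂ * d₁⁻¹ * d₄ * d₃⁻¹) *
        (((d₃ * d₄⁻¹) * (d₁ * d₄⁻¹) * d₄) * (e₂ * e₁⁻¹ * e₄ * e₃⁻¹) *
          ((d₃ * d₄⁻¹) * (d₁ * d₄⁻¹) * d₄)⁻¹) *
        ((d₃ * d₄⁻¹) * ((d₁ * d₄⁻¹) * (d₄ * (e₃ * e₄⁻¹) * d₄⁻¹) * (d₁ * d₄⁻¹)⁻¹ *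
          (d₄ * (e₃ * e₄⁻¹) * d₄⁻¹)⁻¹) * (d₃ * d₄⁻¹)⁻¹) := by
    intros; group
  let X : Subgroup (D × D × D × D) :=
    { carrier := {d | d.1 * d.2.2.2⁻¹ ∈ M₁ ∧ d.2.2.1 * d.2.2.2⁻¹ ∈ M₂ ∧
        d.2.1 * d.1⁻¹ * d.2.2.2 * d.2.2.1⁻¹ ∈ N}
      mul_mem' := by
        rintro ⟨d₁, d₂, d₃, d₄⟩ ⟨e₁, e₂, e₃, e₄⟩ ⟨h1, h2, h3⟩ ⟨k1, k2, k3⟩
        dsimp only at h1 h2 h3 k1 k2 k3
        refine ⟨?_, ?_, ?_⟩
        · have : d₁ * e₁ * (d₄ * e₄)⁻¹ = (d₁ * d₄⁻¹) * (d₄ * (e₁ * e₄⁻¹) * d₄⁻¹) := by group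
          change d₁ * e₁ * (d₄ * e₄)⁻¹ ∈ M₁
          rw [this]
          exact M₁.mul_mem h1 (n₁ k1)
        · have : d₃ * e₃ * (d₄ * e₄)⁻¹ = (d₃ * d₄⁻¹) * (d₄ * (e₃ * e₄⁻¹) * d₄⁻¹) := by group
          change d₃ * e₃ * (d₄ * e₄)⁻¹ ∈ M₂
          rw [this]
          exact M₂.mul_mem h2 (n₂ k2)
        · change (d₂ * e₂) * (d₁ * e₁)⁻¹ * (d₄ * e₄) * (d₃ * e₃)⁻¹ ∈ N
          rw [key]
          exact N.mul_mem (N.mul_mem h3 (nN k3)) (nN (comm_mem _ h1 _ (n₂ k2)))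
      one_mem' := by simp [M₁.one_mem, M₂.one_mem, N.one_mem]
      inv_mem' := by
        rintro ⟨d₁, d₂, d₃, d₄⟩ ⟨h1, h2, h3⟩
        dsimp only at h1 h2 h3
        refine ⟨?_, ?_, ?_⟩
        · have : d₁⁻¹ * (d₄⁻¹)⁻¹ = d₄⁻¹ * (d₁ * d₄⁻¹)⁻¹ * (d₄⁻¹)⁻¹ := by group
          change d₁⁻¹ * (d₄⁻¹)⁻¹ ∈ M₁
          rw [this]
          exact n₁ (M₁.inv_mem h1)
        · have : d₃⁻¹ * (d₄⁻¹)⁻¹ = d₄⁻¹ * (d₃ * d₄⁻¹)⁻¹ * (d₄⁻¹)⁻¹ := by group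
          change d₃⁻¹ * (d₄⁻¹)⁻¹ ∈ M₂
          rw [this]
          exact n₂ (M₂.inv_mem h2)
        · have : d₂⁻¹ * (d₁⁻¹)⁻¹ * d₄⁻¹ * (d₃⁻¹)⁻¹ =
              ((d₁⁻¹ * d₄ * d₃⁻¹) * (d₂ * d₁⁻¹ * d₄ * d₃⁻¹)⁻¹ * (d₁⁻¹ * d₄ * d₃⁻¹)⁻¹) *
              ((d₁⁻¹ * d₄ * d₃⁻¹) * ((d₁ * d₄⁻¹) * (d₃ * d₄⁻¹) * (d₁ * d₄⁻¹)⁻¹ *
                (d₃ * d₄⁻¹)⁻¹) * (d₁⁻¹ * d₄ * d₃⁻¹)⁻¹) := by
            group
          change d₂⁻¹ * (d₁⁻¹)⁻¹ * d₄⁻¹ * (d₃⁻¹)⁻¹ ∈ N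
          rw [this]
          exact N.mul_mem (nN (N.inv_mem h3)) (nN (comm_mem _ h1 _ h2)) }
  have v_one : v 1 = 0 := by
    have := v_mul 1 M₁.one_mem 1 M₁.one_mem
    rw [mul_one] at this
    simpa using this
  have w_one : w 1 = 0 := by
    have := w_mul 1 M₂.one_mem 1 M₂.one_mem
    rw [mul_one] at this
    simpa using this
  have ζ_one : ζ 1 = 0 := by
    have := ζ_mul 1 N.one_mem 1 N.one_mem
    rw [mul_one] at this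
    simpa using this
  let b : X →* Heis β ⋊[heisAct β hβ] H :=
    { toFun := fun d =>
        ⟨⟨v (d.1.1 * d.1.2.2.2⁻¹), w (d.1.2.2.1 * d.1.2.2.2⁻¹),
          ζ (d.1.2.1 * d.1.1⁻¹ * d.1.2.2.2 * d.1.2.2.1⁻¹)⟩, f d.1.2.2.2⟩
      map_one' := by
        ext <;> simp [v_one, w_one, ζ_one]
      map_mul' := by
        rintro ⟨⟨d₁, d₂, d₃, d₄⟩, ⟨h1, h2, h3⟩⟩ ⟨⟨e₁, e₂, e₃, e₄⟩, ⟨k1, k2, k3⟩⟩
        dsimp only at h1 h2 h3 k1 k2 k3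
        have e1 : d₁ * e₁ * (d₄ * e₄)⁻¹ = (d₁ * d₄⁻¹) * (d₄ * (e₁ * e₄⁻¹) * d₄⁻¹) := by group
        have e2 : d₃ * e₃ * (d₄ * e₄)⁻¹ = (d₃ * d₄⁻¹) * (d₄ * (e₃ * e₄⁻¹) * d₄⁻¹) := by group
        have g1 : v (d₁ * e₁ * (d₄ * e₄)⁻¹) = v (d₁ * d₄⁻¹) + f d₄ • v (e₁ * e₄⁻¹) := by
          rw [e1, v_mul _ h1 _ (n₁ k1), v_conj _ _ k1]
        have g2 : w (d₃ * e₃ * (d₄ * e₄)⁻¹) = w (d₃ * d₄⁻¹) + f d₄ • w (e₃ * e₄⁻¹) := by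
          rw [e2, w_mul _ h2 _ (n₂ k2), w_conj _ _ k2]
        have g3 : ζ ((d₂ * e₂) * (d₁ * e₁)⁻¹ * (d₄ * e₄) * (d₃ * e₃)⁻¹) =
            ζ (d₂ * d₁⁻¹ * d₄ * d₃⁻¹) + f d₄ • ζ (e₂ * e₁⁻¹ * e₄ * e₃⁻¹) +
            β (v (d₁ * d₄⁻¹)) (f d₄ • w (e₃ * e₄⁻¹)) := by
          rw [key, ζ_mul _ (N.mul_mem h3 (nN k3)) _ (nN (comm_mem _ h1 _ (n₂ k2))),
            ζ_mul _ h3 _ (nN k3), ζ_conj _ _ k3, ζ_conj _ _ (comm_mem _ h1 _ (n₂ k2)),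
            ζ_comm _ h1 _ (n₂ k2), w_conj _ _ k2, map_mul, map_mul, f₁ _ h1, f₂ _ h2,
            one_mul, one_mul, one_smul]
        ext
        · exact g1
        · exact g2
        · exact g3
        · exact map_mul f d₄ e₄ }
  refine F.mem_of_family' (ι := Fin 4) (X := X) hF
    (fun i => match i with
      | 0 => (ψ.comp (MonoidHom.fst _ _)).comp X.subtype
      | 1 => (ψ.comp ((MonoidHom.fst _ _).comp (MonoidHom.snd _ _))).comp X.subtype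
      | 2 => (ψ.comp ((MonoidHom.fst _ _).comp
          ((MonoidHom.snd _ _).comp (MonoidHom.snd _ _)))).comp X.subtype
      | 3 => (ψ.comp ((MonoidHom.snd _ _).comp
          ((MonoidHom.snd _ _).comp (MonoidHom.snd _ _)))).comp X.subtype)
    ?_ b ?_ ?_
  · intro i g
    obtain ⟨d, rfl⟩ := hψ g
    refine ⟨⟨(d, d, d, d), ?_, ?_, ?_⟩, ?_⟩
    · simp [M₁.one_mem]
    · simp [M₂.one_mem]
    · simp [N.one_mem]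
    · fin_cases i <;> rfl
  · rintro ⟨⟨v₀, w₀, z₀⟩, h₀⟩
    obtain ⟨x, hx, rfl⟩ := v_surj v₀
    obtain ⟨y, hy, rfl⟩ := w_surj w₀
    obtain ⟨n, hn, rfl⟩ := ζ_surj z₀
    obtain ⟨g, rfl⟩ := hf h₀
    have e1 : x * g * g⁻¹ = x := by group
    have e2 : y * g * g⁻¹ = y := by group
    have e3 : n * y * x * g * (x * g)⁻¹ * g * (y * g)⁻¹ = n := by group
    refine ⟨⟨(x * g, n * y * x * g, y * g, g), ?_, ?_, ?_⟩, ?_⟩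
    · change x * g * g⁻¹ ∈ M₁
      rwa [e1]
    · change y * g * g⁻¹ ∈ M₂
      rwa [e2]
    · change n * y * x * g * (x * g)⁻¹ * g * (y * g)⁻¹ ∈ N
      rwa [e3]
    · ext
      · exact congrArg v e1
      · exact congrArg w e2
      · exact congrArg ζ e3
      · rfl
  · rintro ⟨⟨d₁, d₂, d₃, d₄⟩, ⟨h1, h2, h3⟩⟩ h
    dsimp only at h1 h2 h3
    have a1 : ψ d₁ = 1 := h 0
    have a2 : ψ d₂ = 1 := h 1
    have a3 : ψ d₃ = 1 := h 2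
    have a4 : ψ d₄ = 1 := h 3
    ext
    · exact v_ker _ h1 (by simp [a1, a4])
    · exact w_ker _ h2 (by simp [a3, a4])
    · exact ζ_ker _ h3 (by simp [a1, a2, a3, a4])
    · exact f_ker _ a4

end Pool.Agent.Helper38.Form
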