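import Pool.Agent.Helper38.Form.Iface

/-!
# Transfer arguments for abelian Sylow subgroups
-/

namespace Pool.Agent.Helper38.Form

open Function Subgroup

theorem eq_one_of_coprime_pow {T : Type} [Group T] {x : T} {p k m : ℕ} (hp : p.Prime)
    (h1 : x ^ p ^ k = 1) (hm : ¬ p ∣ m) (h2 : x ^ m = 1) : x = 1 := by
  have h3 : orderOf x ∣ p ^ k := orderOf_dvd_of_pow_eq_one h1
  have h4 : orderOf x ∣ m := orderOf_dvd_of_pow_eq_one h2
  have h5 : Nat.Coprime (p ^ k) m := Nat.Coprime.pow_left k ((Nat.Prime.coprime_iff_not_dvd hp).2 hm)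
  have h6 : orderOf x ∣ 1 := by
    rw [← Nat.Coprime.gcd_eq_one h5]
    exact Nat.dvd_gcd h3 h4
  rw [← orderOf_eq_one_iff]
  exact Nat.dvd_one.1 h6

open scoped IsMulCommutative in
theorem tr2 {T : Type} [Group T] [Finite T] {p : ℕ} [Fact p.Prime] (P : Sylow p T)
    (hP : ∀ x ∈ P, ∀ y ∈ P, x * y = y * x) (x : T) (hx : x ∈ P)
    (hn : ∀ n ∈ normalizer (P : Set T), n * x * n⁻¹ = x) (hc : x ∈ commutator T) : x = 1 := by
  have : IsMulCommutative P := ⟨⟨fun a b => Subtype.ext (hP a a.2 b b.2)⟩⟩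
  let τ : T →* P := MonoidHom.transfer (MonoidHom.id P)
  have hn' : ∀ n ∈ normalizer (P : Set T), ∀ k : ℕ, n⁻¹ * x ^ k * n = x ^ k := by
    intro n hn1 k
    have h1 : n * x ^ k * n⁻¹ = x ^ k := by
      rw [← conj_pow, hn n hn1]
    calc n⁻¹ * x ^ k * n = n⁻¹ * (n * x ^ k * n⁻¹) * n := by rw [h1]
      _ = x ^ k := by group
  have key : ∀ (k : ℕ) (g₀ : T), g₀⁻¹ * x ^ k * g₀ ∈ (P : Subgroup T) →
      g₀⁻¹ * x ^ k * g₀ = x ^ k := by
    intro k g₀ h
    obtain ⟨n, hn1, h⟩ := P.conj_eq_normalizer_conj_of_mem (x ^ k) g₀ (P.pow_mem hx k) h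
    rw [h, hn' n hn1 k]
  have h1 : τ x = ⟨x ^ (P : Subgroup T).index, _⟩ := MonoidHom.transfer_eq_pow _ _ key
  have h2 : τ x = 1 := Abelianization.commutator_subset_ker τ hc
  rw [h1] at h2
  have h3 : x ^ (P : Subgroup T).index = 1 := congrArg Subtype.val h2
  obtain ⟨k, hk⟩ := P.2 ⟨x, hx⟩
  exact eq_one_of_coprime_pow Fact.out (congrArg Subtype.val hk) P.not_dvd_index h3

/-- A central `p`-element in the commutator subgroup is trivial if the Sylow `p`-subgroups are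
abelian. -/
theorem tr1 {T : Type} [Group T] [Finite T] {p : ℕ} (hp : p.Prime)
    (hT : AbIn p (⊤ : Subgroup T)) (z : T) (hz : z ∈ center T) (hzp : ∃ k : ℕ, z ^ p ^ k = 1)
    (hc : z ∈ commutator T) : z = 1 := by
  have : Fact p.Prime := ⟨hp⟩
  have h1 : IsPGroup p (zpowers z) := by
    obtain ⟨k, hk⟩ := hzp
    rintro ⟨_, n, rfl⟩
    refine ⟨k, Subtype.ext ?_⟩
    change (z ^ n) ^ p ^ k = 1
    rw [← zpow_natCast, ← zpow_mul, mul_comm, zpow_mul, zpow_natCast, hk, one_zpow]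
  obtain ⟨P, hP⟩ := h1.exists_le_sylow
  refine tr2 P (hT P P.2 le_top) z (hP (mem_zpowers z)) ?_ hc
  intro n _
  rw [mem_center_iff.1 hz n, mul_assoc, mul_inv_cancel, mul_one]

/-- The canonical complement: elements of `P` centralised by `N_{MP}(P)`. -/
def Cset {K : Type} [Group K] (P M : Subgroup K) : Set K :=
  {x | x ∈ P ∧ ∀ n ∈ M ⊔ P, (∀ y, y ∈ P ↔ n * y * n⁻¹ ∈ P) → n * x * n⁻¹ = x}

theorem mem_normalizer_iff' {K : Type} [Group K] (P : Subgroup K) (n : K) :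
    n ∈ normalizer (P : Set K) ↔ ∀ y, y ∈ P ↔ n * y * n⁻¹ ∈ P := by
  exact Subgroup.mem_normalizer_iff

theorem cset_inf {K : Type} [Group K] [Finite K] {p : ℕ} [Fact p.Prime] (P : Sylow p K)
    (hP : ∀ x ∈ P, ∀ y ∈ P, x * y = y * x) (M : Subgroup K) [M.Normal] (hM : ⁅M, M⁆ = M)
    {x : K} (hxM : x ∈ M) (hxC : x ∈ Cset (P : Subgroup K) M) : x = 1 := by
  let T : Subgroup K := M ⊔ P
  have hPT : (P : Subgroup K) ≤ T := le_sup_right
  have hxT : x ∈ T := (le_sup_left : M ≤ T) hxM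
  have := tr2 (P.subtype hPT) ?_ ⟨x, hxT⟩ ?_ ?_ ?_
  · exact congrArg Subtype.val this
  · intro a ha b hb
    exact Subtype.ext (hP a ha b hb)
  · exact hxC.1
  · intro n hn
    apply Subtype.ext
    apply hxC.2 n n.2
    replace hn := Subgroup.mem_normalizer_iff.1 hn
    intro y
    constructor
    · intro hy
      exact (hn ⟨y, hPT hy⟩).1 hy
    · intro hy
      have h1 : (n : K) * y * (n : K)⁻¹ ∈ T := hPT hy
      have h2 : y ∈ T := by
        have : y = (n : K)⁻¹ * ((n : K) * y * (n : K)⁻¹) * n := by group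
        rw [this]
        exact T.mul_mem (T.mul_mem (T.inv_mem n.2) h1) n.2
      exact (hn ⟨y, h2⟩).2 hy
  · have h1 : x ∈ (commutator T).map T.subtype := by
      rw [_root_.commutator_def, map_commutator]
      have h2 : (⊤ : Subgroup T).map T.subtype = T := by
        rw [← MonoidHom.range_eq_map, range_subtype]
      rw [h2]
      have h3 : ⁅M, M⁆ ≤ ⁅T, T⁆ := commutator_mono le_sup_left le_sup_left
      rw [hM] at h3
      exact h3 hxM
    obtain ⟨y, hy, hyx⟩ := h1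
    have : y = ⟨x, hxT⟩ := Subtype.ext hyx
    rw [← this]
    exact hy

open scoped IsMulCommutative in
theorem cset_decomp {K : Type} [Group K] [Finite K] {p : ℕ} [Fact p.Prime] (P : Sylow p K)
    (hP : ∀ x ∈ P, ∀ y ∈ P, x * y = y * x) (M : Subgroup K) [M.Normal]
    {x : K} (hx : x ∈ P) : ∃ m ∈ P, m ∈ M ∧ ∃ c ∈ Cset (P : Subgroup K) M, x = m * c := by
  classical
  have : IsMulCommutative P := ⟨⟨fun a b => Subtype.ext (hP a a.2 b b.2)⟩⟩
  let φ : normalizer ((P : Subgroup K) : Set K) →* MulAut P := (P : Subgroup K).normalizerMonoidHom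
  let N₀ : Subgroup (normalizer ((P : Subgroup K) : Set K)) :=
    (M ⊔ P).subgroupOf (normalizer ((P : Subgroup K) : Set K))
  let Q : Subgroup (MulAut P) := N₀.map φ
  have hφ : ∀ (n : normalizer ((P : Subgroup K) : Set K)) (y : P),
      ((φ n y : P) : K) = n * y * (n : K)⁻¹ := fun n y => rfl
  have := Fintype.ofFinite Q
  -- the order of `Q` is prime to `p`
  have hQ : ¬ p ∣ Nat.card Q := by
    intro hdvd
    have h1 : Nat.card Q ∣ Nat.card φ.range := card_dvd_of_le (Subgroup.map_le_range φ N₀)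
    rw [← index_ker] at h1
    have h2 : (P : Subgroup K).subgroupOf (normalizer ((P : Subgroup K) : Set K)) ≤ φ.ker := by
      intro y hy
      rw [MonoidHom.mem_ker]
      ext z
      rw [hφ]
      have := hP y hy z z.2
      rw [this, mul_assoc, mul_inv_cancel, mul_one]
      rfl
    have h3 := index_dvd_of_le h2
    have h4 : (P : Subgroup K).relIndex (normalizer ((P : Subgroup K) : Set K)) ∣
        (P : Subgroup K).index := by
      rw [← relIndex_mul_index (le_normalizer (H := (P : Subgroup K)))]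
      exact dvd_mul_right _ _
    exact P.not_dvd_index (hdvd.trans (h1.trans (h3.trans h4)))
  let y : P := ∏ q : Q, (q : MulAut P) ⟨x, hx⟩
  have hyinv : ∀ q₀ : Q, (q₀ : MulAut P) y = y := by
    intro q₀
    change (q₀ : MulAut P) (∏ q : Q, (q : MulAut P) ⟨x, hx⟩) = _
    rw [map_prod]
    refine Fintype.prod_equiv (Equiv.mulLeft q₀) _ _ ?_
    intro q
    rfl
  have hyC : (y : K) ∈ Cset (P : Subgroup K) M := by
    refine ⟨y.2, ?_⟩
    intro n hn hn'
    have hnn : n ∈ normalizer ((P : Subgroup K) : Set K) := mem_normalizer_iff.2 hn'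
    have hq : φ ⟨n, hnn⟩ ∈ Q := mem_map_of_mem φ (show (⟨n, hnn⟩ : normalizer _) ∈ N₀ from hn)
    have := hyinv ⟨_, hq⟩
    exact congrArg Subtype.val this
  -- modulo `M`, `y ≡ x ^ card Q`
  have hmod : ∀ q : Q, ∃ u : P, (u : K) ∈ M ∧ (q : MulAut P) ⟨x, hx⟩ = u * ⟨x, hx⟩ := by
    rintro ⟨_, ⟨n, hn⟩, hnN, rfl⟩
    refine ⟨φ ⟨n, hn⟩ ⟨x, hx⟩ * ⟨x, hx⟩⁻¹, ?_, by simp⟩
    change n * x * n⁻¹ * x⁻¹ ∈ M
    have hnN' : n ∈ M ⊔ P := hnN
    obtain ⟨m, hm, r, hr, rfl⟩ := mem_sup_of_normal_left.1 hnN'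
    have h1 : r * x = x * r := hP r hr x hx
    have h2 : m * r * x * (m * r)⁻¹ * x⁻¹ = m * (x * m⁻¹ * x⁻¹) := by
      rw [mul_assoc m r x, h1]
      group
    rw [h2]
    exact M.mul_mem hm (Normal.conj_mem inferInstance _ (M.inv_mem hm) x)
  have hprod : ∀ s : Finset Q, ∃ u : P, (u : K) ∈ M ∧
      ∏ q ∈ s, (q : MulAut P) ⟨x, hx⟩ = u * ⟨x, hx⟩ ^ s.card := by
    intro s
    induction s using Finset.induction_on with
    | empty => exact ⟨1, M.one_mem, by simp⟩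
    | insert q s hq ih =>
      obtain ⟨u, hu, h⟩ := ih
      obtain ⟨w, hw, h'⟩ := hmod q
      refine ⟨w * u, M.mul_mem hw hu, ?_⟩
      rw [Finset.prod_insert hq, h, h', Finset.card_insert_of_notMem hq, pow_succ']
      rw [mul_mul_mul_comm]
  obtain ⟨u, hu, huy⟩ := hprod Finset.univ
  have hyu : y = u * ⟨x, hx⟩ ^ Nat.card Q := by
    rw [Nat.card_eq_fintype_card]
    exact huy
  -- invert `card Q` modulo the order of `x`
  obtain ⟨k, hk⟩ := P.2 ⟨x, hx⟩
  have hcop : Nat.Coprime (Nat.card Q) (orderOf (⟨x, hx⟩ : P)) :=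
    Nat.Coprime.coprime_dvd_right (orderOf_dvd_of_pow_eq_one hk)
      (Nat.Coprime.pow_left k ((Nat.Prime.coprime_iff_not_dvd Fact.out).2 hQ)).symm
  obtain ⟨r, hr⟩ := exists_pow_eq_self_of_coprime hcop
  have h1 : (⟨x, hx⟩ : P) ^ Nat.card Q = u⁻¹ * y := by rw [hyu, inv_mul_cancel_left]
  rw [h1, mul_pow] at hr
  have h2 : x = ((u⁻¹ ^ r : P) : K) * ((y ^ r : P) : K) := (congrArg Subtype.val hr).symm
  refine ⟨((u⁻¹ ^ r : P) : K), (u⁻¹ ^ r).2, ?_, ((y ^ r : P) : K), ?_, h2⟩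
  · exact M.pow_mem (M.inv_mem hu) r
  · refine ⟨(y ^ r).2, fun n hn hn' => ?_⟩
    have h3 := hyC.2 n hn hn'
    calc n * ((y ^ r : P) : K) * n⁻¹ = (n * (y : K) * n⁻¹) ^ r := (conj_pow).symm
      _ = ((y ^ r : P) : K) := by rw [h3]; rfl

theorem cset_mul {K : Type} [Group K] {P M : Subgroup K} {a b : K} (ha : a ∈ Cset P M)
    (hb : b ∈ Cset P M) : a * b ∈ Cset P M := by
  refine ⟨P.mul_mem ha.1 hb.1, fun n hn hn' => ?_⟩
  have h1 := ha.2 n hn hn'
  have h2 := hb.2 n hn hn'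
  calc n * (a * b) * n⁻¹ = (n * a * n⁻¹) * (n * b * n⁻¹) := by group
    _ = a * b := by rw [h1, h2]

theorem cset_inv {K : Type} [Group K] {P M : Subgroup K} {a : K} (ha : a ∈ Cset P M) :
    a⁻¹ ∈ Cset P M := by
  refine ⟨P.inv_mem ha.1, fun n hn hn' => ?_⟩
  have h1 := ha.2 n hn hn'
  calc n * a⁻¹ * n⁻¹ = (n * a * n⁻¹)⁻¹ := by group
    _ = a⁻¹ := by rw [h1]

/-- the complement is transported by isomorphisms -/
theorem cset_map {K : Type} [Group K] {P M : Subgroup K} {P' : Subgroup K} (α : K ≃* K)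
    (hM : ∀ x, x ∈ M ↔ α x ∈ M) (hP : ∀ x, x ∈ P ↔ α x ∈ P') {a : K} (ha : a ∈ Cset P M) :
    α a ∈ Cset P' M := by
  refine ⟨(hP a).1 ha.1, fun n hn hn' => ?_⟩
  obtain ⟨n, rfl⟩ := α.surjective n
  have hPM : ∀ x, x ∈ M ⊔ P ↔ α x ∈ M ⊔ P' := by
    have h1 : (M ⊔ P).map α.toMonoidHom = M ⊔ P' := by
      rw [Subgroup.map_sup]
      congr 1
      · ext x
        constructor
        · rintro ⟨y, hy, rfl⟩
          exact (hM y).1 hy
        · intro hx
          obtain ⟨y, rfl⟩ := α.surjective x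
          exact ⟨y, (hM y).2 hx, rfl⟩
      · ext x
        constructor
        · rintro ⟨y, hy, rfl⟩
          exact (hP y).1 hy
        · intro hx
          obtain ⟨y, rfl⟩ := α.surjective x
          exact ⟨y, (hP y).2 hx, rfl⟩
    intro x
    rw [← h1]
    constructor
    · intro hx
      exact ⟨x, hx, rfl⟩
    · rintro ⟨y, hy, hyx⟩
      have : y = x := α.injective hyx
      rwa [← this]
  have h2 := ha.2 n ((hPM n).2 hn) (fun y => by
    rw [hP y, hP (n * y * n⁻¹), map_mul, map_mul, map_inv]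
    exact hn' (α y))
  rw [← map_mul, ← map_inv, ← map_mul, h2]

end Pool.Agent.Helper38.Form
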